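import Pool.Agent.TRS.Targets

/-!
# MP_5ab805_an, TrilinearForm sharpness: averaging over the roots of unity
-/

set_option autoImplicit false

namespace TRS

open MeasureTheory Set Filter
open scoped ENNReal NNReal Topology
open Pool.Agent.Restr (u E E1 QQ)

namespace AVG_

/-- `u (2π (k - j) m / n)` is the `m`-th power of an `n`-th root of unity. -/
lemma u_pow (n : ℕ) (hn : 1 ≤ n) (d : ℤ) (m : ℕ) :
    u (2 * Real.pi * d * m / n) = (Complex.exp (-(2 * Real.pi * Complex.I * (d / n : ℂ)))) ^ m := by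
  have hn0 : (n : ℂ) ≠ 0 := by exact_mod_cast (by omega : n ≠ 0)
  rw [← Complex.exp_nat_mul, Pool.Agent.Restr.u]
  congr 1
  push_cast
  field_simp

lemma orth (n : ℕ) (hn : 1 ≤ n) (j k : ℕ) (hj : j < n) (hk : k < n) :
    ∑ m ∈ Finset.range n, u (2 * Real.pi * k * m / n) * u (-(2 * Real.pi * j * m / n)) =
      if j = k then (n : ℂ) else 0 := by
  have hn0 : (n : ℂ) ≠ 0 := by exact_mod_cast (by omega : n ≠ 0)
  have h1 : ∀ m ∈ Finset.range n,
      u (2 * Real.pi * k * m / n) * u (-(2 * Real.pi * j * m / n)) =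
        (Complex.exp (-(2 * Real.pi * Complex.I * (((k : ℤ) - j : ℤ) / n : ℂ)))) ^ m := by
    intro m _
    rw [← u_pow n hn, ← Pool.Agent.Restr.u_add]
    congr 1
    push_cast
    ring
  rw [Finset.sum_congr rfl h1]
  split_ifs with h
  · subst h
    simp
  · have hne : Complex.exp (-(2 * Real.pi * Complex.I * (((k : ℤ) - j : ℤ) / n : ℂ))) ≠ 1 := by
      intro he
      rw [Complex.exp_eq_one_iff] at he
      obtain ⟨t, ht⟩ := he
      have hpi : (2 * Real.pi * Complex.I : ℂ) ≠ 0 := Complex.two_pi_I_ne_zero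
      have h2 : (((k : ℤ) - j : ℤ) : ℂ) = (((-t) * n : ℤ) : ℂ) := by
        have h3 : (2 * Real.pi * Complex.I : ℂ) * ((((k : ℤ) - j : ℤ) : ℂ) / n) =
            (2 * Real.pi * Complex.I : ℂ) * (-t) := by
          linear_combination -ht
        have h4 := mul_left_cancel₀ hpi h3
        rw [div_eq_iff hn0] at h4
        rw [h4]
        push_cast
        ring
      have h5 : ((k : ℤ) - j : ℤ) = (-t) * n := by exact_mod_cast h2
      have h6 : (n : ℤ) ∣ (k : ℤ) - j := ⟨-t, by rw [h5]; ring⟩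
      have h7 : (k : ℤ) - j = 0 := by
        apply Int.eq_zero_of_abs_lt_dvd h6
        rw [abs_lt]
        constructor <;> omega
      omega
    rw [geom_sum_eq hne]
    have hp : (Complex.exp (-(2 * Real.pi * Complex.I * (((k : ℤ) - j : ℤ) / n : ℂ)))) ^ n = 1 := by
      rw [← Complex.exp_nat_mul, Complex.exp_eq_one_iff]
      refine ⟨-((k : ℤ) - j), ?_⟩
      push_cast
      field_simp
    rw [hp]
    simp

end AVG_

open AVG_ in
/-- AVG: averaging over the roots of unity. -/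
theorem p_AVG : T_AVG := by
  intro n z ρ hn hρ k hk
  have hn0 : (n : ℂ) ≠ 0 := by exact_mod_cast (by omega : n ≠ 0)
  have hnE : (n : ℝ≥0∞) ≠ 0 := by exact_mod_cast (by omega : n ≠ 0)
  have hnT : (n : ℝ≥0∞) ≠ ∞ := ENNReal.natCast_ne_top n
  set F : ℕ → ℂ := fun m ↦ ∑ j ∈ Finset.range n, u (-(2 * Real.pi * j * m / n)) * z j with hF
  have h1 : (n : ℂ) * z k = ∑ m ∈ Finset.range n, u (2 * Real.pi * k * m / n) * F m := by
    simp only [hF, Finset.mul_sum]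
    rw [Finset.sum_comm]
    have h2 : ∀ j ∈ Finset.range n,
        ∑ m ∈ Finset.range n, u (2 * Real.pi * k * m / n) *
          (u (-(2 * Real.pi * j * m / n)) * z j) = (if j = k then (n : ℂ) else 0) * z j := by
      intro j hj
      rw [← orth n hn j k (Finset.mem_range.mp hj) hk, Finset.sum_mul]
      exact Finset.sum_congr rfl fun m _ ↦ by ring
    rw [Finset.sum_congr rfl h2]
    simp [hk]
  have h3 : (n : ℝ≥0∞) * ‖z k‖ₑ ≤ ∑ m ∈ Finset.range n, ‖F m‖ₑ := by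
    calc (n : ℝ≥0∞) * ‖z k‖ₑ = ‖(n : ℂ) * z k‖ₑ := by
          rw [enorm_mul]
          congr 1
          simp [enorm_eq_nnnorm]
      _ = ‖∑ m ∈ Finset.range n, u (2 * Real.pi * k * m / n) * F m‖ₑ := by rw [h1]
      _ ≤ ∑ m ∈ Finset.range n, ‖u (2 * Real.pi * k * m / n) * F m‖ₑ := enorm_sum_le _ _
      _ = ∑ m ∈ Finset.range n, ‖F m‖ₑ := by
          refine Finset.sum_congr rfl fun m _ ↦ ?_
          rw [enorm_mul, Pool.Agent.Restr.enorm_u, one_mul]
  have h4 : ‖z k‖ₑ ≤ ∑ m ∈ Finset.range n, (n : ℝ≥0∞)⁻¹ * ‖F m‖ₑ := by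
    rw [← Finset.mul_sum]
    calc ‖z k‖ₑ = (n : ℝ≥0∞)⁻¹ * (n * ‖z k‖ₑ) := by
          rw [← mul_assoc, ENNReal.inv_mul_cancel hnE hnT, one_mul]
      _ ≤ _ := by gcongr
  have h5 : ∑ _m ∈ Finset.range n, (n : ℝ≥0∞)⁻¹ = 1 := by
    rw [Finset.sum_const, Finset.card_range, nsmul_eq_mul, ENNReal.mul_inv_cancel hnE hnT]
  have h6 := ENNReal.rpow_arith_mean_le_arith_mean_rpow (Finset.range n)
    (fun _ ↦ (n : ℝ≥0∞)⁻¹) (fun m ↦ ‖F m‖ₑ) h5 hρ
  calc (n : ℝ≥0∞) * ‖z k‖ₑ ^ ρ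
      ≤ n * (∑ m ∈ Finset.range n, (n : ℝ≥0∞)⁻¹ * ‖F m‖ₑ) ^ ρ := by
        gcongr
    _ ≤ n * ∑ m ∈ Finset.range n, (n : ℝ≥0∞)⁻¹ * ‖F m‖ₑ ^ ρ := by gcongr
    _ = ∑ m ∈ Finset.range n, ‖F m‖ₑ ^ ρ := by
        rw [← Finset.mul_sum, ← mul_assoc, ENNReal.mul_inv_cancel hnE hnT, one_mul]

end TRS
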