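import Pool.Agent.TRS.Targets

/-!
# TRS, block ONE (helper9)
-/

set_option autoImplicit false

namespace TRS

open MeasureTheory Set Filter
open scoped ENNReal NNReal Topology
open Pool.Agent.Restr (u E E1 QQ)
open TriL (Sq n2 Mo)
open Wey (nq InD gdn)
open Wex (tent pyr ww)

namespace ONE_

theorem w1_cont : Continuous w1 := by
  unfold w1
  have h := Wex.KNA_.tent_cont 3
  fun_prop

theorem tent_nonneg (a x : ℝ) : 0 ≤ tent a x := le_max_left _ _

theorem w1_norm (x : ℝ) : ‖w1 x‖ ≤ 1 := by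
  unfold w1
  rw [Complex.norm_real, Real.norm_eq_abs, abs_of_nonneg (mul_nonneg (Real.exp_pos _).le
    (tent_nonneg _ _))]
  exact mul_le_one₀ (Real.exp_le_one_iff.2 (by nlinarith [sq_nonneg x])) (tent_nonneg _ _)
    (Wex.KNA_.tent_le _ _ (by norm_num))

theorem w1_zero (x : ℝ) (h : 1 / 3 ≤ |x|) : w1 x = 0 := by
  unfold w1
  rw [Wex.KNA_.tent_zero 3 x (by linarith)]
  simp

theorem w1_out (x : ℝ) (h : x ∉ TriL.II) : w1 x = 0 := by
  apply w1_zero
  by_contra hx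
  apply h
  rw [not_le, abs_lt] at hx
  exact ⟨by linarith, by linarith⟩

theorem ww_eq (x : ℝ × ℝ) : ww x = TriL.ten (ι := Unit) (fun _ => w1) (fun _ => w1) x := by
  unfold ww gdn nq pyr TriL.ten w1
  simp only [Finset.univ_unique, Finset.sum_const, Finset.card_singleton, one_smul]
  rw [neg_add, Real.exp_add]
  push_cast
  ring

theorem E_ww (p s : ℝ) : E ww (p, p, s) = E1 w1 (p, s) ^ 2 := by
  have h := TriL.FAC_.main (ι := Unit) (fun _ => w1) (fun _ => w1)
    (fun _ => ⟨w1_cont.measurable, w1_out⟩) (fun _ => ⟨w1_cont.measurable, w1_out⟩)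
    (A := 1) (B := 1) (fun _ => w1_norm) (fun _ => w1_norm) (p, p, s)
  have h2 : E ww = E (TriL.ten (ι := Unit) (fun _ => w1) (fun _ => w1)) := by
    congr 1
    funext x
    exact ww_eq x
  rw [h2, h]
  simp [sq]

end ONE_

open ONE_ in
theorem p_ONE : T_ONE := by
  obtain ⟨c, s₀, hc, hs, h⟩ := Wex.p_WLO Wey.p_REP Wex.p_TEN
  refine ⟨√c, s₀, Real.sqrt_pos.2 hc, hs, fun p s h1 h2 => ?_⟩
  have h3 := h (p, p) s h1 h2 h2
  rw [E_ww, norm_pow] at h3
  rw [← Real.sqrt_div' _ (by linarith), ← Real.sqrt_sq (norm_nonneg (E1 w1 (p, s)))]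
  exact Real.sqrt_le_sqrt h3

end TRS
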