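import Pool.Agent.TRS.Targets
import Pool.Agent.TRS.ONE

/-!
# TRS, block CLS: the functions `gm` are in the class
-/

set_option autoImplicit false

namespace TRS

open MeasureTheory Set Filter
open scoped ENNReal NNReal Topology
open Pool.Agent.Restr (u E E1 QQ)
open TriL (Sq n2 Mo)
open Wey (nq InD gdn)
open Wex (tent pyr ww)

namespace CLS_

open Classical in
/-- the translates of the profile which do not vanish at `z` -/
noncomputable def act (n : ℕ) (z : ℝ) : Finset ℕ :=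
  (Finset.range n).filter (fun k => w1 (z - k) ≠ 0)

theorem act_card (n : ℕ) (z : ℝ) : (act n z).card ≤ 1 := by
  rw [Finset.card_le_one]
  intro a ha b hb
  simp only [act, Finset.mem_filter] at ha hb
  have h1 : |z - a| < 1 / 3 := by
    by_contra h
    exact ha.2 (ONE_.w1_zero _ (not_lt.1 h))
  have h2 : |z - b| < 1 / 3 := by
    by_contra h
    exact hb.2 (ONE_.w1_zero _ (not_lt.1 h))
  rw [abs_lt] at h1 h2
  have h3 : (a : ℝ) < b + 1 := by linarith
  have h4 : (b : ℝ) < a + 1 := by linarith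
  have h5 : a < b + 1 := by exact_mod_cast h3
  have h6 : b < a + 1 := by exact_mod_cast h4
  omega

theorem sum_le (n : ℕ) (z : ℝ) : ∑ k ∈ Finset.range n, ‖w1 (z - k)‖ ≤ 1 := by
  have h1 : ∑ k ∈ Finset.range n, ‖w1 (z - k)‖ = ∑ k ∈ act n z, ‖w1 (z - k)‖ := by
    symm
    apply Finset.sum_subset (Finset.filter_subset _ _)
    intro k hk hk2
    simp only [act, Finset.mem_filter, not_and, not_not] at hk2
    rw [hk2 hk, norm_zero]
  rw [h1]
  calc ∑ k ∈ act n z, ‖w1 (z - k)‖ ≤ ∑ _k ∈ act n z, (1 : ℝ) :=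
        Finset.sum_le_sum fun k _ => ONE_.w1_norm _
    _ = (act n z).card := by simp
    _ ≤ 1 := by exact_mod_cast act_card n z

theorem exp_lip (x y : ℝ) : |Real.exp (-x ^ 2) - Real.exp (-y ^ 2)| ≤ |x - y| := by
  have h := (convex_univ (𝕜 := ℝ) (E := ℝ)).norm_image_sub_le_of_norm_hasDerivWithin_le
    (f := fun x : ℝ => Real.exp (-x ^ 2)) (f' := fun x : ℝ => Real.exp (-x ^ 2) * (-(2 * x)))
    (C := 1) (x := y) (y := x) ?_ ?_ (mem_univ _) (mem_univ _)
  · simpa [Real.norm_eq_abs] using h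
  · intro t _
    have h1 : HasDerivAt (fun x : ℝ => -x ^ 2) (-(2 * t)) t := by
      have h2 := (hasDerivAt_pow 2 t).fun_neg
      simpa using h2
    exact h1.exp.hasDerivWithinAt
  · intro t _
    have h1 : 1 + t ^ 2 ≤ Real.exp (t ^ 2) := by
      linarith [Real.add_one_le_exp (t ^ 2)]
    have h2 : 2 * |t| ≤ Real.exp (t ^ 2) := by
      nlinarith [sq_nonneg (|t| - 1), sq_abs t]
    have h3 : Real.exp (-t ^ 2) * Real.exp (t ^ 2) = 1 := by
      rw [← Real.exp_add]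
      simp
    rw [norm_mul, Real.norm_eq_abs, Real.norm_eq_abs, abs_of_pos (Real.exp_pos _), abs_neg,
      abs_mul, abs_two]
    calc Real.exp (-t ^ 2) * (2 * |t|) ≤ Real.exp (-t ^ 2) * Real.exp (t ^ 2) := by gcongr
      _ = 1 := h3

theorem tent_lip (x y : ℝ) : |tent 3 x - tent 3 y| ≤ 3 * |x - y| := by
  unfold tent
  rw [max_comm 0, max_comm 0]
  refine (abs_max_sub_max_le_abs _ _ _).trans ?_
  have h1 : (1 - 3 * |x|) - (1 - 3 * |y|) = 3 * (|y| - |x|) := by ring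
  rw [h1, abs_mul, abs_of_pos (by norm_num : (0 : ℝ) < 3)]
  have h2 := abs_abs_sub_abs_le_abs_sub y x
  rw [abs_sub_comm y x] at h2
  linarith

theorem w1_lip (x y : ℝ) : ‖w1 x - w1 y‖ ≤ 4 * |x - y| := by
  unfold w1
  rw [← Complex.ofReal_sub, Complex.norm_real, Real.norm_eq_abs]
  have h1 : Real.exp (-x ^ 2) * tent 3 x - Real.exp (-y ^ 2) * tent 3 y =
      Real.exp (-x ^ 2) * (tent 3 x - tent 3 y) +
        (Real.exp (-x ^ 2) - Real.exp (-y ^ 2)) * tent 3 y := by ring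
  rw [h1]
  refine (abs_add_le _ _).trans ?_
  rw [abs_mul, abs_mul, abs_of_pos (Real.exp_pos _), abs_of_nonneg (ONE_.tent_nonneg _ _)]
  have h2 : Real.exp (-x ^ 2) ≤ 1 := Real.exp_le_one_iff.2 (by nlinarith [sq_nonneg x])
  have h3 : tent 3 y ≤ 1 := Wex.KNA_.tent_le _ _ (by norm_num)
  have h4 := tent_lip x y
  have h5 := exp_lip x y
  have h6 : Real.exp (-x ^ 2) * |tent 3 x - tent 3 y| ≤ 1 * (3 * |x - y|) := by
    gcongr
  have h7 : |Real.exp (-x ^ 2) - Real.exp (-y ^ 2)| * tent 3 y ≤ |x - y| * 1 := by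
    gcongr
    exact ONE_.tent_nonneg _ _
  linarith

theorem sum_lip (n : ℕ) (z z' : ℝ) :
    ∑ k ∈ Finset.range n, ‖w1 (z' - k) - w1 (z - k)‖ ≤ 8 * |z' - z| := by
  classical
  have h1 : ∑ k ∈ Finset.range n, ‖w1 (z' - k) - w1 (z - k)‖ =
      ∑ k ∈ act n z ∪ act n z', ‖w1 (z' - k) - w1 (z - k)‖ := by
    symm
    apply Finset.sum_subset
    · exact Finset.union_subset (Finset.filter_subset _ _) (Finset.filter_subset _ _)
    · intro k hk hk2
      simp only [act, Finset.mem_union, Finset.mem_filter, not_or, not_and, not_not] at hk2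
      rw [hk2.1 hk, hk2.2 hk, sub_zero, norm_zero]
  rw [h1]
  have h2 : ((act n z ∪ act n z').card : ℝ) ≤ 2 := by
    have h3 := Finset.card_union_le (act n z) (act n z')
    have h4 := act_card n z
    have h5 := act_card n z'
    have h6 : (act n z ∪ act n z').card ≤ 2 := by omega
    exact_mod_cast h6
  calc ∑ k ∈ act n z ∪ act n z', ‖w1 (z' - k) - w1 (z - k)‖
      ≤ ∑ _k ∈ act n z ∪ act n z', (4 * |z' - z|) := by
        refine Finset.sum_le_sum fun k _ => ?_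
        refine (w1_lip _ _).trans (le_of_eq ?_)
        congr 2
        ring
    _ = (act n z ∪ act n z').card * (4 * |z' - z|) := by
        rw [Finset.sum_const, nsmul_eq_mul]
    _ ≤ 2 * (4 * |z' - z|) := by gcongr
    _ = 8 * |z' - z| := by ring

theorem bk_eq {n : ℕ} (hn : 1 ≤ n) (k : ℕ) (y : ℝ) :
    bk n k y = w1 ((8 * n * y - n) - k) := by
  have hn' : (n : ℝ) ≠ 0 := by positivity
  unfold bk vk
  congr 1
  field_simp
  ring

theorem ck_norm (A n k : ℕ) (x : ℝ) : ‖ck A n k x‖ = ‖w1 x‖ := by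
  unfold ck
  rw [norm_mul, Pool.Agent.Restr.norm_u, one_mul]

theorem gm_le {n : ℕ} (hn : 1 ≤ n) (A m : ℕ) (x : ℝ × ℝ) : ‖gm A n m x‖ ≤ 1 := by
  unfold gm
  refine (norm_sum_le _ _).trans ((Finset.sum_le_sum fun k _ => ?_).trans
    (sum_le n (8 * n * x.2 - n)))
  rw [norm_mul, Pool.Agent.Restr.norm_u, one_mul, norm_mul, ck_norm, bk_eq hn]
  exact mul_le_of_le_one_left (norm_nonneg _) (ONE_.w1_norm _)

theorem gm_lip {n : ℕ} (hn : 1 ≤ n) (A m : ℕ) (x y y' : ℝ) :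
    ‖gm A n m (x, y') - gm A n m (x, y)‖ ≤ 64 * n * |y' - y| := by
  unfold gm
  rw [← Finset.sum_sub_distrib]
  refine (norm_sum_le _ _).trans ?_
  have h1 : 64 * n * |y' - y| = 8 * |(8 * n * y' - n) - (8 * n * y - n)| := by
    have h2 : (8 * n * y' - n) - (8 * n * y - n) = 8 * n * (y' - y) := by ring
    rw [h2, abs_mul, abs_of_nonneg (by positivity : (0 : ℝ) ≤ 8 * n)]
    ring
  rw [h1]
  refine (Finset.sum_le_sum fun k _ => ?_).trans (sum_lip n (8 * n * y - n) (8 * n * y' - n))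
  simp only
  rw [← mul_sub, ← mul_sub, norm_mul, Pool.Agent.Restr.norm_u, one_mul, norm_mul, ck_norm,
    bk_eq hn, bk_eq hn]
  exact mul_le_of_le_one_left (norm_nonneg _) (ONE_.w1_norm _)

/-- the support -/
theorem gm_ne {n : ℕ} (hn : 1 ≤ n) (A m : ℕ) (x : ℝ × ℝ) (h : gm A n m x ≠ 0) :
    |x.1| < 1 / 3 ∧ 0 ≤ x.2 ∧ x.2 ≤ 1 / 4 := by
  have hn' : (1 : ℝ) ≤ n := by exact_mod_cast hn
  obtain ⟨k, hk, h1⟩ := Finset.exists_ne_zero_of_sum_ne_zero h
  have h2 : ck A n k x.1 ≠ 0 := left_ne_zero_of_mul (right_ne_zero_of_mul h1)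
  have h3 : bk n k x.2 ≠ 0 := right_ne_zero_of_mul (right_ne_zero_of_mul h1)
  have h4 : w1 x.1 ≠ 0 := by
    intro h5
    apply h2
    unfold ck
    rw [h5, mul_zero]
  rw [bk_eq hn] at h3
  have h5 : |x.1| < 1 / 3 := by
    by_contra h6
    exact h4 (ONE_.w1_zero _ (not_lt.1 h6))
  have h6 : |(8 * n * x.2 - n) - k| < 1 / 3 := by
    by_contra h7
    exact h3 (ONE_.w1_zero _ (not_lt.1 h7))
  have hk1 : (k : ℝ) + 1 ≤ n := by
    have := Finset.mem_range.1 hk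
    exact_mod_cast this
  have hk0 : (0 : ℝ) ≤ k := Nat.cast_nonneg k
  rw [abs_lt] at h6
  refine ⟨h5, ?_, ?_⟩
  · by_contra h7
    rw [not_le] at h7
    have : 8 * (n : ℝ) * x.2 < 0 := by
      apply mul_neg_of_pos_of_neg _ h7
      linarith
    linarith [h6.1]
  · by_contra h7
    rw [not_le] at h7
    have : 8 * (n : ℝ) * (1 / 4) < 8 * n * x.2 := by
      apply mul_lt_mul_of_pos_left h7
      linarith
    linarith [h6.2]

theorem gm_meas (A n m : ℕ) : Measurable (gm A n m) := by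
  have h1 := ONE_.w1_cont
  have h2 := Pool.Agent.Restr.continuous_u
  apply Continuous.measurable
  unfold gm ck bk
  refine continuous_finsetSum _ fun k _ => ?_
  refine Continuous.mul (by fun_prop) (Continuous.mul (Continuous.mul ?_ ?_) ?_)
  · exact h2.comp (by fun_prop)
  · exact h1.comp (by fun_prop)
  · exact h1.comp (by fun_prop)

theorem gm_ind {n : ℕ} (hn : 1 ≤ n) (A m : ℕ) : InD (gm A n m) := by
  refine ⟨gm_meas A n m, fun x hx => ?_⟩
  by_contra h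
  obtain ⟨h1, h2, h3⟩ := gm_ne hn A m x h
  rw [abs_lt] at h1
  nlinarith

/-- the elementary inequality -/
theorem min_sq {d t s : ℝ} (hd : 0 ≤ d) (hd2 : d ≤ 2) (hdt : d ≤ t) (hs : 0 ≤ s) (hs1 : s ≤ 1) :
    d ^ 2 ≤ 4 * t ^ (2 * s) := by
  have ht : 0 ≤ t := hd.trans hdt
  rcases le_total t 1 with h | h
  · have h1 : t ^ (2 : ℝ) ≤ t ^ (2 * s) :=
      Real.rpow_le_rpow_of_exponent_ge' ht h (by linarith) (by linarith)
    rw [Real.rpow_two] at h1
    have h2 : 0 ≤ t ^ (2 * s) := Real.rpow_nonneg ht _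
    nlinarith
  · have h1 : 1 ≤ t ^ (2 * s) := Real.one_le_rpow h (by linarith)
    nlinarith

theorem gm_pt {n : ℕ} (hn : 1 ≤ n) (A m : ℕ) (x y h s : ℝ) (hs : 0 ≤ s) (hs1 : s ≤ 1) :
    ‖gm A n m (x, y + h) - gm A n m (x, y)‖ₑ ^ 2 ≤
      (Icc 0 (1 / 4) ∪ Icc (-h) (1 / 4 - h)).indicator
        (fun _ => ENNReal.ofReal (4 * (64 * n * |h|) ^ (2 * s))) y := by
  by_cases hy : y ∈ Icc (0 : ℝ) (1 / 4) ∪ Icc (-h) (1 / 4 - h)
  · rw [indicator_of_mem hy]
    have h1 : ‖gm A n m (x, y + h) - gm A n m (x, y)‖ ≤ 2 := by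
      refine (norm_sub_le _ _).trans ?_
      linarith [gm_le hn A m (x, y + h), gm_le hn A m (x, y)]
    have h2 := gm_lip hn A m x y (y + h)
    rw [add_sub_cancel_left] at h2
    have h3 := min_sq (norm_nonneg _) h1 h2 hs hs1
    rw [← ofReal_norm, ← ENNReal.ofReal_pow (norm_nonneg _)]
    exact ENNReal.ofReal_le_ofReal h3
  · rw [indicator_of_notMem hy]
    rw [mem_union, not_or] at hy
    have h1 : gm A n m (x, y) = 0 := by
      by_contra h2
      obtain ⟨-, h3, h4⟩ := gm_ne hn A m _ h2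
      exact hy.1 ⟨h3, h4⟩
    have h2 : gm A n m (x, y + h) = 0 := by
      by_contra h2
      obtain ⟨-, h3, h4⟩ := gm_ne hn A m _ h2
      simp only at h3 h4
      exact hy.2 ⟨by linarith, by linarith⟩
    rw [h1, h2]
    simp

theorem vol_le (h : ℝ) : volume (Icc (0 : ℝ) (1 / 4) ∪ Icc (-h) (1 / 4 - h)) ≤ 1 := by
  refine (measure_union_le _ _).trans ?_
  rw [Real.volume_Icc, Real.volume_Icc, ← ENNReal.ofReal_add (by norm_num) (by linarith)]
  rw [ENNReal.ofReal_le_one]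
  linarith

theorem const_le {n : ℕ} (hn : 1 ≤ n) (h s : ℝ) (hs1 : s ≤ 1) :
    ENNReal.ofReal (4 * (64 * n * |h|) ^ (2 * s)) ≤
      ((128 * (n : ℝ≥0) ^ s : ℝ≥0) : ℝ≥0∞) ^ 2 * ENNReal.ofReal (|h| ^ (2 * s)) := by
  have hn' : (0 : ℝ) < n := by exact_mod_cast hn
  have h1 : ((128 * (n : ℝ≥0) ^ s : ℝ≥0) : ℝ≥0∞) = ENNReal.ofReal (128 * (n : ℝ) ^ s) := by
    rw [← ENNReal.ofReal_coe_nnreal]
    congr 1
  rw [h1, ← ENNReal.ofReal_pow (by positivity), ← ENNReal.ofReal_mul (by positivity)]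
  apply ENNReal.ofReal_le_ofReal
  rw [Real.mul_rpow (by positivity) (abs_nonneg h), Real.mul_rpow (by norm_num) hn'.le]
  have h2 : (64 : ℝ) ^ (2 * s) ≤ 64 ^ 2 := by
    rw [← Real.rpow_two]
    exact Real.rpow_le_rpow_of_exponent_le (by norm_num) (by linarith)
  have h3 : (n : ℝ) ^ (2 * s) = ((n : ℝ) ^ s) ^ 2 := by
    rw [← Real.rpow_natCast, ← Real.rpow_mul hn'.le]
    congr 1
    push_cast
    ring
  rw [h3]
  have h4 : 0 ≤ |h| ^ (2 * s) := Real.rpow_nonneg (abs_nonneg h) _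
  calc 4 * ((64 : ℝ) ^ (2 * s) * ((n : ℝ) ^ s) ^ 2 * |h| ^ (2 * s))
      ≤ 4 * (64 ^ 2 * ((n : ℝ) ^ s) ^ 2 * |h| ^ (2 * s)) := by gcongr
    _ = (128 * (n : ℝ) ^ s) ^ 2 * |h| ^ (2 * s) := by ring

end CLS_

open CLS_ in
theorem p_CLS : T_CLS := by
  intro A n m hn
  refine ⟨gm_ind hn A m, gm_le hn A m, fun s hs hs1 x h => ?_⟩
  have hS : MeasurableSet (Icc (0 : ℝ) (1 / 4) ∪ Icc (-h) (1 / 4 - h)) :=
    measurableSet_Icc.union measurableSet_Icc
  calc ∫⁻ y, ‖gm A n m (x, y + h) - gm A n m (x, y)‖ₑ ^ 2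
      ≤ ∫⁻ y, (Icc (0 : ℝ) (1 / 4) ∪ Icc (-h) (1 / 4 - h)).indicator
        (fun _ => ENNReal.ofReal (4 * (64 * n * |h|) ^ (2 * s))) y :=
        lintegral_mono fun y => gm_pt hn A m x y h s hs hs1
    _ = ENNReal.ofReal (4 * (64 * n * |h|) ^ (2 * s)) *
        volume (Icc (0 : ℝ) (1 / 4) ∪ Icc (-h) (1 / 4 - h)) := by
        rw [lintegral_indicator hS, setLIntegral_const]
    _ ≤ ENNReal.ofReal (4 * (64 * n * |h|) ^ (2 * s)) * 1 := by
        gcongr
        exact vol_le h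
    _ ≤ _ := by
        rw [mul_one]
        exact const_le hn h s hs1

end TRS
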