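import Pool.Agent.TRS.Targets
import Pool.Agent.TRS.ONE

/-!
# TRS, block GMF (helper29)
-/

set_option autoImplicit false

namespace TRS

open MeasureTheory Set Filter
open scoped ENNReal NNReal Topology
open Pool.Agent.Restr (u E E1 QQ)
open TriL (Sq n2 Mo)
open Wey (nq InD gdn)
open Wex (tent pyr ww)

namespace GMF_

theorem ck_meas (A n k : ℕ) : Measurable (ck A n k) := by
  unfold ck
  exact (TriL.FAC_.meas_u.comp (by fun_prop)).mul ONE_.w1_cont.measurable

theorem bk_meas (n k : ℕ) : Measurable (bk n k) := by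
  unfold bk
  exact ONE_.w1_cont.measurable.comp (by fun_prop)

theorem ck_norm (A n k : ℕ) (x : ℝ) : ‖ck A n k x‖ ≤ 1 := by
  unfold ck
  rw [norm_mul, Pool.Agent.Restr.norm_u, one_mul]
  exact ONE_.w1_norm x

theorem bk_out (n k : ℕ) (hk : k < n) (x : ℝ) (h : x ∉ TriL.II) : bk n k x = 0 := by
  unfold bk
  apply ONE_.w1_zero
  by_contra hx
  apply h
  have hn : (1 : ℝ) ≤ n := by exact_mod_cast (by omega : 1 ≤ n)
  have hk' : (k : ℝ) + 1 ≤ n := by exact_mod_cast hk
  have hk0 : (0 : ℝ) ≤ k := Nat.cast_nonneg k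
  have hv1 : (0 : ℝ) ≤ (k : ℝ) / (8 * n) := by positivity
  have hv2 : (k : ℝ) / (8 * n) ≤ 1 / 8 := by
    rw [div_le_div_iff₀ (by positivity) (by norm_num)]
    linarith
  rw [not_le, abs_mul, abs_of_pos (by positivity : (0 : ℝ) < 8 * n)] at hx
  have h3 : |x - vk n k| < 1 / 3 / 8 := by
    have h4 : 8 * |x - vk n k| ≤ 8 * n * |x - vk n k| := by
      nlinarith [abs_nonneg (x - vk n k)]
    linarith
  rw [abs_lt] at h3
  unfold vk at h3
  exact ⟨by linarith [h3.1], by linarith [h3.2]⟩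

end GMF_

open GMF_ in
theorem p_GMF : T_GMF := by
  intro A n m hn ξ
  have h := TriL.FAC_.main (ι := Fin n)
    (fun j x => u (-(2 * Real.pi * (j : ℕ) * m / n)) * ck A n j x) (fun j => bk n j)
    (fun j => ⟨(ck_meas A n j).const_mul _, fun x hx => by
      have : ck A n j x = 0 := by
        unfold ck
        rw [ONE_.w1_out x hx, mul_zero]
      simp only [this, mul_zero]⟩)
    (fun j => ⟨bk_meas n j, bk_out n j j.2⟩)
    (A := 1) (B := 1) (fun j x => by
      rw [norm_mul, Pool.Agent.Restr.norm_u, one_mul]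
      exact ck_norm A n j x) (fun j x => ONE_.w1_norm _) ξ
  have h2 : gm A n m = TriL.ten (fun (j : Fin n) (x : ℝ) =>
      u (-(2 * Real.pi * (j : ℕ) * m / n)) * ck A n j x) (fun j => bk n j) := by
    funext x
    unfold gm TriL.ten
    rw [Finset.sum_range]
    exact Finset.sum_congr rfl fun j _ => by ring
  rw [h2, h, Finset.sum_range]
  refine Finset.sum_congr rfl fun j _ => ?_
  have h3 : E1 (fun x : ℝ => u (-(2 * Real.pi * (j : ℕ) * m / n)) * ck A n j x)
      (ξ.1, ξ.2.2) = u (-(2 * Real.pi * (j : ℕ) * m / n)) * E1 (ck A n j) (ξ.1, ξ.2.2) := by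
    unfold E1
    rw [← integral_const_mul]
    refine integral_congr_ae (Eventually.of_forall fun x => ?_)
    simp only
    ring
  rw [h3]
  ring

end TRS
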