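import Pool.Agent.TRS.Targets

/-!
# TRS, block KNF (helper66): the Knapp function
-/

set_option autoImplicit false

namespace TRS

open MeasureTheory Set Filter
open scoped ENNReal NNReal Topology
open Pool.Agent.Restr (u E E1 QQ)
open TriL (Sq n2 Mo)
open Wey (nq InD gdn)
open Wex (tent pyr ww)

namespace KNF_

open Wex.KNA_

lemma phase (J : ℕ) (hJ : 2 ≤ J) (ξ : ℝ × ℝ × ℝ) (h1 : |ξ.1| ≤ J / 32)
    (h2 : |ξ.2.1| ≤ J / 32) (ht0 : 0 ≤ ξ.2.2) (ht1 : ξ.2.2 ≤ (J : ℝ) ^ 2) (x : ℝ × ℝ)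
    (hx : x ∈ sqr (1 / (2 * (J : ℝ)))) : 4 / 5 ≤ Real.cos (ph ξ x) := by
  have hJ' : (2 : ℝ) ≤ J := by exact_mod_cast hJ
  have hJ0 : (0 : ℝ) < J := by linarith
  rw [mem_sqr] at hx
  have e1 : |ξ.1 * x.1| ≤ 1 / 64 := by
    rw [abs_mul]
    calc |ξ.1| * |x.1| ≤ (J / 32) * (1 / (2 * J)) := by
          gcongr
          · exact hx.1
      _ = 1 / 64 := by field_simp; norm_num
  have e2 : |ξ.2.1 * x.2| ≤ 1 / 64 := by
    rw [abs_mul]
    calc |ξ.2.1| * |x.2| ≤ (J / 32) * (1 / (2 * J)) := by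
          gcongr
          · exact hx.2
      _ = 1 / 64 := by field_simp; norm_num
  have e3 : x.1 ^ 2 + x.2 ^ 2 ≤ 1 / (2 * J ^ 2) := by
    have a1 : x.1 ^ 2 ≤ (1 / (2 * (J : ℝ))) ^ 2 := by rw [← sq_abs]; gcongr; exact hx.1
    have a2 : x.2 ^ 2 ≤ (1 / (2 * (J : ℝ))) ^ 2 := by rw [← sq_abs]; gcongr; exact hx.2
    have a3 : (1 / (2 * (J : ℝ))) ^ 2 + (1 / (2 * (J : ℝ))) ^ 2 = 1 / (2 * J ^ 2) := by
      field_simp; norm_num
    linarith
  have e4 : ξ.2.2 * (x.1 ^ 2 + x.2 ^ 2) ≤ 1 / 2 := by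
    calc ξ.2.2 * (x.1 ^ 2 + x.2 ^ 2) ≤ J ^ 2 * (1 / (2 * J ^ 2)) := by gcongr
      _ = 1 / 2 := by field_simp
  have e5 : 0 ≤ ξ.2.2 * (x.1 ^ 2 + x.2 ^ 2) := by positivity
  have e6 : |ph ξ x| ≤ 17 / 32 := by
    unfold ph
    rw [abs_le] at e1 e2 ⊢
    constructor <;> linarith [e1.1, e1.2, e2.1, e2.2]
  have e7 := Real.one_sub_sq_div_two_le_cos (x := ph ξ x)
  have e8 : ph ξ x ^ 2 ≤ (17 / 32) ^ 2 := by rw [← sq_abs]; gcongr
  norm_num at e8
  linarith

lemma low (J : ℕ) (hJ : 2 ≤ J) (A : ℝ) (hA : 0 ≤ A) (ξ : ℝ × ℝ × ℝ)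
    (k1 : |ξ.1| ≤ J / 32) (k2 : |ξ.2.1| ≤ J / 32) (k3 : 0 ≤ ξ.2.2) (k4 : ξ.2.2 ≤ (J : ℝ) ^ 2) :
    A * (1 / (20 * (J : ℝ) ^ 2)) ≤ ‖E (fun x => (A : ℂ) * pyr (2 * J) x) ξ‖ := by
  have hJ' : (2 : ℝ) ≤ J := by exact_mod_cast hJ
  have hJ0 : (0 : ℝ) < J := by linarith
  set F : ℝ × ℝ → ℂ := fun x => u (ph ξ x) * ((A : ℂ) * pyr (2 * J) x) with hF
  have hE : E (fun x => (A : ℂ) * pyr (2 * J) x) ξ = ∫ x, F x := rfl
  have huc : Continuous (fun x : ℝ × ℝ => u (ph ξ x)) := by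
    unfold Pool.Agent.Restr.u ph; fun_prop
  have hFc : Continuous F := huc.mul (continuous_const.mul (pyr_cont _))
  have hFs : HasCompactSupport F := by
    apply HasCompactSupport.intro (sqr_compact (1 / (2 * (J : ℝ))))
    intro x hx
    rw [hF]
    show u (ph ξ x) * ((A : ℂ) * pyr (2 * J) x) = 0
    unfold pyr
    rw [pyr_zero J hJ0 x hx]
    simp
  have hFi : Integrable F := hFc.integrable_of_hasCompactSupport hFs
  have hre : (∫ x, F x).re = ∫ x, (F x).re := by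
    have := integral_re (𝕜 := ℂ) hFi
    exact this.symm
  have hlow : ∀ x, (sqr (1 / (4 * (J : ℝ)))).indicator (fun _ => A / 5) x ≤ (F x).re := by
    intro x
    have hval : (F x).re = Real.cos (ph ξ x) * (A * (tent (2 * J) x.1 * tent (2 * J) x.2)) := by
      rw [hF]
      show (u (ph ξ x) * ((A : ℂ) * pyr (2 * J) x)).re = _
      unfold pyr
      rw [← Complex.ofReal_mul, Complex.re_mul_ofReal, u_re]
    rw [hval]
    have ht0 : 0 ≤ tent (2 * J) x.1 * tent (2 * J) x.2 :=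
      mul_nonneg (tent_nonneg _ _) (tent_nonneg _ _)
    by_cases hx : x ∈ sqr (1 / (2 * (J : ℝ)))
    · have hc := phase J hJ ξ k1 k2 k3 k4 x hx
      by_cases hx' : x ∈ sqr (1 / (4 * (J : ℝ)))
      · rw [indicator_of_mem hx']
        rw [mem_sqr] at hx'
        have h1 : 1 / 2 ≤ tent (2 * J) x.1 := by
          apply tent_half
          calc 2 * (J : ℝ) * |x.1| ≤ 2 * J * (1 / (4 * J)) := by gcongr; exact hx'.1
            _ = 1 / 2 := by field_simp; norm_num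
        have h2 : 1 / 2 ≤ tent (2 * J) x.2 := by
          apply tent_half
          calc 2 * (J : ℝ) * |x.2| ≤ 2 * J * (1 / (4 * J)) := by gcongr; exact hx'.2
            _ = 1 / 2 := by field_simp; norm_num
        have h3 : 1 / 4 ≤ tent (2 * J) x.1 * tent (2 * J) x.2 := by nlinarith
        calc A / 5 = (4 / 5) * (A * (1 / 4)) := by ring
          _ ≤ Real.cos (ph ξ x) * (A * (tent (2 * J) x.1 * tent (2 * J) x.2)) := by
              apply mul_le_mul hc _ (by positivity) (by linarith)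
              exact mul_le_mul_of_nonneg_left h3 hA
      · rw [indicator_of_notMem hx']
        exact mul_nonneg (by linarith) (mul_nonneg hA ht0)
    · rw [pyr_zero J hJ0 x hx]
      have hx' : x ∉ sqr (1 / (4 * (J : ℝ))) := by
        intro h
        apply hx
        rw [mem_sqr] at h ⊢
        have : 1 / (4 * (J : ℝ)) ≤ 1 / (2 * J) := by
          apply one_div_le_one_div_of_le (by positivity); linarith
        exact ⟨h.1.trans this, h.2.trans this⟩
      rw [indicator_of_notMem hx']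
      simp
  have hvol : volume.real (sqr (1 / (4 * (J : ℝ)))) = 1 / (4 * (J : ℝ) ^ 2) := by
    rw [Measure.real, sqr_vol, ← ENNReal.ofReal_mul (by positivity),
      ENNReal.toReal_ofReal (by positivity)]
    field_simp
    norm_num
  have hint : ∫ x, (sqr (1 / (4 * (J : ℝ)))).indicator (fun _ => A / 5) x =
      A * (1 / (20 * (J : ℝ) ^ 2)) := by
    rw [integral_indicator (sqr_meas _), setIntegral_const, hvol, smul_eq_mul]
    field_simp
    ring
  have hII : Integrable (fun x => (sqr (1 / (4 * (J : ℝ)))).indicator (fun _ => A / 5) x)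
      (volume : Measure (ℝ × ℝ)) := by
    apply (integrable_indicator_iff (sqr_meas _)).2
    exact integrableOn_const (sqr_compact _).measure_lt_top.ne
  calc A * (1 / (20 * (J : ℝ) ^ 2))
      = ∫ x, (sqr (1 / (4 * (J : ℝ)))).indicator (fun _ => A / 5) x := hint.symm
    _ ≤ ∫ x, (F x).re := integral_mono hII hFi.re hlow
    _ = (∫ x, F x).re := hre.symm
    _ ≤ ‖∫ x, F x‖ := Complex.re_le_norm _
    _ = ‖E (fun x => (A : ℂ) * pyr (2 * J) x) ξ‖ := by rw [hE]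

lemma JJ_nat (A n : ℕ) : JJ A n = ((8 * A * n : ℕ) : ℝ) := by
  unfold JJ
  push_cast
  ring

lemma E_fk (A n : ℕ) (ξ : ℝ × ℝ × ℝ) : E (fk A n) ξ =
    E (fun x => ((JJ A n : ℝ) : ℂ) * pyr (2 * JJ A n) x) (ξ.1, ξ.2.1 + JJ A n ^ 2 / 8, ξ.2.2) := by
  unfold Pool.Agent.Restr.E fk
  refine integral_congr_ae (Eventually.of_forall fun x => ?_)
  simp only
  rw [← mul_assoc]
  congr 1
  unfold Pool.Agent.Restr.u
  rw [← Complex.exp_add]
  congr 1
  push_cast
  ring

end KNF_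

open KNF_ in
theorem p_KNF : T_KNF := by
  intro A hA
  have hA' : (1 : ℝ) ≤ A := by exact_mod_cast hA
  refine ⟨1 / (160 * A), by positivity, fun n hn => ?_⟩
  have hn' : (1 : ℝ) ≤ n := by exact_mod_cast hn
  have hJ : 2 ≤ 8 * A * n := by nlinarith [Nat.mul_le_mul hA hn]
  have e := JJ_nat A n
  have hJ8 : (8 : ℝ) ≤ JJ A n := by
    unfold JJ
    nlinarith [mul_le_mul hA' hn' zero_le_one (by linarith)]
  have huc : Continuous fun x : ℝ × ℝ => u (JJ A n ^ 2 / 8 * x.2) := by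
    unfold Pool.Agent.Restr.u
    fun_prop
  refine ⟨⟨?_, fun x hx => ?_⟩, ?_, fun k hk ξ hξ => ?_⟩
  · have h := (Wex.KNA_.ind (8 * A * n) hJ ((8 * A * n : ℕ) : ℂ)).1
    unfold fk
    rw [e] at huc ⊢
    rw [Complex.ofReal_natCast]
    exact huc.measurable.mul h
  · have h := (Wex.KNA_.ind (8 * A * n) hJ ((8 * A * n : ℕ) : ℂ)).2 x hx
    unfold fk
    rw [e]
    rw [Complex.ofReal_natCast]
    simp only at h
    rw [h, mul_zero]
  · refine le_trans (eLpNorm_mono fun x => ?_) (Wex.KNA_.norm_two (8 * A * n) hJ)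
    unfold fk
    rw [norm_mul, Pool.Agent.Restr.norm_u, one_mul, e, Complex.ofReal_natCast]
  · obtain ⟨h1, h2, h3, h4⟩ := hξ
    have hv0 : 1 / 8 ≤ vk n k := by
      unfold vk
      have : (0 : ℝ) ≤ k / (8 * n) := by positivity
      linarith
    have ht0 : 0 ≤ tk A n k := by
      unfold tk
      positivity
    have ht1 : tk A n k ≤ JJ A n ^ 2 / 2 := by
      unfold tk
      apply div_le_div_of_nonneg_left (by positivity) (by norm_num) (by linarith)
    have k3 : 0 ≤ ξ.2.2 := by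
      refine le_trans ?_ h3
      positivity
    have k4 : ξ.2.2 ≤ JJ A n ^ 2 := by
      have h5 : JJ A n ^ 2 / (256 * n) ≤ JJ A n ^ 2 / 256 :=
        div_le_div_of_nonneg_left (by positivity) (by norm_num) (by linarith)
      have h6 : 0 ≤ JJ A n ^ 2 := by positivity
      linarith
    have hl := low (8 * A * n) hJ (JJ A n) (by linarith)
      (ξ.1, ξ.2.1 + JJ A n ^ 2 / 8, ξ.2.2) (by rw [← e]; exact h1) (by rw [← e]; exact h2) k3
      (by rw [← e]; exact k4)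
    rw [E_fk]
    rw [← e] at hl
    refine le_trans (le_of_eq ?_) hl
    have e1 : JJ A n = 8 * A * n := rfl
    rw [e1]
    field_simp
    norm_num

end TRS
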