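import Pool.Agent.TRS.Targets

/-!
# TRS, block LOW (helper9)
-/

set_option autoImplicit false

namespace TRS

open MeasureTheory Set Filter
open scoped ENNReal NNReal Topology
open Pool.Agent.Restr (u E E1 QQ)
open TriL (Sq n2 Mo)
open Wey (nq InD gdn)
open Wex (tent pyr ww)

namespace LOW_

open TriL.FAC_ (u_add)

theorem E1_ck (A n k : ℕ) (x t : ℝ) : E1 (ck A n k) (x, t) = E1 w1 (x, t - tk A n k) := by
  unfold E1 ck
  refine integral_congr_ae (Eventually.of_forall fun y => ?_)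
  simp only
  rw [← mul_assoc, ← u_add]
  congr 2
  ring

theorem E1_dil (N v x t : ℝ) (hN : 0 < N) : E1 (fun y => w1 (N * (y - v))) (x, t) =
    (N⁻¹ : ℝ) • (u (x * v + t * v ^ 2) * E1 w1 ((x + 2 * t * v) / N, t / N ^ 2)) := by
  unfold E1
  simp only
  set F : ℝ → ℂ := fun y => u (x * (v + y / N) + t * (v + y / N) ^ 2) * w1 y with hF
  have h1 : ∀ y, u (x * y + t * y ^ 2) * w1 (N * (y - v)) = F (N * (y - v)) := by
    intro y
    rw [hF]
    simp only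
    have : v + N * (y - v) / N = y := by
      field_simp
      ring
    rw [this]
  simp only [h1]
  rw [integral_sub_right_eq_self (fun y => F (N * y)) v, Measure.integral_comp_mul_left,
    abs_of_pos (inv_pos.2 hN)]
  congr 1
  rw [← integral_const_mul]
  refine integral_congr_ae (Eventually.of_forall fun y => ?_)
  simp only [hF]
  rw [← mul_assoc, ← u_add]
  congr 2
  field_simp
  ring

theorem norm_dil (N v x t : ℝ) (hN : 0 < N) : ‖E1 (fun y => w1 (N * (y - v))) (x, t)‖ =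
    N⁻¹ * ‖E1 w1 ((x + 2 * t * v) / N, t / N ^ 2)‖ := by
  rw [E1_dil N v x t hN, norm_smul, norm_mul, Pool.Agent.Restr.norm_u, one_mul,
    Real.norm_of_nonneg (inv_pos.2 hN).le]

/-- all inequalities between the numbers -/
theorem numbers {A n k : ℕ} {s₀ t x₁ x₂ : ℝ} (hA : 16 ≤ A) (hs : 8 * s₀ ≤ (A : ℝ) ^ 2)
    (hn : 1 ≤ n) (hk : k < n) (h1 : |x₁| ≤ JJ A n / 32)
    (h2 : |x₂ + JJ A n ^ 2 / 8| ≤ JJ A n / 32) (h3 : tk A n k + JJ A n ^ 2 / (512 * n) ≤ t)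
    (h4 : t ≤ tk A n k + JJ A n ^ 2 / (256 * n)) :
    s₀ ≤ t - tk A n k ∧ |x₁| ≤ (t - tk A n k) / 8 ∧ t - tk A n k ≤ (A : ℝ) ^ 2 * n / 4 ∧
    s₀ ≤ t / (8 * n) ^ 2 ∧ |(x₂ + 2 * t * vk n k) / (8 * n)| ≤ (t / (8 * n) ^ 2) / 8 ∧
    t / (8 * n) ^ 2 ≤ (A : ℝ) ^ 2 := by
  have hA' : (16 : ℝ) ≤ A := by exact_mod_cast hA
  have hn' : (1 : ℝ) ≤ n := by exact_mod_cast hn
  have hk' : (k : ℝ) + 1 ≤ n := by exact_mod_cast hk
  have hk0 : (0 : ℝ) ≤ k := Nat.cast_nonneg k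
  set a : ℝ := (A : ℝ) with ha
  set m : ℝ := (n : ℝ) with hm
  have hJ : JJ A n = 8 * a * m := rfl
  have hv1 : 1 / 8 ≤ vk n k := by
    unfold vk
    have : 0 ≤ (k : ℝ) / (8 * n) := by positivity
    linarith
  have hv2 : vk n k ≤ 1 / 4 := by
    unfold vk
    have : (k : ℝ) / (8 * n) ≤ 1 / 8 := by
      rw [div_le_div_iff₀ (by positivity) (by norm_num)]
      linarith
    linarith
  set v : ℝ := vk n k with hv
  have hv0 : 0 < v := by linarith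
  have e1 : JJ A n ^ 2 / (512 * m) = a ^ 2 * m / 8 := by
    rw [hJ]
    field_simp
    ring
  have e2 : JJ A n ^ 2 / (256 * m) = a ^ 2 * m / 4 := by
    rw [hJ]
    field_simp
    ring
  have e3 : tk A n k * v = 4 * a ^ 2 * m ^ 2 := by
    unfold tk
    rw [← hv, hJ]
    field_simp
    ring
  rw [e1] at h3
  rw [e2] at h4
  rw [hJ] at h1 h2
  have ht1 : 16 * a ^ 2 * m ^ 2 ≤ tk A n k := by
    have h0 : 0 ≤ tk A n k := by
      unfold tk
      positivity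
    nlinarith
  have ht2 : tk A n k ≤ 32 * a ^ 2 * m ^ 2 := by
    have h0 : 0 ≤ tk A n k := by
      unfold tk
      positivity
    nlinarith
  have ham : 16 * m ≤ a * m := by nlinarith
  have ha0 : 0 < a := by linarith
  have hm0 : 0 < m := by linarith
  have ha2 : 16 * (a * m) ≤ a ^ 2 * m := by nlinarith [mul_pos ha0 hm0]
  have ha3 : a ^ 2 ≤ a ^ 2 * m := by nlinarith [sq_nonneg a]
  have ha4 : a ^ 2 * m ≤ a ^ 2 * m ^ 2 := by nlinarith [mul_nonneg (sq_nonneg a) hm0.le]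
  refine ⟨by linarith, by linarith, by linarith, ?_, ?_, ?_⟩
  · rw [le_div_iff₀ (by positivity)]
    have : s₀ * (8 * m) ^ 2 = 8 * s₀ * (8 * m ^ 2) := by ring
    rw [this]
    calc 8 * s₀ * (8 * m ^ 2) ≤ a ^ 2 * (8 * m ^ 2) := by gcongr
      _ ≤ t := by nlinarith [mul_nonneg (sq_nonneg a) (sq_nonneg m)]
  · have e5 : t / (8 * m) ^ 2 / 8 = (t / (8 * m) / 8) / (8 * m) := by
      field_simp
    rw [abs_div, abs_of_pos (by positivity : 0 < 8 * m), e5]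
    gcongr
    have e4 : x₂ + 2 * t * v = (x₂ + (8 * a * m) ^ 2 / 8) + 2 * v * (t - tk A n k) := by
      linear_combination 2 * e3
    have h6 : |2 * v * (t - tk A n k)| ≤ a ^ 2 * m / 8 := by
      have h7 : 0 ≤ t - tk A n k := by
        have : 0 ≤ a ^ 2 * m / 8 := by positivity
        linarith
      rw [abs_of_nonneg (by positivity)]
      nlinarith
    have h8 : a ^ 2 * m / 4 ≤ t / (8 * m) / 8 := by
      rw [div_div, le_div_iff₀ (by positivity)]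
      nlinarith [mul_nonneg (sq_nonneg a) (sq_nonneg m)]
    calc |x₂ + 2 * t * v| ≤ |x₂ + (8 * a * m) ^ 2 / 8| + |2 * v * (t - tk A n k)| := by
          rw [e4]
          exact abs_add_le _ _
      _ ≤ 8 * a * m / 32 + a ^ 2 * m / 8 := add_le_add h2 h6
      _ ≤ a ^ 2 * m / 4 := by nlinarith
      _ ≤ _ := h8
  · rw [div_le_iff₀ (by positivity)]
    nlinarith

end LOW_

open LOW_ in
theorem p_LOW (hONE : T_ONE) : T_LOW := by
  obtain ⟨c₀, s₀, hc, hs, h⟩ := hONE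
  set A : ℕ := max 16 ⌈8 * s₀⌉₊ with hA
  have hA16 : 16 ≤ A := le_max_left _ _
  have hA1 : (1 : ℝ) ≤ A := by exact_mod_cast (by omega : 1 ≤ A)
  have hAs : 8 * s₀ ≤ (A : ℝ) ^ 2 := by
    have h1 : 8 * s₀ ≤ (A : ℝ) := (Nat.le_ceil _).trans (by exact_mod_cast le_max_right _ _)
    nlinarith
  refine ⟨A, hA16, c₀ ^ 2 / (4 * (A : ℝ) ^ 2), by positivity, fun n hn k hk ξ hξ => ?_⟩
  obtain ⟨h1, h2, h3, h4⟩ := hξ
  obtain ⟨g1, g2, g3, g4, g5, g6⟩ := numbers hA16 hAs hn hk h1 h2 h3 h4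
  have hn' : (1 : ℝ) ≤ n := by exact_mod_cast hn
  have hn0 : (0 : ℝ) < n := by linarith
  have hsn : 0 < √(n : ℝ) := Real.sqrt_pos.2 hn0
  have k1 := h ξ.1 (ξ.2.2 - tk A n k) g1 g2
  have k2 := h _ _ g4 g5
  have b1 : 2 * c₀ / (A * √(n : ℝ)) ≤ ‖E1 (ck A n k) (ξ.1, ξ.2.2)‖ := by
    rw [E1_ck]
    refine le_trans ?_ k1
    have e : √(ξ.2.2 - tk A n k) ≤ A * √(n : ℝ) / 2 := by
      rw [Real.sqrt_le_left (by positivity)]
      rw [div_pow, mul_pow, Real.sq_sqrt hn0.le]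
      linarith
    have hp : 0 < √(ξ.2.2 - tk A n k) := Real.sqrt_pos.2 (by linarith)
    rw [div_le_div_iff₀ (by positivity) hp]
    nlinarith
  have b2 : c₀ / (8 * n * A) ≤ ‖E1 (bk n k) (ξ.2.1, ξ.2.2)‖ := by
    have e : ‖E1 (bk n k) (ξ.2.1, ξ.2.2)‖ = (8 * (n : ℝ))⁻¹ *
        ‖E1 w1 ((ξ.2.1 + 2 * ξ.2.2 * vk n k) / (8 * n), ξ.2.2 / (8 * n) ^ 2)‖ :=
      norm_dil (8 * n) (vk n k) ξ.2.1 ξ.2.2 (by positivity)
    rw [e]
    have hp : 0 < √(ξ.2.2 / (8 * (n : ℝ)) ^ 2) := Real.sqrt_pos.2 (by linarith)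
    have e2 : √(ξ.2.2 / (8 * (n : ℝ)) ^ 2) ≤ A := by
      rw [Real.sqrt_le_left (by positivity)]
      exact g6
    calc c₀ / (8 * n * A) = (8 * (n : ℝ))⁻¹ * (c₀ / A) := by
          field_simp
      _ ≤ (8 * (n : ℝ))⁻¹ * (c₀ / √(ξ.2.2 / (8 * (n : ℝ)) ^ 2)) := by gcongr
      _ ≤ _ := by gcongr
  rw [norm_mul]
  have e3 : (n : ℝ) ^ (-(3 / 2) : ℝ) = (n * √(n : ℝ))⁻¹ := by
    rw [Real.rpow_neg hn0.le]
    congr 1
    rw [Real.sqrt_eq_rpow]
    nth_rw 2 [← Real.rpow_one (n : ℝ)]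
    rw [← Real.rpow_add hn0]
    norm_num
  calc c₀ ^ 2 / (4 * (A : ℝ) ^ 2) * (n : ℝ) ^ (-(3 / 2) : ℝ)
      = 2 * c₀ / (A * √(n : ℝ)) * (c₀ / (8 * n * A)) := by
        rw [e3]
        field_simp
        ring
    _ ≤ _ := by gcongr

end TRS
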