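import Pool.Agent.TRS.Targets

/-!
# MP_5ab805_an, TrilinearForm: NEC, the necessary condition
-/

set_option autoImplicit false

namespace TRS

open MeasureTheory Set Filter
open scoped ENNReal NNReal Topology
open Pool.Agent.Restr (u E E1 QQ)
open TriL (Sq n2 Mo)
open Wey (nq InD gdn)
open Wex (tent pyr ww)

namespace NEC_

theorem exponents {α β c K : ℝ} (hc : 0 < c)
    (h : ∀ n : ℕ, 1 ≤ n → c * (n : ℝ) ^ α ≤ K * (n : ℝ) ^ β) : α ≤ β := by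
  by_contra hcon
  push Not at hcon
  have h1 : Tendsto (fun n : ℕ => (n : ℝ) ^ (α - β)) atTop atTop :=
    (tendsto_rpow_atTop (by linarith)).comp tendsto_natCast_atTop_atTop
  obtain ⟨n, hn1, hn2⟩ := ((h1.eventually_gt_atTop (K / c)).and (eventually_ge_atTop 1)).exists
  have h2 := h n hn2
  have hn0 : (0 : ℝ) < n := by exact_mod_cast hn2
  rw [Real.rpow_sub hn0, lt_div_iff₀ (by positivity)] at hn1
  have h3 : K / c * (n : ℝ) ^ β * c < (n : ℝ) ^ α * c := mul_lt_mul_of_pos_right hn1 hc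
  have e : K / c * (n : ℝ) ^ β * c = K * (n : ℝ) ^ β := by field_simp
  linarith

theorem power {ρ : ℝ} (hρ : 1 ≤ ρ) {F : ℝ × ℝ × ℝ → ℂ} {X : ℝ≥0∞}
    (h : eLpNorm F (ENNReal.ofReal ρ) volume ≤ X) : ∫⁻ ξ, ‖F ξ‖ₑ ^ ρ ≤ X ^ ρ := by
  have hρ0 : 0 < ρ := by linarith
  have h0 : ENNReal.ofReal ρ ≠ 0 := by simpa using hρ0
  rw [eLpNorm_eq_lintegral_rpow_enorm_toReal h0 ENNReal.ofReal_ne_top,
    ENNReal.toReal_ofReal hρ0.le] at h
  have h1 := ENNReal.rpow_le_rpow h hρ0.le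
  rwa [← ENNReal.rpow_mul, one_div_mul_cancel hρ0.ne', ENNReal.rpow_one] at h1

end NEC_

open NEC_ in
/-- the necessary condition -/
theorem p_NEC (hCLS : T_CLS) (hKNF : T_KNF) (hSUM : T_SUM) : T_NEC := by
  intro ρ s hρ hs hyp
  have hρ0 : 0 < ρ := by linarith
  by_cases hs1 : 1 < s
  · have : 4 / ρ ≤ 4 := div_le_self (by norm_num) hρ
    linarith
  push Not at hs1
  obtain ⟨C, hC⟩ := hyp
  obtain ⟨A, hA, hS⟩ := hSUM
  obtain ⟨c, hc, hS⟩ := hS ρ hρ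
  obtain ⟨_, -, hK⟩ := hKNF A hA
  have key : 4 - 7 * ρ / 2 ≤ s * ρ := by
    refine exponents (K := ((C : ℝ) * 128) ^ ρ) hc fun n hn => ?_
    obtain ⟨m, hm⟩ := hS n hn
    obtain ⟨k1, k2, -⟩ := hK n hn
    obtain ⟨g1, g2, g3⟩ := hCLS A n m hn
    have hn1 : (1 : ℝ≥0) ≤ n := by exact_mod_cast hn
    have hM : 1 ≤ 128 * (n : ℝ≥0) ^ s := by
      have := NNReal.one_le_rpow hn1 hs
      calc (1 : ℝ≥0) ≤ 128 * 1 := by norm_num
        _ ≤ _ := by gcongr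
    have h1 : eLpNorm (fun ξ => E (fk A n) ξ * E (fk A n) ξ * E (gm A n m) ξ)
        (ENNReal.ofReal ρ) volume ≤ ((C * (128 * (n : ℝ≥0) ^ s) : ℝ≥0) : ℝ≥0∞) := by
      refine (hC _ _ _ _ k1 k1 g1 g2 hM (g3 s hs hs1)).trans ?_
      calc _ ≤ (C : ℝ≥0∞) * ((128 * (n : ℝ≥0) ^ s : ℝ≥0) : ℝ≥0∞) * 1 * 1 := by gcongr
        _ = _ := by rw [mul_one, mul_one, ← ENNReal.coe_mul]
    have h2 := hm.trans (power hρ h1)
    rw [← ENNReal.coe_rpow_of_nonneg _ hρ0.le] at h2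
    have h3 := (ENNReal.ofReal_le_iff_le_toReal ENNReal.coe_ne_top).mp h2
    rw [ENNReal.coe_toReal] at h3
    push_cast at h3
    refine h3.trans (le_of_eq ?_)
    rw [← mul_assoc, Real.mul_rpow (by positivity) (by positivity),
      ← Real.rpow_mul (Nat.cast_nonneg n)]
  have h4 : (4 - 7 * ρ / 2) / ρ ≤ s := by
    rw [div_le_iff₀ hρ0]
    exact key
  have h5 : (4 - 7 * ρ / 2) / ρ = 4 / ρ - 7 / 2 := by field_simp
  linarith

end TRS
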