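import Pool.Agent.TRS.Targets

/-!
# TRS, target `T_SUF`: bigger exponents give smaller classes
-/

set_option autoImplicit false

namespace TRS

open MeasureTheory Set Filter
open scoped ENNReal NNReal Topology
open Pool.Agent.Restr (u E E1 QQ)
open TriL (Sq n2 Mo)
open Wey (nq InD gdn)
open Wex (tent pyr ww)

namespace SUF_

theorem sq (x y : ℂ) : ‖x - y‖ₑ ^ 2 ≤ 2 * ‖x‖ₑ ^ 2 + 2 * ‖y‖ₑ ^ 2 := by
  have h1 : ‖x - y‖ ≤ ‖x‖ + ‖y‖ := norm_sub_le x y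
  have h2 : ‖x - y‖ ^ 2 ≤ 2 * ‖x‖ ^ 2 + 2 * ‖y‖ ^ 2 := by
    have h3 : ‖x - y‖ ^ 2 ≤ (‖x‖ + ‖y‖) ^ 2 := by gcongr
    nlinarith [sq_nonneg (‖x‖ - ‖y‖)]
  have h4 := ENNReal.ofReal_le_ofReal h2
  rw [ENNReal.ofReal_add (by positivity) (by positivity), ENNReal.ofReal_mul (by norm_num),
    ENNReal.ofReal_mul (by norm_num), ENNReal.ofReal_pow (norm_nonneg _),
    ENNReal.ofReal_pow (norm_nonneg _), ENNReal.ofReal_pow (norm_nonneg _),
    ofReal_norm, ofReal_norm, ofReal_norm, ENNReal.ofReal_ofNat] at h4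
  exact h4

theorem line_meas (e : ℝ × ℝ) (t : ℝ) : Measurable fun r : ℝ => line e t r := by
  unfold line
  fun_prop

theorem mass (e : ℝ × ℝ) (K : ℝ × ℝ → ℂ) (he : e.1 ^ 2 + e.2 ^ 2 = 1) (hK : InD K)
    (h1 : ∀ x, ‖K x‖ ≤ 1) (t : ℝ) : ∫⁻ r, ‖K (line e t r)‖ₑ ^ 2 ≤ 1 := by
  have h2 : ∀ r : ℝ, ‖K (line e t r)‖ₑ ^ 2 ≤
      (Icc (-(1 / 2) : ℝ) (1 / 2)).indicator (fun _ => (1 : ℝ≥0∞)) r := by
    intro r
    by_cases hr : r ∈ Icc (-(1 / 2) : ℝ) (1 / 2)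
    · rw [indicator_of_mem hr]
      have h3 : ‖K (line e t r)‖ₑ ≤ 1 := by
        rw [← ofReal_norm, ENNReal.ofReal_le_one]
        exact h1 _
      calc ‖K (line e t r)‖ₑ ^ 2 ≤ 1 ^ 2 := by gcongr
        _ = 1 := one_pow 2
    · rw [indicator_of_notMem hr]
      have h3 : K (line e t r) = 0 := by
        apply hK.2
        have h4 : (line e t r).1 ^ 2 + (line e t r).2 ^ 2 = t ^ 2 + r ^ 2 := by
          unfold line
          linear_combination (t ^ 2 + r ^ 2) * he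
        rw [h4]
        have h5 : 1 / 4 < r ^ 2 := by
          by_contra h6
          apply hr
          have h7 : |r| ≤ 1 / 2 := by
            apply abs_le_of_sq_le_sq _ (by norm_num)
            linarith
          exact ⟨(abs_le.1 h7).1, (abs_le.1 h7).2⟩
        nlinarith [sq_nonneg t]
      rw [h3]
      simp
  calc ∫⁻ r, ‖K (line e t r)‖ₑ ^ 2 ≤
      ∫⁻ r, (Icc (-(1 / 2) : ℝ) (1 / 2)).indicator (fun _ => (1 : ℝ≥0∞)) r :=
        lintegral_mono h2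
    _ = 1 := by
      rw [lintegral_indicator measurableSet_Icc, setLIntegral_one, Real.volume_Icc]
      norm_num

end SUF_

open SUF_ in
theorem p_SUF : T_SUF := by
  intro s M e K hs hM he hK h1 ht
  filter_upwards [ht] with t h2 h
  rcases le_or_gt |h| 1 with hh | hh
  · refine (h2 h).trans ?_
    have h3 : (M : ℝ≥0∞) ≤ ((2 * M : ℝ≥0) : ℝ≥0∞) := by
      rw [ENNReal.coe_le_coe]
      calc M = 1 * M := (one_mul M).symm
        _ ≤ 2 * M := by gcongr; norm_num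
    have h4 : |h| ^ (2 * s) ≤ |h| ^ (2 * (1 / 2 : ℝ)) :=
      Real.rpow_le_rpow_of_exponent_ge' (abs_nonneg h) hh (by norm_num) (by linarith)
    gcongr
  · have hm : Measurable fun r : ℝ => ‖K (line e t r)‖ₑ ^ 2 :=
      ((hK.1.comp (line_meas e t)).enorm).pow_const 2
    have h3 : ∫⁻ r, ‖K (line e t (r + h)) - K (line e t r)‖ₑ ^ 2 ≤ 4 := by
      calc ∫⁻ r, ‖K (line e t (r + h)) - K (line e t r)‖ₑ ^ 2 ≤
          ∫⁻ r, (2 * ‖K (line e t (r + h))‖ₑ ^ 2 + 2 * ‖K (line e t r)‖ₑ ^ 2) :=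
            lintegral_mono fun r => sq _ _
        _ = 2 * (∫⁻ r, ‖K (line e t (r + h))‖ₑ ^ 2) + 2 * ∫⁻ r, ‖K (line e t r)‖ₑ ^ 2 := by
            rw [lintegral_add_right _ (hm.const_mul 2), lintegral_const_mul _ hm,
              lintegral_const_mul' _ _ (by norm_num)]
        _ = 2 * (∫⁻ r, ‖K (line e t r)‖ₑ ^ 2) + 2 * ∫⁻ r, ‖K (line e t r)‖ₑ ^ 2 := by
            rw [lintegral_add_right_eq_self (fun r => ‖K (line e t r)‖ₑ ^ 2) h]
        _ ≤ 2 * 1 + 2 * 1 := by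
            have := mass e K he hK h1 t
            gcongr
        _ = 4 := by norm_num
    refine h3.trans ?_
    have h4 : (2 * (1 / 2) : ℝ) = 1 := by norm_num
    rw [h4, Real.rpow_one]
    have h5 : (4 : ℝ≥0∞) = 2 ^ 2 * 1 := by norm_num
    rw [h5]
    have h6 : (2 : ℝ≥0∞) ≤ ((2 * M : ℝ≥0) : ℝ≥0∞) := by
      have h7 : (2 : ℝ≥0) ≤ 2 * M := by
        calc (2 : ℝ≥0) = 2 * 1 := (mul_one 2).symm
          _ ≤ 2 * M := by gcongr
      exact_mod_cast h7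
    have h8 : (1 : ℝ≥0∞) ≤ ENNReal.ofReal |h| := by
      rw [ENNReal.one_le_ofReal]
      exact hh.le
    gcongr

end TRS
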