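import Pool.Agent.TRS.Targets

/-!
# MP_5ab805_an, TrilinearForm: target SUM (lower bound for the trilinear form)
-/

set_option autoImplicit false

namespace TRS

open MeasureTheory Set Filter
open scoped ENNReal NNReal Topology
open Pool.Agent.Restr (u E E1 QQ)
open TriL (Sq n2 Mo)
open Wey (nq InD gdn)
open Wex (tent pyr ww)

namespace SUM_

theorem w1_continuous : Continuous w1 := by
  unfold w1 Wex.tent
  apply Complex.continuous_ofReal.comp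
  fun_prop

theorem gm_measurable (A n m : ℕ) : Measurable (gm A n m) := by
  apply Continuous.measurable
  unfold gm
  refine continuous_finsetSum _ fun k _ => continuous_const.mul (Continuous.mul ?_ ?_)
  · unfold ck
    refine Continuous.mul ?_ (w1_continuous.comp continuous_fst)
    exact Pool.Agent.Restr.continuous_u.comp (by fun_prop)
  · unfold bk
    exact w1_continuous.comp (by fun_prop)

/-- the pointwise bound on the set `PP A n k` -/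
theorem pointwise {a b z : ℝ} {x y : ℂ} {n : ℕ} {ρ : ℝ} {S : ℕ → ℂ} (hρ : 1 ≤ ρ)
    (ha : 0 ≤ a) (hb : 0 ≤ b) (hx : a ≤ ‖x‖) (hy : b ≤ ‖y‖) (hz : z = a * a * b)
    (hS : n * ‖y‖ₑ ^ ρ ≤ ∑ m ∈ Finset.range n, ‖S m‖ₑ ^ ρ) :
    ENNReal.ofReal (n * z ^ ρ) ≤ ∑ m ∈ Finset.range n, ‖x * x * S m‖ₑ ^ ρ := by
  have h0 : 0 ≤ ρ := by linarith
  have h1 : ∀ m, ‖x * x * S m‖ₑ ^ ρ = ‖x * x‖ₑ ^ ρ * ‖S m‖ₑ ^ ρ := fun m => by
    rw [enorm_mul, ENNReal.mul_rpow_of_nonneg _ _ h0]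
  simp only [h1]
  rw [← Finset.mul_sum]
  refine le_trans ?_ (mul_le_mul_right hS _)
  have h2 : ENNReal.ofReal (n * z ^ ρ) = n * ENNReal.ofReal z ^ ρ := by
    rw [ENNReal.ofReal_mul (Nat.cast_nonneg n), ENNReal.ofReal_natCast,
      ENNReal.ofReal_rpow_of_nonneg (by rw [hz]; positivity) h0]
  rw [h2, mul_left_comm]
  refine mul_le_mul_right ?_ _
  rw [← ENNReal.mul_rpow_of_nonneg _ _ h0, ← enorm_mul]
  refine ENNReal.rpow_le_rpow ?_ h0
  rw [← ofReal_norm]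
  apply ENNReal.ofReal_le_ofReal
  rw [hz, norm_mul, norm_mul]
  have h3 : a * a ≤ ‖x‖ * ‖x‖ := mul_le_mul hx hx ha (norm_nonneg _)
  exact mul_le_mul h3 hy hb (by positivity)

end SUM_

open SUM_ in
theorem p_SUM (hLOW : T_LOW) (hGMF : T_GMF) (hKNF : T_KNF) (hAVG : T_AVG) (hVOL : T_VOL) :
    T_SUM := by
  obtain ⟨A, hA, c₁, hc₁, hlow⟩ := hLOW
  obtain ⟨c₂, hc₂, hk⟩ := hKNF A (by omega)
  refine ⟨A, by omega, fun ρ hρ => ⟨(A : ℝ) ^ 4 / 32 * (c₂ ^ 2 * c₁) ^ ρ, ?_, fun n hn => ?_⟩⟩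
  · have : (0 : ℝ) < A := by exact_mod_cast (by omega : 0 < A)
    positivity
  obtain ⟨hm, hv, hd⟩ := hVOL A n (by omega) hn
  have hn0 : (0 : ℝ) < n := by exact_mod_cast (by omega : 0 < n)
  have hf : Measurable (fk A n) := (hk n hn).1.1
  obtain ⟨F, hF⟩ : ∃ F : ℕ → ℝ × ℝ × ℝ → ℝ≥0∞,
    F = fun m ξ => ‖E (fk A n) ξ * E (fk A n) ξ * E (gm A n m) ξ‖ₑ ^ ρ := ⟨_, rfl⟩
  have hFm : ∀ m, Measurable (F m) := by
    intro m
    rw [hF]
    have h1 := Pool.Agent.Restr.measurable_E hf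
    have h2 := Pool.Agent.Restr.measurable_E (gm_measurable A n m)
    exact ((h1.mul h1).mul h2).enorm.pow_const ρ
  obtain ⟨Z, hZ⟩ : ∃ Z : ℝ, Z = c₂ / n * (c₂ / n) * (c₁ * (n : ℝ) ^ (-(3 / 2) : ℝ)) := ⟨_, rfl⟩
  -- the pointwise bound
  have hpt : ∀ k < n, ∀ ξ ∈ PP A n k,
      ENNReal.ofReal (n * Z ^ ρ) ≤ ∑ m ∈ Finset.range n, F m ξ := by
    intro k hkn ξ hξ
    rw [hF]
    have hS := hAVG n (fun j => E1 (ck A n j) (ξ.1, ξ.2.2) * E1 (bk n j) (ξ.2.1, ξ.2.2)) ρ hn hρ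
      k hkn
    have hS' : (n : ℝ≥0∞) * ‖E1 (ck A n k) (ξ.1, ξ.2.2) * E1 (bk n k) (ξ.2.1, ξ.2.2)‖ₑ ^ ρ ≤
        ∑ m ∈ Finset.range n, ‖E (gm A n m) ξ‖ₑ ^ ρ := by
      refine hS.trans (le_of_eq (Finset.sum_congr rfl fun m _ => ?_))
      rw [hGMF A n m hn ξ]
    exact pointwise hρ (by positivity) (by positivity) ((hk n hn).2.2 k hkn ξ hξ)
      (hlow n hn k hkn ξ hξ) hZ hS'
  -- the sum of the integrals
  have hsum : ENNReal.ofReal (n * ((A : ℝ) ^ 4 / 32 * (c₂ ^ 2 * c₁) ^ ρ *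
      (n : ℝ) ^ (4 - 7 * ρ / 2))) ≤ ∑ m ∈ Finset.range n, ∫⁻ ξ, F m ξ := by
    rw [← lintegral_finsetSum _ fun m _ => hFm m]
    refine le_trans ?_ (setLIntegral_le_lintegral (⋃ k ∈ Finset.range n, PP A n k) _)
    rw [lintegral_biUnion_finset (fun j hj k hk' hjk => hd j (Finset.mem_range.1 hj) k
      (Finset.mem_range.1 hk') hjk) (fun k _ => hm k)]
    have h1 : ∀ k ∈ Finset.range n, ENNReal.ofReal (n * Z ^ ρ) *
        ENNReal.ofReal ((A : ℝ) ^ 4 * n ^ 3 / 32) ≤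
        ∫⁻ ξ in PP A n k, ∑ m ∈ Finset.range n, F m ξ := by
      intro k hk'
      rw [← hv k (Finset.mem_range.1 hk'), ← setLIntegral_const]
      exact setLIntegral_mono' (hm k) (hpt k (Finset.mem_range.1 hk'))
    refine le_trans ?_ (Finset.sum_le_sum h1)
    rw [Finset.sum_const, Finset.card_range, nsmul_eq_mul, ← ENNReal.ofReal_mul (by
      rw [hZ]; positivity), ← ENNReal.ofReal_natCast, ← ENNReal.ofReal_mul (Nat.cast_nonneg n)]
    apply ENNReal.ofReal_le_ofReal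
    have h2 : Z ^ ρ = (c₂ ^ 2 * c₁) ^ ρ * (n : ℝ) ^ (-(7 * ρ / 2)) := by
      have h3 : Z = c₂ ^ 2 * c₁ * (n : ℝ) ^ (-(7 / 2) : ℝ) := by
        have h4 : (n : ℝ) ^ (-(7 / 2) : ℝ) = (n : ℝ) ^ (-(3 / 2) : ℝ) * ((n : ℝ) ^ 2)⁻¹ := by
          rw [← Real.rpow_natCast, ← Real.rpow_neg hn0.le, ← Real.rpow_add hn0]
          norm_num
        rw [hZ, h4]
        field_simp
      rw [h3, Real.mul_rpow (by positivity) (by positivity), ← Real.rpow_mul hn0.le]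
      congr 2
      ring
    have h5 : (n : ℝ) ^ (4 - 7 * ρ / 2) = (n : ℝ) ^ 4 * (n : ℝ) ^ (-(7 * ρ / 2)) := by
      rw [sub_eq_add_neg, Real.rpow_add hn0]
      congr 1
      exact_mod_cast Real.rpow_natCast (n : ℝ) 4
    rw [h2, h5]
    apply le_of_eq
    ring
  by_contra hcon
  push Not at hcon
  have h6 := ENNReal.sum_lt_sum_of_nonempty (s := Finset.range n)
    (Finset.nonempty_range_iff.2 (by omega)) (fun m _ => hcon m)
  rw [Finset.sum_const, Finset.card_range, nsmul_eq_mul, ← ENNReal.ofReal_natCast,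
    ← ENNReal.ofReal_mul (Nat.cast_nonneg n)] at h6
  rw [hF] at hsum
  exact absurd hsum (not_le.2 h6)

end TRS
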