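import Pool.Agent.TRS.Targets

/-!
# TRS, target VOL: the sets `PP`
-/

set_option autoImplicit false

namespace TRS

open MeasureTheory Set Filter
open scoped ENNReal NNReal Topology
open Pool.Agent.Restr (u E E1 QQ)
open TriL (Sq n2 Mo)
open Wey (nq InD gdn)
open Wex (tent pyr ww)

namespace VOL_

/-- the box as a product of intervals -/
theorem box (A n k : ℕ) : PP A n k = Icc (-(JJ A n / 32)) (JJ A n / 32) ×ˢ
    (Icc (-(JJ A n / 32) - JJ A n ^ 2 / 8) (JJ A n / 32 - JJ A n ^ 2 / 8) ×ˢ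
      Icc (tk A n k + JJ A n ^ 2 / (512 * n)) (tk A n k + JJ A n ^ 2 / (256 * n))) := by
  ext ξ
  simp only [PP, mem_ofPred_eq, mem_prod, mem_Icc, abs_le]
  constructor
  · rintro ⟨⟨h1, h2⟩, ⟨h3, h4⟩, h5, h6⟩
    exact ⟨⟨h1, h2⟩, ⟨by linarith, by linarith⟩, h5, h6⟩
  · rintro ⟨⟨h1, h2⟩, ⟨h3, h4⟩, h5, h6⟩
    exact ⟨⟨h1, h2⟩, ⟨by linarith, by linarith⟩, h5, h6⟩

theorem JJ_pos {A n : ℕ} (hA : 1 ≤ A) (hn : 1 ≤ n) : 0 < JJ A n := by
  have h1 : (0 : ℝ) < A := by exact_mod_cast hA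
  have h2 : (0 : ℝ) < n := by exact_mod_cast hn
  unfold JJ
  positivity

theorem vol {A n : ℕ} (hA : 1 ≤ A) (hn : 1 ≤ n) (k : ℕ) :
    volume (PP A n k) = ENNReal.ofReal ((A : ℝ) ^ 4 * n ^ 3 / 32) := by
  have hJ := JJ_pos hA hn
  have h2 : (0 : ℝ) < n := by exact_mod_cast hn
  rw [box, Measure.volume_eq_prod, Measure.prod_prod, Measure.volume_eq_prod, Measure.prod_prod,
    Real.volume_Icc, Real.volume_Icc, Real.volume_Icc, ← ENNReal.ofReal_mul, ← ENNReal.ofReal_mul]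
  · congr 1
    unfold JJ
    field_simp
    ring
  · linarith
  · linarith

/-- the times of different strips are far apart -/
theorem far {A n : ℕ} (hn : 1 ≤ n) {j k : ℕ} (hjk : j < k) (hk : k < n) :
    JJ A n ^ 2 / (8 * n) ≤ tk A n j - tk A n k := by
  have h2 : (0 : ℝ) < n := by exact_mod_cast hn
  have h3 : (j : ℝ) + 1 ≤ k := by exact_mod_cast hjk
  have h4 : (k : ℝ) + 1 ≤ n := by exact_mod_cast hk
  have hj0 : (0 : ℝ) ≤ j := Nat.cast_nonneg j
  have vj : 0 < vk n j := by unfold vk; positivity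
  have vk0 : 0 < vk n k := by unfold vk; positivity
  have e1 : vk n j = (n + j) / (8 * n) := by
    unfold vk
    field_simp
  have e2 : vk n k = (n + k) / (8 * n) := by
    unfold vk
    field_simp
  have vj4 : vk n j ≤ 1 / 4 := by
    rw [e1, div_le_div_iff₀ (by positivity) (by norm_num)]
    linarith
  have vk4 : vk n k ≤ 1 / 4 := by
    rw [e2, div_le_div_iff₀ (by positivity) (by norm_num)]
    linarith
  have hd : 1 / (8 * (n : ℝ)) ≤ vk n k - vk n j := by
    rw [e1, e2, ← sub_div, div_le_div_iff_of_pos_right (by positivity)]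
    linarith
  have hprod : vk n j * vk n k ≤ 1 / 16 := by nlinarith
  have e3 : tk A n j - tk A n k = JJ A n ^ 2 / 16 * ((vk n k - vk n j) / (vk n j * vk n k)) := by
    unfold tk
    field_simp
  rw [e3]
  have h5 : 2 / (n : ℝ) ≤ (vk n k - vk n j) / (vk n j * vk n k) := by
    calc 2 / (n : ℝ) = (1 / (8 * (n : ℝ))) / (1 / 16) := by
          field_simp
          norm_num
      _ ≤ (vk n k - vk n j) / (vk n j * vk n k) :=
          div_le_div₀ (by linarith [hd, (by positivity : (0 : ℝ) ≤ 1 / (8 * (n : ℝ)))]) hd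
            (mul_pos vj vk0) hprod
  calc JJ A n ^ 2 / (8 * n) = JJ A n ^ 2 / 16 * (2 / n) := by
        field_simp
        ring
    _ ≤ _ := mul_le_mul_of_nonneg_left h5 (by positivity)

theorem disj {A n : ℕ} (hA : 1 ≤ A) (hn : 1 ≤ n) {j k : ℕ} (hjk : j < k) (hk : k < n) :
    Disjoint (PP A n j) (PP A n k) := by
  rw [Set.disjoint_left]
  rintro ξ ⟨-, -, h1, -⟩ ⟨-, -, -, h2⟩
  have h3 := far (A := A) hn hjk hk
  have hJ := JJ_pos hA hn
  have h4 : (0 : ℝ) < n := by exact_mod_cast hn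
  have h5 : 0 < JJ A n ^ 2 / n := by positivity
  have e1 : JJ A n ^ 2 / (8 * n) = 1 / 8 * (JJ A n ^ 2 / n) := by field_simp
  have e2 : JJ A n ^ 2 / (256 * n) = 1 / 256 * (JJ A n ^ 2 / n) := by field_simp
  have e3 : JJ A n ^ 2 / (512 * n) = 1 / 512 * (JJ A n ^ 2 / n) := by field_simp
  rw [e1] at h3
  rw [e3] at h1
  rw [e2] at h2
  linarith

end VOL_

/-- VOL: the sets `PP` -/
theorem p_VOL : T_VOL := by
  intro A n hA hn
  refine ⟨fun k => ?_, fun k _ => VOL_.vol hA hn k, fun j hj k hk hjk => ?_⟩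
  · rw [VOL_.box]
    exact measurableSet_Icc.prod (measurableSet_Icc.prod measurableSet_Icc)
  · rcases lt_or_gt_of_ne hjk with h | h
    · exact VOL_.disj hA hn h hk
    · exact (VOL_.disj hA hn h hj).symm

end TRS
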