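import Pool.Agent.TRS.FIN
import Pool.Agent.TRS.ONE
import Pool.Agent.TRS.LOW
import Pool.Agent.TRS.GMF
import Pool.Agent.TRS.KNF
import Pool.Agent.TRS.CLS
import Pool.Agent.TRS.AVG
import Pool.Agent.TRS.VOL
import Pool.Agent.TRS.SUM
import Pool.Agent.TRS.NEC
import Pool.Agent.TRS.SUF

/-!
# Project TRS: assembly
-/

set_option autoImplicit false

namespace TRS

theorem suf {q s : ℝ} (hq : 3 < q) (hq4 : q < 4) (hs : 3 * (4 - q) / (2 * q) < s) : Tri q s :=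
  tri_suf p_SUF hq hq4 hs

theorem p_nec : T_NEC :=
  p_NEC p_CLS p_KNF (p_SUM (p_LOW p_ONE) p_GMF p_KNF p_AVG p_VOL)

theorem nec {q s : ℝ} (hq : 3 < q) (hs : 0 ≤ s) (h : Tri q s) : (24 - 7 * q) / (2 * q) ≤ s :=
  tri_nec p_nec hq hs h

theorem iff {s : ℝ} (hs : 0 ≤ s) : (∀ q, 3 < q → q < 4 → Tri q s) ↔ 1 / 2 ≤ s :=
  tri_iff p_nec p_SUF hs

end TRS
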