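import Mathlib

/-!
The algebraic closure of `ℚ`, square roots, rational points near simple zeros, and weak
approximation in a number field with real embeddings.
-/

open Set Filter Topology

namespace Pool.Agent.TRS

/-- The algebraic closure of `ℚ`. -/
abbrev Qbar := AlgebraicClosure ℚ

lemma exists_sqrt {F : IntermediateField ℚ Qbar} (hF : ∀ z : Qbar, z ^ 2 ∈ F → z ∈ F)
    {d : Qbar} (hd : d ∈ F) : ∃ s ∈ F, s ^ 2 = d := by
  obtain ⟨s, hs⟩ := IsAlgClosed.exists_pow_nat_eq d (n := 2) (by norm_num)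
  exact ⟨s, hF s (by rw [hs]; exact hd), hs⟩

lemma sqrt_conj {φ : Qbar →+* ℂ} {s d : Qbar} {r : ℝ} (hs : s ^ 2 = d) (hφ : φ d = (r:ℂ))
    (hr : 0 ≤ r) : ∃ q : ℝ, φ s = q ∧ q ^ 2 = r := by
  have h1 : (φ s) ^ 2 = ((Real.sqrt r : ℝ) : ℂ) ^ 2 := by
    rw [← map_pow, hs, hφ, ← Complex.ofReal_pow, Real.sq_sqrt hr]
  rcases sq_eq_sq_iff_eq_or_eq_neg.mp h1 with h | h
  · exact ⟨Real.sqrt r, h, Real.sq_sqrt hr⟩
  · exact ⟨-Real.sqrt r, by rw [h]; simp, by rw [neg_sq, Real.sq_sqrt hr]⟩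

lemma ofNat_mem {F : IntermediateField ℚ Qbar} (n : ℕ) : (n : Qbar) ∈ F := by
  simpa only [map_natCast] using F.algebraMap_mem (n : ℚ)

/-- Near a simple zero there is an open set of arguments with small positive values. -/
lemma exists_open_pos {f : ℝ → ℝ} {f' e : ℝ} (hc : Continuous f) (h0 : f e = 0)
    (hd : HasDerivAt f f' e) (hne : f' ≠ 0) {δ : ℝ} (hδ : 0 < δ) :
    IsOpen {t : ℝ | |t - e| < δ ∧ 0 < f t ∧ f t < δ} ∧
      {t : ℝ | |t - e| < δ ∧ 0 < f t ∧ f t < δ}.Nonempty := by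
  set U : Set ℝ := {t | |t - e| < δ ∧ 0 < f t ∧ f t < δ} with hUdef
  refine ⟨?_, ?_⟩
  · apply IsOpen.and
    · exact isOpen_lt (by fun_prop) continuous_const
    · exact (isOpen_lt continuous_const hc).and (isOpen_lt hc continuous_const)
  · by_contra hemp
    rw [not_nonempty_iff_eq_empty] at hemp
    have hmax : IsLocalMax f e := by
      have h1 : ∀ᶠ t in 𝓝 e, |t - e| < δ := by
        have := Metric.ball_mem_nhds e hδ
        filter_upwards [this] with t ht
        simpa [Real.dist_eq] using ht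
      have h2 : ∀ᶠ t in 𝓝 e, f t < δ :=
        hc.continuousAt.eventually_lt continuousAt_const (by rw [h0]; exact hδ)
      filter_upwards [h1, h2] with t ht1 ht2
      rw [h0]
      by_contra hcon
      push Not at hcon
      have : t ∈ U := ⟨ht1, hcon, ht2⟩
      rw [hemp] at this
      exact this
    exact hne (hmax.hasDerivAt_eq_zero hd)

lemma exists_pos_le {T : Type*} [Finite T] {η : T → ℝ} (h : ∀ τ, 0 < η τ) :
    ∃ η₀ > 0, ∀ τ, η₀ ≤ η τ := by
  have hev : ∀ᶠ x in 𝓝[>] (0:ℝ), ∀ τ, x ≤ η τ := by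
    rw [Filter.eventually_all]
    intro τ
    filter_upwards [nhdsWithin_le_nhds (Iio_mem_nhds (h τ))] with x hx
    exact le_of_lt hx
  obtain ⟨x, hx, hx0⟩ := (hev.and self_mem_nhdsWithin).exists
  exact ⟨x, hx0, hx⟩

/-- Weak approximation at the real embeddings of a number field. -/
lemma exists_mem_open {L : Type*} [Field L] [NumberField L] (U : (L →+* ℝ) → Set ℝ)
    (hU : ∀ τ, IsOpen (U τ)) (hne : ∀ τ, (U τ).Nonempty) : ∃ t : L, ∀ τ, τ t ∈ U τ := by
  classical
  set pb := Field.powerBasisOfFiniteOfSeparable ℚ L with hpb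
  have hinj : ∀ τ τ' : L →+* ℝ, τ pb.gen = τ' pb.gen → τ = τ' := by
    intro τ τ' h
    have h1 : τ.toRatAlgHom = τ'.toRatAlgHom := pb.algHom_ext h
    ext x
    exact DFunLike.congr_fun h1 x
  set N := Fintype.card (L →+* ℝ) with hN
  -- the evaluation map
  set E : (Fin N → ℝ) → ((L →+* ℝ) → ℝ) := fun q τ => ∑ i : Fin N, q i * (τ pb.gen) ^ (i : ℕ)
    with hE
  have hEc : Continuous E := by
    rw [hE]
    fun_prop
  have hEs : Function.Surjective E := by
    intro c
    set P := Lagrange.interpolate (Finset.univ : Finset (L →+* ℝ)) (fun τ => τ pb.gen) c with hP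
    have hinj' : Set.InjOn (fun τ : L →+* ℝ => τ pb.gen)
        ((Finset.univ : Finset (L →+* ℝ)) : Set (L →+* ℝ)) :=
      fun τ _ τ' _ h => hinj τ τ' h
    have hdeg : P.degree < (N : ℕ) := by
      have := Lagrange.degree_interpolate_lt (r := c) hinj'
      rwa [Finset.card_univ] at this
    refine ⟨fun i => P.coeff i, ?_⟩
    funext τ
    have h1 := Lagrange.eval_interpolate_at_node (r := c) hinj' (Finset.mem_univ τ)
    rw [← hP] at h1
    rw [← h1]
    show ∑ i : Fin N, P.coeff i * (τ pb.gen) ^ (i : ℕ) = P.eval (τ pb.gen)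
    rw [Finset.sum_fin_eq_sum_range]
    have hdeg' : P.natDegree < N ∨ P = 0 := by
      by_cases h0 : P = 0
      · exact Or.inr h0
      · left
        rwa [Polynomial.degree_eq_natDegree h0, Nat.cast_lt] at hdeg
    rcases hdeg' with h | h
    · rw [Polynomial.eval_eq_sum_range' h]
      apply Finset.sum_congr rfl
      intro i hi
      rw [dif_pos (Finset.mem_range.mp hi)]
    · rw [h]
      simp
  have hdense : DenseRange (fun q : Fin N → ℚ => E (fun i => (q i : ℝ))) := by
    have h1 : DenseRange (fun q : Fin N → ℚ => (fun i => (q i : ℝ))) :=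
      DenseRange.piMap (fun _ => Rat.denseRange_cast)
    exact hEs.denseRange.comp h1 hEc
  have hopen : IsOpen (Set.pi Set.univ U) := isOpen_set_pi Set.finite_univ (fun τ _ => hU τ)
  have hne' : (Set.pi Set.univ U).Nonempty := Set.univ_pi_nonempty_iff.mpr hne
  obtain ⟨q, hq⟩ := hdense.exists_mem_open hopen hne'
  refine ⟨∑ i : Fin N, (q i : L) * pb.gen ^ (i : ℕ), ?_⟩
  intro τ
  have h := hq τ (Set.mem_univ τ)
  have hval : τ (∑ i : Fin N, (q i : L) * pb.gen ^ (i : ℕ)) =
      ∑ i : Fin N, (q i : ℝ) * (τ pb.gen) ^ (i : ℕ) := by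
    rw [map_sum]
    apply Finset.sum_congr rfl
    intro i _
    rw [map_mul, map_pow, map_ratCast]
  rw [hval]
  exact h

end Pool.Agent.TRS
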