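import Pool.Agent.TRS.Lattes

/-!
Density of the backward orbit of the largest root under the doubling map, at every large level.
-/

open Set MeasureTheory
open scoped ENNReal

namespace Pool.Agent.TRS

/-- The total mass of the invariant differential on the half line is finite. -/
lemma lintegral_wt_lt_top {a b e : ℝ} (he : cub a b e = 0) (hpos : ∀ x, e < x → 0 < cub a b x)
    (hd : 3 * e ^ 2 + a ≠ 0) : ∫⁻ x in Ioi e, wt a b x < ⊤ := by
  obtain ⟨c, hc, hlow⟩ := exists_lower he hpos hd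
  have hsc : 0 < Real.sqrt c := Real.sqrt_pos.mpr hc
  -- translate to the half line from 0
  have hsplit : (Ioi e : Set ℝ) = Ioc e (e + 1) ∪ Ioi (e + 1) := by
    rw [Ioc_union_Ioi_eq_Ioi (by linarith)]
  rw [hsplit]
  refine lt_of_le_of_lt (lintegral_union_le _ _ _) ?_
  rw [ENNReal.add_lt_top]
  constructor
  · -- near the root
    have hint : IntegrableOn (fun x : ℝ => (1 / Real.sqrt c) * (x - e) ^ (-(1/2) : ℝ))
        (Ioc e (e + 1)) := by
      have h1 : IntervalIntegrable (fun x : ℝ => x ^ (-(1/2) : ℝ)) volume 0 1 :=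
        intervalIntegral.intervalIntegrable_rpow' (by norm_num)
      have h2 : IntervalIntegrable (fun x : ℝ => (x - e) ^ (-(1/2) : ℝ)) volume (0 + e) (1 + e) :=
        h1.comp_sub_right e
      rw [intervalIntegrable_iff_integrableOn_Ioc_of_le (by linarith)] at h2
      rw [show (0:ℝ) + e = e by ring, show (1:ℝ) + e = e + 1 by ring] at h2
      exact h2.const_mul _
    refine lt_of_le_of_lt (lintegral_mono_ae ?_) (hint.lintegral_lt_top)
    filter_upwards [ae_restrict_mem measurableSet_Ioc] with x hx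
    unfold wt
    apply ENNReal.ofReal_le_ofReal
    have hxe : 0 < x - e := by linarith [hx.1]
    have h1 := (hlow x hx.1).1
    have h2 : Real.sqrt c * Real.sqrt (x - e) ≤ Real.sqrt (cub a b x) := by
      rw [← Real.sqrt_mul hc.le]
      exact Real.sqrt_le_sqrt h1
    have h3 : (x - e) ^ (-(1/2) : ℝ) = 1 / Real.sqrt (x - e) := by
      rw [Real.rpow_neg hxe.le, Real.sqrt_eq_rpow]
      simp
    have hse : 0 < Real.sqrt (x - e) := Real.sqrt_pos.mpr hxe
    rw [h3, one_div_mul_one_div]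
    exact one_div_le_one_div_of_le (by positivity) h2
  · -- near infinity
    have hint : IntegrableOn (fun x : ℝ => (1 / Real.sqrt c) * (x + (-e)) ^ (-(3/2) : ℝ))
        (Ioi (e + 1)) :=
      (integrableOn_add_rpow_Ioi_of_lt (by norm_num) (by linarith)).const_mul _
    refine lt_of_le_of_lt (lintegral_mono_ae ?_) (hint.lintegral_lt_top)
    filter_upwards [ae_restrict_mem measurableSet_Ioi] with x hx
    unfold wt
    apply ENNReal.ofReal_le_ofReal
    have hx' : e + 1 < x := hx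
    have hxe : 0 < x - e := by linarith
    have h1 := (hlow x (by linarith)).2
    have h3 : (x + (-e)) ^ (-(3/2) : ℝ) = 1 / Real.sqrt ((x - e) ^ 3) := by
      rw [← sub_eq_add_neg, Real.rpow_neg hxe.le, Real.sqrt_eq_rpow, ← Real.rpow_natCast,
        ← Real.rpow_mul hxe.le]
      norm_num
    have h2 : Real.sqrt c * Real.sqrt ((x - e) ^ 3) ≤ Real.sqrt (cub a b x) := by
      rw [← Real.sqrt_mul hc.le]
      exact Real.sqrt_le_sqrt h1
    have hse : 0 < Real.sqrt ((x - e) ^ 3) := Real.sqrt_pos.mpr (by positivity)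
    rw [h3, one_div_mul_one_div]
    exact one_div_le_one_div_of_le (by positivity) h2

lemma finite_quad (a e : ℝ) : {x : ℝ | x ^ 2 - 2 * e * x - 2 * e ^ 2 - a = 0}.Finite := by
  set p : Polynomial ℝ := Polynomial.X ^ 2 - Polynomial.C (2 * e) * Polynomial.X -
    Polynomial.C (2 * e ^ 2 + a) with hp
  have hp0 : p ≠ 0 := by
    intro h0
    have e0 := congrArg (Polynomial.eval 0) h0
    have e1 := congrArg (Polynomial.eval 1) h0
    have e2 := congrArg (Polynomial.eval (-1)) h0
    simp [hp] at e0 e1 e2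
    linarith
  apply (p.rootSet_finite ℝ).subset
  intro x hx
  rw [Polynomial.mem_rootSet]
  refine ⟨hp0, ?_⟩
  have hx' : x ^ 2 - 2 * e * x - 2 * e ^ 2 - a = 0 := hx
  simp [hp]
  linarith

lemma infinite_of_open {U : Set ℝ} (hU : IsOpen U) (hne : U.Nonempty) : U.Infinite := by
  obtain ⟨x, hx⟩ := hne
  obtain ⟨ε, hε, hball⟩ := Metric.isOpen_iff.mp hU x hx
  apply Set.Infinite.mono (s := Ioo (x - ε) (x + ε))
  · rw [← Real.ball_eq_Ioo]
    exact hball
  · exact Ioo_infinite (by linarith)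

section

variable {a b e : ℝ}

/-- The doubling map is injective on intervals on which it stays to the right of the largest
root. -/
lemma dbl_injOn (hpos : ∀ x, e < x → 0 < cub a b x)
    {S : Set ℝ} (hS : S.OrdConnected) (hSe : S ⊆ Ioi e) (hL : ∀ x ∈ S, e < dbl a b x) :
    InjOn (dbl a b) S := by
  have key : ∀ u ∈ S, ∀ v ∈ S, u < v → dbl a b u ≠ dbl a b v := by
    intro u hu v hv huv heq
    have hsub : Icc u v ⊆ S := hS.out hu hv
    have hder : ∀ x ∈ S, HasDerivAt (dbl a b) (dder a b x / (4 * cub a b x ^ 2)) x :=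
      fun x hx => hasDerivAt_dbl (hpos x (hSe hx)).ne'
    obtain ⟨c, hc, hc0⟩ := exists_hasDerivAt_eq_zero huv
      (fun x hx => (hder x (hsub hx)).continuousAt.continuousWithinAt) heq
      (fun x hx => hder x (hsub ⟨hx.1.le, hx.2.le⟩))
    have hcS : c ∈ S := hsub ⟨hc.1.le, hc.2.le⟩
    have h1 := dder_sq a b c (hpos c (hSe hcS)).ne'
    rw [hc0] at h1
    have h2 := hpos _ (hL c hcS)
    norm_num at h1
    linarith
  intro u hu v hv huv
  rcases lt_trichotomy u v with h | h | h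
  · exact absurd huv (key u hu v hv h)
  · exact h
  · exact absurd huv.symm (key v hv u hu h)

/-- The doubling map doubles the invariant measure of such intervals. -/
lemma lintegral_wt_image (hpos : ∀ x, e < x → 0 < cub a b x)
    {S : Set ℝ} (hS : S.OrdConnected) (hSe : S ⊆ Ioi e) (hL : ∀ x ∈ S, e < dbl a b x) :
    ∫⁻ x in dbl a b '' S, wt a b x = 2 * ∫⁻ x in S, wt a b x := by
  rw [lintegral_image_eq_lintegral_abs_deriv_mul hS.measurableSet
    (f' := fun x => dder a b x / (4 * cub a b x ^ 2))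
    (fun x hx => (hasDerivAt_dbl (hpos x (hSe hx)).ne').hasDerivWithinAt)
    (dbl_injOn hpos hS hSe hL)]
  rw [← lintegral_const_mul _ (measurable_wt a b)]
  apply setLIntegral_congr_fun hS.measurableSet
  intro x hx
  have hf := hpos x (hSe hx)
  have hfL := hpos _ (hL x hx)
  have h1 := dder_sq a b x hf.ne'
  simp only [wt]
  rw [← ENNReal.ofReal_mul (abs_nonneg _),
    show (2 : ℝ≥0∞) = ENNReal.ofReal 2 by simp, ← ENNReal.ofReal_mul (by norm_num)]
  congr 1
  have hs1 : 0 < Real.sqrt (cub a b x) := Real.sqrt_pos.mpr hf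
  have hs2 : 0 < Real.sqrt (cub a b (dbl a b x)) := Real.sqrt_pos.mpr hfL
  rw [mul_one_div, mul_one_div, div_eq_div_iff hs2.ne' hs1.ne']
  have h2 : (|dder a b x / (4 * cub a b x ^ 2)| * Real.sqrt (cub a b x)) ^ 2 =
      (2 * Real.sqrt (cub a b (dbl a b x))) ^ 2 := by
    rw [mul_pow, mul_pow, sq_abs, Real.sq_sqrt hf.le, Real.sq_sqrt hfL.le, h1]
    norm_num
  exact (pow_left_inj₀ (by positivity) (by positivity) (by norm_num)).mp h2

/-- The images of an interval as long as they do not meet the largest root. -/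
lemma iterate_image (he : cub a b e = 0) (hpos : ∀ x, e < x → 0 < cub a b x)
    {S : Set ℝ} (hS : IsPreconnected S) (hSe : S ⊆ Ioi e) (k : ℕ)
    (hk : ∀ i, 1 ≤ i → i ≤ k → e ∉ (dbl a b)^[i] '' S) :
    (dbl a b)^[k] '' S ⊆ Ioi e ∧ IsPreconnected ((dbl a b)^[k] '' S) ∧
      ∫⁻ x in (dbl a b)^[k] '' S, wt a b x = 2 ^ k * ∫⁻ x in S, wt a b x := by
  induction k with
  | zero =>
    simp only [Function.iterate_zero, image_id, pow_zero, one_mul]
    exact ⟨hSe, hS, trivial⟩
  | succ k ih =>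
    obtain ⟨h1, h2, h3⟩ := ih (fun i hi hik => hk i hi (by omega))
    have himg : (dbl a b)^[k + 1] '' S = dbl a b '' ((dbl a b)^[k] '' S) := by
      rw [← image_comp, ← Function.iterate_succ']
    have hL : ∀ y ∈ (dbl a b)^[k] '' S, e < dbl a b y := by
      intro y hy
      refine lt_of_le_of_ne (root_le_dbl he (hpos _ (h1 hy))) ?_
      intro heq
      apply hk (k + 1) (by omega) le_rfl
      rw [himg]
      exact ⟨y, hy, heq.symm⟩
    rw [himg]
    refine ⟨?_, ?_, ?_⟩
    · rintro z ⟨y, hy, rfl⟩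
      exact hL y hy
    · apply h2.image
      intro y hy
      exact (hasDerivAt_dbl (hpos y (h1 hy)).ne').continuousAt.continuousWithinAt
    · rw [lintegral_wt_image hpos h2.ordConnected h1 hL, h3, pow_succ]
      ring

/-- Some image meets the largest root. -/
lemma exists_meet (he : cub a b e = 0) (hpos : ∀ x, e < x → 0 < cub a b x)
    (hd : 3 * e ^ 2 + a ≠ 0) {S : Set ℝ} (hS : IsPreconnected S) (hSe : S ⊆ Ioi e)
    (hSμ : 0 < ∫⁻ x in S, wt a b x) :
    ∃ k : ℕ, (∀ i ≤ k, (dbl a b)^[i] '' S ⊆ Ioi e) ∧ e ∈ (dbl a b)^[k + 1] '' S ∧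
      IsPreconnected ((dbl a b)^[k] '' S) ∧ 0 < ∫⁻ x in (dbl a b)^[k] '' S, wt a b x := by
  classical
  have hex : ∃ k : ℕ, e ∈ (dbl a b)^[k + 1] '' S := by
    by_contra hcon
    push Not at hcon
    have hind : ∀ k : ℕ, (dbl a b)^[k] '' S ⊆ Ioi e ∧ IsPreconnected ((dbl a b)^[k] '' S) ∧
      ∫⁻ x in (dbl a b)^[k] '' S, wt a b x = 2 ^ k * ∫⁻ x in S, wt a b x := by
      intro k
      apply iterate_image he hpos hS hSe k
      intro i hi hik
      obtain ⟨j, rfl⟩ : ∃ j, i = j + 1 := ⟨i - 1, by omega⟩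
      exact hcon j
    have hfin := lintegral_wt_lt_top he hpos hd
    have hbound : ∀ k : ℕ, 2 ^ k * ∫⁻ x in S, wt a b x ≤ ∫⁻ x in Ioi e, wt a b x := by
      intro k
      rw [← (hind k).2.2]
      exact lintegral_mono_set (hind k).1
    set m := ∫⁻ x in S, wt a b x with hm
    set M := ∫⁻ x in Ioi e, wt a b x with hM
    have hmfin : m ≠ ⊤ := by
      have := hbound 0
      rw [pow_zero, one_mul] at this
      exact (lt_of_le_of_lt this hfin).ne
    obtain ⟨k, hk⟩ := pow_unbounded_of_one_lt (M.toReal / m.toReal) (one_lt_two)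
    have hmr : 0 < m.toReal := ENNReal.toReal_pos hSμ.ne' hmfin
    rw [div_lt_iff₀ hmr] at hk
    have h1 := ENNReal.toReal_mono hfin.ne (hbound k)
    rw [ENNReal.toReal_mul, ENNReal.toReal_pow, ENNReal.toReal_ofNat] at h1
    linarith
  set k := Nat.find hex with hkdef
  have hk := Nat.find_spec hex
  have hmin : ∀ i < k, e ∉ (dbl a b)^[i + 1] '' S := fun i hi => Nat.find_min hex hi
  have hno : ∀ i, 1 ≤ i → i ≤ k → e ∉ (dbl a b)^[i] '' S := by
    intro i hi hik
    obtain ⟨j, rfl⟩ : ∃ j, i = j + 1 := ⟨i - 1, by omega⟩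
    exact hmin j (by omega)
  refine ⟨k, ?_, hk, ?_, ?_⟩
  · intro i hi
    exact (iterate_image he hpos hS hSe i (fun j hj hji => hno j hj (by omega))).1
  · exact (iterate_image he hpos hS hSe k hno).2.1
  · rw [(iterate_image he hpos hS hSe k hno).2.2]
    positivity

/-- The points which reach the largest root after exactly `k` steps. -/
def Lev (a b e : ℝ) (k : ℕ) (x : ℝ) : Prop :=
  (∀ i < k, e < (dbl a b)^[i] x) ∧ (dbl a b)^[k] x = e

lemma Lev.lift {k m : ℕ} {x : ℝ} (h1 : ∀ i < m, e < (dbl a b)^[i] x)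
    (h2 : Lev a b e k ((dbl a b)^[m] x)) : Lev a b e (k + m) x := by
  refine ⟨?_, ?_⟩
  · intro i hi
    rcases lt_or_ge i m with h | h
    · exact h1 i h
    · have := h2.1 (i - m) (by omega)
      rwa [← Function.iterate_add_apply, Nat.sub_add_cancel h] at this
  · rw [Function.iterate_add_apply]
    exact h2.2

lemma Lev.ge {k : ℕ} {x : ℝ} (h : Lev a b e k x) : e ≤ x := by
  rcases Nat.eq_zero_or_pos k with rfl | hk
  · have := h.2
    rw [Function.iterate_zero, id] at this
    exact this.ge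
  · exact (h.1 0 hk).le

lemma tendsto_dbl_atTop (a b : ℝ) : Filter.Tendsto (dbl a b) Filter.atTop Filter.atTop := by
  -- `x / 8 ≤ dbl x` for large `x`
  apply Filter.tendsto_atTop_mono' (f₁ := fun x : ℝ => x / 8)
  · have hR : ∀ x : ℝ, 16 * (1 + |a| + |b|) ≤ x → x / 8 ≤ dbl a b x := by
      intro x hx
      have h1 := abs_nonneg a
      have h2 := abs_nonneg b
      have h3 := neg_abs_le a
      have h4 := neg_abs_le b
      have h5 := le_abs_self a
      have h6 := le_abs_self b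
      have hx1 : 16 ≤ x := by nlinarith
      have hxpos : 0 < x := by linarith
      have ha : |a| ≤ x / 16 := by linarith
      have hb : |b| ≤ x / 16 := by linarith
      have hf : 0 < cub a b x := by
        unfold cub
        have e1 : -(x / 16 * x) ≤ a * x := by nlinarith
        have e2 : x ^ 3 = x * x * x := by ring
        nlinarith [mul_pos hxpos hxpos]
      unfold dbl
      rw [div_le_div_iff₀ (by norm_num) (by positivity)]
      unfold dnum cub
      have e1 : a * x ^ 2 ≤ x ^ 3 / 16 := by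
        have : a * x ^ 2 ≤ (x / 16) * x ^ 2 := by
          apply mul_le_mul_of_nonneg_right _ (by positivity)
          linarith
        calc _ ≤ _ := this
          _ = _ := by ring
      have e2 : b * x ≤ x ^ 2 / 16 := by nlinarith
      have e3 : x ^ 3 ≤ x ^ 4 / 16 := by
        have : x ^ 4 = x * x ^ 3 := by ring
        have h7 : 0 < x ^ 3 := by positivity
        nlinarith
      have e4 : x ^ 2 ≤ x ^ 4 / 256 := by
        have : x ^ 4 = x ^ 2 * x ^ 2 := by ring
        have h7 : 256 ≤ x ^ 2 := by nlinarith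
        nlinarith [sq_nonneg x]
      nlinarith [sq_nonneg a, sq_nonneg x, pow_pos hxpos 4]
    exact Filter.eventually_atTop.mpr ⟨_, hR⟩
  · exact Filter.tendsto_id.atTop_div_const (by norm_num)

lemma ici_subset_of_unbounded {T : Set ℝ} (hT : IsPreconnected T) {c : ℝ} (hc : c ∈ T)
    (hunb : ∀ M : ℝ, ∃ y ∈ T, M < y) : Ici c ⊆ T := by
  intro y hy
  obtain ⟨z, hz, hyz⟩ := hunb y
  exact hT.ordConnected.out hc hz ⟨hy, hyz.le⟩

lemma wt_pos_of_Ioo (hpos : ∀ x, e < x → 0 < cub a b x) {u v : ℝ} (hu : e ≤ u) (huv : u < v) :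
    0 < ∫⁻ x in Ioo u v, wt a b x := by
  rw [setLIntegral_pos_iff (measurable_wt a b)]
  have : Function.support (wt a b) ∩ Ioo u v = Ioo u v := by
    apply inter_eq_right.mpr
    intro x hx
    exact (wt_pos (hpos x (lt_of_le_of_lt hu hx.1))).ne'
  rw [this, Real.volume_Ioo]
  simpa using huv

/-- Half lines contain points of every large level. -/
lemma lev_Ioi (he : cub a b e = 0) (hpos : ∀ x, e < x → 0 < cub a b x)
    (hd : 3 * e ^ 2 + a ≠ 0) {R : ℝ} (hR : e ≤ R) :
    ∃ k₀ : ℕ, ∀ k ≥ k₀, ∃ x ∈ Ioi R, Lev a b e k x := by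
  have hsub : ∀ R : ℝ, e ≤ R → ∃ k : ℕ, (∀ i ≤ k, (dbl a b)^[i] '' Ioi R ⊆ Ioi e) ∧
      Ici e ⊆ (dbl a b)^[k + 1] '' Ioi R := by
    intro R hR
    have hIe : Ioi R ⊆ Ioi e := fun x hx => lt_of_le_of_lt hR hx
    have hμ : 0 < ∫⁻ x in Ioi R, wt a b x :=
      lt_of_lt_of_le (wt_pos_of_Ioo hpos hR (lt_add_one R))
        (lintegral_mono_set (fun x hx => hx.1))
    obtain ⟨k, h1, h2, h3, -⟩ := exists_meet he hpos hd isPreconnected_Ioi hIe hμ
    refine ⟨k, h1, ?_⟩
    have hpc : IsPreconnected ((dbl a b)^[k + 1] '' Ioi R) := by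
      have himg : (dbl a b)^[k + 1] '' Ioi R = dbl a b '' ((dbl a b)^[k] '' Ioi R) := by
        rw [← image_comp, ← Function.iterate_succ']
      rw [himg]
      apply h3.image
      intro y hy
      exact (hasDerivAt_dbl (hpos y (h1 k le_rfl hy)).ne').continuousAt.continuousWithinAt
    apply ici_subset_of_unbounded hpc h2
    intro M
    have ht := (tendsto_dbl_atTop a b).iterate (k + 1)
    obtain ⟨x, hx1, hx2⟩ := ((ht.eventually_gt_atTop M).and (Filter.eventually_gt_atTop R)).exists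
    exact ⟨_, ⟨x, hx2, rfl⟩, hx1⟩
  -- every level is non-empty
  have hne : ∀ k : ℕ, ∃ y, Lev a b e k y := by
    obtain ⟨k₁, h1, h2⟩ := hsub e le_rfl
    intro k
    induction k with
    | zero => exact ⟨e, by intro i hi; omega, rfl⟩
    | succ k ih =>
      obtain ⟨y, hy⟩ := ih
      obtain ⟨x, hx, hxy⟩ := h2 (mem_Ici.mpr hy.ge)
      refine ⟨(dbl a b)^[k₁] x, ?_⟩
      apply Lev.lift (m := 1)
      · intro i hi
        have : i = 0 := by omega
        subst this
        exact h1 k₁ le_rfl ⟨x, hx, rfl⟩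
      · rw [Function.iterate_one, ← Function.iterate_succ_apply' (dbl a b), hxy]
        exact hy
  obtain ⟨k₁, h1, h2⟩ := hsub R hR
  refine ⟨k₁ + 1, ?_⟩
  intro k hk
  obtain ⟨y, hy⟩ := hne (k - (k₁ + 1))
  obtain ⟨x, hx, hxy⟩ := h2 (mem_Ici.mpr hy.ge)
  refine ⟨x, hx, ?_⟩
  have hl : Lev a b e (k - (k₁ + 1) + (k₁ + 1)) x := by
    apply Lev.lift
    · intro i hi
      exact h1 i (by omega) ⟨x, hx, rfl⟩
    · rw [hxy]; exact hy
  rwa [Nat.sub_add_cancel hk] at hl

/-- Near the largest root the doubling map is unbounded. -/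
lemma dbl_unbounded (he : cub a b e = 0) (hpos : ∀ x, e < x → 0 < cub a b x)
    (hd : 3 * e ^ 2 + a ≠ 0) {y : ℝ} (hy : e < y) (M : ℝ) : ∃ x ∈ Ioo e y, M < dbl a b x := by
  by_contra hcon
  push Not at hcon
  -- then the square of x² - 2 e x - 2 e² - a is at most 4 (M - e) f, and in the limit f' (e) = 0
  have h1 : ∀ x ∈ Ioo e y, (x ^ 2 - 2 * e * x - 2 * e ^ 2 - a) ^ 2 ≤
      (M - e) * (4 * cub a b x) := by
    intro x hx
    have hf := hpos x hx.1
    have h2 := dbl_sub_root he hf.ne'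
    have h3 := hcon x hx
    have h4 : (x ^ 2 - 2 * e * x - 2 * e ^ 2 - a) ^ 2 / (4 * cub a b x) ≤ M - e := by
      rw [← h2]; linarith
    rwa [div_le_iff₀ (by positivity)] at h4
  have hlim1 : Filter.Tendsto (fun x : ℝ => (x ^ 2 - 2 * e * x - 2 * e ^ 2 - a) ^ 2)
      (nhdsWithin e (Ioi e)) (nhds ((e ^ 2 - 2 * e * e - 2 * e ^ 2 - a) ^ 2)) :=
    (Continuous.tendsto (f := fun x : ℝ => (x ^ 2 - 2 * e * x - 2 * e ^ 2 - a) ^ 2)
      (by fun_prop) e).mono_left nhdsWithin_le_nhds
  have hlim2 : Filter.Tendsto (fun x : ℝ => (M - e) * (4 * cub a b x))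
      (nhdsWithin e (Ioi e)) (nhds ((M - e) * (4 * cub a b e))) :=
    ((continuous_const.mul (continuous_const.mul (continuous_cub a b))).tendsto e).mono_left
      nhdsWithin_le_nhds
  have hle := le_of_tendsto_of_tendsto hlim1 hlim2 (by
    filter_upwards [Ioo_mem_nhdsGT hy] with x hx
    exact h1 x hx)
  rw [he] at hle
  have h5 : (e ^ 2 - 2 * e * e - 2 * e ^ 2 - a) ^ 2 = (3 * e ^ 2 + a) ^ 2 := by ring
  rw [h5] at hle
  have h6 : 0 < (3 * e ^ 2 + a) ^ 2 := by positivity
  linarith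

/-- Every interval contains points of every large level. -/
theorem lev_Ioo (he : cub a b e = 0) (hpos : ∀ x, e < x → 0 < cub a b x)
    (hd : 3 * e ^ 2 + a ≠ 0) {u v : ℝ} (hu : e ≤ u) (huv : u < v) :
    ∃ k₀ : ℕ, ∀ k ≥ k₀, ∃ x ∈ Ioo u v, Lev a b e k x := by
  have hIe : Ioo u v ⊆ Ioi e := fun x hx => lt_of_le_of_lt hu hx.1
  obtain ⟨k₁, h1, h2, h3, h4⟩ := exists_meet he hpos hd isPreconnected_Ioo hIe
    (wt_pos_of_Ioo hpos hu huv)
  set T := (dbl a b)^[k₁] '' Ioo u v with hT
  have himg : (dbl a b)^[k₁ + 1] '' Ioo u v = dbl a b '' T := by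
    rw [hT, ← image_comp, ← Function.iterate_succ']
  have hTe : T ⊆ Ioi e := h1 k₁ le_rfl
  have hpc : IsPreconnected (dbl a b '' T) := by
    apply h3.image
    intro y hy
    exact (hasDerivAt_dbl (hpos y (hTe hy)).ne').continuousAt.continuousWithinAt
  rw [himg] at h2
  -- another point of the image
  obtain ⟨y₁, hy₁T, hy₁⟩ : ∃ y₁ ∈ dbl a b '' T, e < y₁ := by
    by_contra hcon
    push Not at hcon
    have hfinT : T ⊆ {x : ℝ | x ^ 2 - 2 * e * x - 2 * e ^ 2 - a = 0} := by
      intro x hx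
      have hf := hpos x (hTe hx)
      have hle := hcon _ ⟨x, hx, rfl⟩
      have hge := root_le_dbl he hf
      have h5 := dbl_sub_root he hf.ne'
      have h6 : dbl a b x - e = 0 := by linarith
      rw [h6] at h5
      have h7 := h5.symm
      rw [div_eq_zero_iff] at h7
      rcases h7 with h7 | h7
      · exact pow_eq_zero_iff (two_ne_zero) |>.mp h7
      · linarith
    have hfin := finite_quad a e
    have hzero : ∫⁻ x in T, wt a b x = 0 :=
      setLIntegral_measure_zero T _ ((hfin.subset hfinT).measure_zero volume)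
    rw [hzero] at h4
    exact lt_irrefl _ h4
  -- the image of the interval from e to y₁ contains a half line
  have hioo : Ioo e y₁ ⊆ dbl a b '' T := by
    intro z hz
    exact hpc.ordConnected.out h2 hy₁T ⟨hz.1.le, hz.2.le⟩
  have hpc2 : IsPreconnected (dbl a b '' Ioo e y₁) := by
    apply isPreconnected_Ioo.image
    intro y hy
    exact (hasDerivAt_dbl (hpos y hy.1).ne').continuousAt.continuousWithinAt
  obtain ⟨x₂, hx₂, hx₂e⟩ := dbl_unbounded he hpos hd hy₁ e
  have hhalf : Ici (dbl a b x₂) ⊆ dbl a b '' Ioo e y₁ := by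
    apply ici_subset_of_unbounded hpc2 ⟨x₂, hx₂, rfl⟩
    intro M
    obtain ⟨x, hx, hxM⟩ := dbl_unbounded he hpos hd hy₁ M
    exact ⟨_, ⟨x, hx, rfl⟩, hxM⟩
  obtain ⟨k₀, hk₀⟩ := lev_Ioi he hpos hd hx₂e.le
  refine ⟨k₀ + 1 + (k₁ + 1), ?_⟩
  intro k hk
  obtain ⟨y, hy, hylev⟩ := hk₀ (k - (1 + (k₁ + 1))) (by omega)
  obtain ⟨z, hz, hzy⟩ := hhalf (mem_Ici.mpr (le_of_lt hy))
  obtain ⟨t, ht, htz⟩ := hioo hz
  obtain ⟨x, hx, hxt⟩ := ht
  refine ⟨x, hx, ?_⟩
  have hit : (dbl a b)^[1 + (k₁ + 1)] x = y := by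
    rw [show 1 + (k₁ + 1) = (k₁ + 1) + 1 by ring, Function.iterate_succ_apply',
      Function.iterate_succ_apply', hxt, htz, hzy]
  have hl : Lev a b e (k - (1 + (k₁ + 1)) + (1 + (k₁ + 1))) x := by
    apply Lev.lift
    · intro i hi
      rcases Nat.lt_or_ge i (k₁ + 1) with h | h
      · exact h1 i (by omega) ⟨x, hx, rfl⟩
      · have hi' : i = k₁ + 1 := by omega
        rw [hi', Function.iterate_succ_apply', hxt, htz]
        exact hz.1
    · rw [hit]; exact hylev
  rwa [Nat.sub_add_cancel (by omega)] at hl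

end

end Pool.Agent.TRS
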