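import Pool.Agent.TRS.Density
import Pool.Agent.TRS.Basic

/-!
Simultaneous approximation of real points of an elliptic curve over a totally real number field
`L` by points over a field closed under square roots.
-/

open Set Filter Topology

namespace Pool.Agent.TRS

variable {L : Type} [Field L] {ι : L →+* Qbar}

/-- The complex embedding `φ` of the algebraic closure extends the real embedding `τ` of `L`,
where `L` is embedded in the algebraic closure by `ι`. -/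
def Ext (ι : L →+* Qbar) (τ : L →+* ℝ) (φ : Qbar →+* ℂ) : Prop :=
  ∀ w : L, φ (ι w) = ((τ w : ℝ) : ℂ)

/-- In every embedding above `τ` the number `z` is real and within `ε` of `c τ`. -/
def Near (ι : L →+* Qbar) (z : Qbar) (c : (L →+* ℝ) → ℝ) (ε : ℝ) : Prop :=
  ∀ (τ : L →+* ℝ) (φ : Qbar →+* ℂ), Ext ι τ φ → ∃ r : ℝ, φ z = (r : ℂ) ∧ |r - c τ| < ε

/-- The family x τ, y τ of real points of the conjugates of `y² = x³ + a x + b` can be
approximated by one point of the curve with coordinates in `F`. -/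
def Diag (ι : L →+* Qbar) (F : IntermediateField ℚ Qbar) (a b : L) (x y : (L →+* ℝ) → ℝ) : Prop :=
  ∀ ε > 0, ∃ X ∈ F, ∃ Y ∈ F, Y ^ 2 = X ^ 3 + ι a * X + ι b ∧
    Near ι X x ε ∧ Near ι Y y ε

lemma near_mem {t : L} {c : (L →+* ℝ) → ℝ} {ε : ℝ} (h : ∀ τ : L →+* ℝ, |τ t - c τ| < ε) :
    Near ι (ι t) c ε := by
  intro τ φ hτ
  exact ⟨τ t, hτ t, h τ⟩

lemma near_mono {z : Qbar} {c c' : (L →+* ℝ) → ℝ} {ε ε' : ℝ} (h : Near ι z c ε)
    (hx : ∀ τ, |c τ - c' τ| + ε ≤ ε') : Near ι z c' ε' := by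
  intro τ φ hτ
  obtain ⟨r, hr, hr2⟩ := h τ φ hτ
  refine ⟨r, hr, ?_⟩
  have : |r - c' τ| ≤ |r - c τ| + |c τ - c' τ| := abs_sub_le _ _ _
  have := hx τ
  linarith

lemma disc_map {a b : L} (h : 4 * a ^ 3 + 27 * b ^ 2 ≠ 0) (τ : L →+* ℝ) :
    4 * (τ a) ^ 3 + 27 * (τ b) ^ 2 ≠ 0 := by
  have h1 : τ (4 * a ^ 3 + 27 * b ^ 2) ≠ 0 := by
    rw [Ne, map_eq_zero]
    exact h
  have e4 : τ 4 = 4 := map_ofNat τ 4
  have e27 : τ 27 = 27 := map_ofNat τ 27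
  rwa [map_add, map_mul, map_mul, map_pow, map_pow, e4, e27] at h1

/-- Real points of order two. -/
lemma diag_base [NumberField L] {F : IntermediateField ℚ Qbar}
    (hF : ∀ z : Qbar, z ^ 2 ∈ F → z ∈ F) (hLF : ∀ w : L, ι w ∈ F) {a b : L}
    (hdisc : 4 * a ^ 3 + 27 * b ^ 2 ≠ 0) {e : (L →+* ℝ) → ℝ}
    (he : ∀ τ : L →+* ℝ, cub (τ a) (τ b) (e τ) = 0) {y : (L →+* ℝ) → ℝ} (hy : ∀ τ, y τ = 0) :
    Diag ι F a b e y := by
  intro ε hε
  have hδ : 0 < min ε (ε ^ 2) := by positivity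
  have hU := fun τ : L →+* ℝ => exists_open_pos (continuous_cub (τ a) (τ b)) (he τ)
    (hasDerivAt_cub (τ a) (τ b) (e τ)) (deriv_ne_zero (disc_map hdisc τ) (he τ)) hδ
  obtain ⟨t, ht⟩ := exists_mem_open _ (fun τ => (hU τ).1) (fun τ => (hU τ).2)
  have htF : (ι t) ∈ F := hLF t
  have haF : (ι a) ∈ F := hLF a
  have hbF : (ι b) ∈ F := hLF b
  have hmem : (ι t) ^ 3 + (ι a) * (ι t) + (ι b) ∈ F :=
    add_mem (add_mem (pow_mem htF 3) (mul_mem haF htF)) hbF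
  obtain ⟨Y, hYF, hY⟩ := exists_sqrt hF hmem
  refine ⟨ι t, htF, Y, hYF, hY,
    near_mem (fun τ => (ht τ).1.trans_le (min_le_left _ _)), ?_⟩
  intro τ φ hτ
  have hval : φ ((ι t) ^ 3 + (ι a) * (ι t) + (ι b)) =
      ((cub (τ a) (τ b) (τ t) : ℝ) : ℂ) := by
    rw [map_add, map_add, map_mul, map_pow, hτ t, hτ a, hτ b]
    simp [cub]
  obtain ⟨q, hq1, hq2⟩ := sqrt_conj hY hval (ht τ).2.1.le
  refine ⟨q, hq1, ?_⟩
  rw [hy τ, sub_zero]
  apply abs_lt_of_sq_lt_sq _ hε.le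
  rw [hq2]
  exact (ht τ).2.2.trans_le (min_le_right _ _)

/-- The discriminant of the residual pair on the line of slope `t` through `-(X, Y)`. -/
def dsc {R : Type*} [CommRing R] (a t X Y : R) : R :=
  t ^ 4 - 6 * X * t ^ 2 - 8 * Y * t - 3 * X ^ 2 - 4 * a

/-- The points of the residual pair lie on the curve. -/
lemma residual_mem {a b t X Y s x y : Qbar} (hXY : Y ^ 2 = X ^ 3 + a * X + b)
    (hs : s ^ 2 = dsc a t X Y) (hx : x = ((t ^ 2 - X) + s) / 2) (hy : y = t * (x - X) - Y) :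
    y ^ 2 = x ^ 3 + a * x + b := by
  have h2x : s = 2 * x - (t ^ 2 - X) := by rw [hx]; ring
  rw [h2x] at hs
  unfold dsc at hs
  have h4 : (4 : Qbar) ≠ 0 := by norm_num
  have hquad : x ^ 2 + (X - t ^ 2) * x + (X ^ 2 + a + t ^ 2 * X + 2 * t * Y) = 0 := by
    apply mul_left_cancel₀ h4
    linear_combination hs
  rw [hy]
  linear_combination hXY - (x - X) * hquad

/-- The real geometry of the halving step. -/
lemma halve_real {a b x₀ y₀ : ℝ} (hy : y₀ ^ 2 = cub a b x₀) (hy0 : y₀ ≠ 0) :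
    ∃ t₀ Y₀ : ℝ, Y₀ ^ 2 = cub a b (dbl a b x₀) ∧ dsc a t₀ (dbl a b x₀) Y₀ = 0 ∧
      HasDerivAt (fun t : ℝ => dsc a t (dbl a b x₀) Y₀) (8 * y₀) t₀ ∧
      (t₀ ^ 2 - dbl a b x₀) / 2 = x₀ ∧ t₀ * (x₀ - dbl a b x₀) - Y₀ = y₀ := by
  set t₀ : ℝ := (3 * x₀ ^ 2 + a) / (2 * y₀) with ht₀
  have hty : 2 * y₀ * t₀ = 3 * x₀ ^ 2 + a := by
    rw [ht₀]; field_simp
  have hcub0 : cub a b x₀ ≠ 0 := by rw [← hy]; positivity
  set X₀ : ℝ := dbl a b x₀ with hX₀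
  have hX : X₀ = t₀ ^ 2 - 2 * x₀ := by
    rw [hX₀, dbl, ← hy, div_eq_iff (by positivity)]
    have h1 : t₀ ^ 2 * (4 * y₀ ^ 2) = (3 * x₀ ^ 2 + a) ^ 2 := by rw [← hty]; ring
    rw [sub_mul, h1, hy]
    unfold dnum cub
    ring
  refine ⟨t₀, -t₀ * (X₀ - x₀) - y₀, ?_, ?_, ?_, ?_, ?_⟩
  · have h1 : cub a b X₀ = cub a b x₀ + (3 * x₀ ^ 2 + a) * (X₀ - x₀) +
      (X₀ - x₀) ^ 2 * ((X₀ - x₀) + 3 * x₀) := by unfold cub; ring
    rw [h1, ← hy, ← hty, hX]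
    ring
  · have ha : a = 2 * y₀ * t₀ - 3 * x₀ ^ 2 := by linarith
    unfold dsc
    rw [hX, ha]
    ring
  · have h1 : HasDerivAt (fun x : ℝ => x ^ 4) (4 * t₀ ^ 3) t₀ := by
      simpa using hasDerivAt_pow 4 t₀
    have h2 : HasDerivAt (fun x : ℝ => 6 * X₀ * x ^ 2) (6 * X₀ * (2 * t₀)) t₀ := by
      simpa using (hasDerivAt_pow 2 t₀).const_mul (6 * X₀)
    have h3 : HasDerivAt (fun x : ℝ => 8 * (-t₀ * (X₀ - x₀) - y₀) * x)
        (8 * (-t₀ * (X₀ - x₀) - y₀)) t₀ := by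
      simpa using (hasDerivAt_id t₀).const_mul (8 * (-t₀ * (X₀ - x₀) - y₀))
    have h4 : HasDerivAt (fun t : ℝ => dsc a t X₀ (-t₀ * (X₀ - x₀) - y₀))
        (4 * t₀ ^ 3 - 6 * X₀ * (2 * t₀) - 8 * (-t₀ * (X₀ - x₀) - y₀)) t₀ :=
      (((h1.sub h2).sub h3).sub_const (3 * X₀ ^ 2)).sub_const (4 * a)
    refine h4.congr_deriv ?_
    rw [hX]
    ring
  · rw [hX]; ring
  · ring

/-- The open conditions of the halving step. -/
lemma halve_open {a b x₀ y₀ : ℝ} (hy : y₀ ^ 2 = cub a b x₀) (hy0 : y₀ ≠ 0) {ε : ℝ}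
    (hε : 0 < ε) :
    ∃ Y₀ : ℝ, Y₀ ^ 2 = cub a b (dbl a b x₀) ∧ ∃ U : Set ℝ, IsOpen U ∧ U.Nonempty ∧
      ∀ t ∈ U, ∃ η > 0, ∀ X Y s : ℝ, |X - dbl a b x₀| < η → |Y - Y₀| < η →
        0 < dsc a t X Y ∧ (s ^ 2 = dsc a t X Y →
          |((t ^ 2 - X) + s) / 2 - x₀| < ε ∧
          |t * (((t ^ 2 - X) + s) / 2 - X) - Y - y₀| < ε) := by
  obtain ⟨t₀, Y₀, hY, hdsc0, hder, hx₀, hy₀⟩ := halve_real hy hy0
  refine ⟨Y₀, hY, ?_⟩
  set X₀ := dbl a b x₀ with hX₀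
  have hcont : Continuous (fun t : ℝ => dsc a t X₀ Y₀) := by
    unfold dsc; fun_prop
  have hev : ∀ᶠ p : ℝ × ℝ × ℝ × ℝ in 𝓝 (t₀, X₀, Y₀, 0),
      |((p.1 ^ 2 - p.2.1) + p.2.2.2) / 2 - x₀| < ε ∧
      |p.1 * (((p.1 ^ 2 - p.2.1) + p.2.2.2) / 2 - p.2.1) - p.2.2.1 - y₀| < ε := by
    have hopen : IsOpen {p : ℝ × ℝ × ℝ × ℝ | |((p.1 ^ 2 - p.2.1) + p.2.2.2) / 2 - x₀| < ε ∧
      |p.1 * (((p.1 ^ 2 - p.2.1) + p.2.2.2) / 2 - p.2.1) - p.2.2.1 - y₀| < ε} :=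
      (isOpen_lt (by fun_prop) continuous_const).and (isOpen_lt (by fun_prop) continuous_const)
    apply hopen.mem_nhds
    refine ⟨?_, ?_⟩
    · show |((t₀ ^ 2 - X₀) + 0) / 2 - x₀| < ε
      rw [add_zero, hx₀, sub_self, abs_zero]; exact hε
    · show |t₀ * (((t₀ ^ 2 - X₀) + 0) / 2 - X₀) - Y₀ - y₀| < ε
      rw [add_zero, hx₀, hy₀, sub_self, abs_zero]; exact hε
  rw [Metric.eventually_nhds_iff] at hev
  obtain ⟨δ, hδ, hev⟩ := hev
  have hδ2 : 0 < min δ (δ ^ 2) := by positivity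
  obtain ⟨hUo, hUn⟩ := exists_open_pos hcont hdsc0 hder (by positivity) hδ2
  refine ⟨_, hUo, hUn, ?_⟩
  rintro t ⟨ht1, ht2, ht3⟩
  have hev2 : ∀ᶠ p : ℝ × ℝ in 𝓝 (X₀, Y₀),
      0 < dsc a t p.1 p.2 ∧ dsc a t p.1 p.2 < δ ^ 2 := by
    have hopen : IsOpen {p : ℝ × ℝ | 0 < dsc a t p.1 p.2 ∧ dsc a t p.1 p.2 < δ ^ 2} := by
      unfold dsc
      exact (isOpen_lt continuous_const (by fun_prop)).and
        (isOpen_lt (by fun_prop) continuous_const)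
    exact hopen.mem_nhds ⟨ht2, ht3.trans_le (min_le_right _ _)⟩
  rw [Metric.eventually_nhds_iff] at hev2
  obtain ⟨η, hη, hev2⟩ := hev2
  refine ⟨min δ η, by positivity, ?_⟩
  intro X Y s hX hY'
  have hclose : dist ((X, Y) : ℝ × ℝ) (X₀, Y₀) < η := by
    rw [Prod.dist_eq]
    exact max_lt (hX.trans_le (min_le_right _ _)) (hY'.trans_le (min_le_right _ _))
  have hd := hev2 hclose
  refine ⟨hd.1, ?_⟩
  intro hs
  have hsδ : |s| < δ := by
    apply abs_lt_of_sq_lt_sq _ hδ.le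
    rw [hs]
    exact hd.2
  have hclose2 : dist ((t, X, Y, s) : ℝ × ℝ × ℝ × ℝ) (t₀, X₀, Y₀, 0) < δ := by
    rw [Prod.dist_eq, Prod.dist_eq, Prod.dist_eq]
    refine max_lt (ht1.trans_le (min_le_left _ _)) (max_lt (hX.trans_le (min_le_left _ _))
      (max_lt (hY'.trans_le (min_le_left _ _)) ?_))
    simpa [Real.dist_eq] using hsδ
  exact hev hclose2

/-- Halving: if the family of doubles can be approximated, so can the family. -/
lemma diag_halve [NumberField L] {F : IntermediateField ℚ Qbar}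
    (hF : ∀ z : Qbar, z ^ 2 ∈ F → z ∈ F) (hLF : ∀ w : L, ι w ∈ F) {a b : L} {x y : (L →+* ℝ) → ℝ}
    (hy : ∀ τ : L →+* ℝ, y τ ^ 2 = cub (τ a) (τ b) (x τ)) (hy0 : ∀ τ, y τ ≠ 0)
    (h : ∀ Y : (L →+* ℝ) → ℝ, (∀ τ : L →+* ℝ, Y τ ^ 2 =
      cub (τ a) (τ b) (dbl (τ a) (τ b) (x τ))) →
      Diag ι F a b (fun τ => dbl (τ a) (τ b) (x τ)) Y) :
    Diag ι F a b x y := by
  intro ε hε
  choose Y₀ hY₀ U hUo hUn hU using fun τ : L →+* ℝ => halve_open (hy τ) (hy0 τ) hε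
  obtain ⟨t, ht⟩ := exists_mem_open U hUo hUn
  choose η hη hη2 using fun τ : L →+* ℝ => hU τ (τ t) (ht τ)
  obtain ⟨η₀, hη₀, hη₀le⟩ := exists_pos_le hη
  obtain ⟨X, hXF, Y, hYF, hXY, hXn, hYn⟩ := h Y₀ hY₀ η₀ hη₀
  have htF : (ι t) ∈ F := hLF t
  have haF : (ι a) ∈ F := hLF a
  have hmem : dsc (ι a) (ι t) X Y ∈ F := by
    unfold dsc
    have h6 : (6 : Qbar) ∈ F := by exact_mod_cast ofNat_mem (F := F) 6
    have h8 : (8 : Qbar) ∈ F := by exact_mod_cast ofNat_mem (F := F) 8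
    have h3 : (3 : Qbar) ∈ F := by exact_mod_cast ofNat_mem (F := F) 3
    have h4 : (4 : Qbar) ∈ F := by exact_mod_cast ofNat_mem (F := F) 4
    exact sub_mem (sub_mem (sub_mem (sub_mem (pow_mem htF 4) (mul_mem (mul_mem h6 hXF)
      (pow_mem htF 2))) (mul_mem (mul_mem h8 hYF) htF)) (mul_mem h3 (pow_mem hXF 2)))
      (mul_mem h4 haF)
  obtain ⟨s, hsF, hs⟩ := exists_sqrt hF hmem
  have h2 : (2 : Qbar) ∈ F := by exact_mod_cast ofNat_mem (F := F) 2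
  have hxF : (((ι t) ^ 2 - X) + s) / 2 ∈ F :=
    div_mem (add_mem (sub_mem (pow_mem htF 2) hXF) hsF) h2
  have hyF : (ι t) * ((((ι t) ^ 2 - X) + s) / 2 - X) - Y ∈ F :=
    sub_mem (mul_mem htF (sub_mem hxF hXF)) hYF
  -- the conjugates
  have hconj : ∀ (τ : L →+* ℝ) (φ : Qbar →+* ℂ), Ext ι τ φ → ∃ Xr Yr sr : ℝ, φ X = (Xr : ℂ) ∧
      φ Y = (Yr : ℂ) ∧ φ s = (sr : ℂ) ∧
      |((((τ t) ^ 2 - Xr) + sr) / 2 - x τ)| < ε ∧
      |(τ t) * ((((τ t) ^ 2 - Xr) + sr) / 2 - Xr) - Yr - y τ| < ε := by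
    intro τ φ hτ
    obtain ⟨Xr, hXr, hXr2⟩ := hXn τ φ hτ
    obtain ⟨Yr, hYr, hYr2⟩ := hYn τ φ hτ
    have h6 : φ 6 = 6 := map_ofNat φ 6
    have h8 : φ 8 = 8 := map_ofNat φ 8
    have h3 : φ 3 = 3 := map_ofNat φ 3
    have h4 : φ 4 = 4 := map_ofNat φ 4
    have hval : φ (dsc (ι a) (ι t) X Y) = ((dsc (τ a) (τ t) Xr Yr : ℝ) : ℂ) := by
      unfold dsc
      rw [map_sub, map_sub, map_sub, map_sub, map_mul, map_mul, map_mul, map_mul, map_mul,
        map_mul, map_pow, map_pow, map_pow, hXr, hYr, hτ t, hτ a, h6, h8, h3, h4]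
      push_cast
      ring
    obtain ⟨hd1, hd2⟩ := (hη2 τ Xr Yr 0 (hXr2.trans_le (hη₀le τ)) (hYr2.trans_le (hη₀le τ)))
    obtain ⟨q, hq1, hq2⟩ := sqrt_conj hs hval hd1.le
    exact ⟨Xr, Yr, q, hXr, hYr, hq1, (hη2 τ Xr Yr q (hXr2.trans_le (hη₀le τ))
      (hYr2.trans_le (hη₀le τ))).2 hq2⟩
  refine ⟨_, hxF, _, hyF, residual_mem hXY hs rfl rfl, ?_, ?_⟩
  · intro τ φ hτ
    obtain ⟨Xr, Yr, sr, h1, h2, h3, h4, h5⟩ := hconj τ φ hτ
    have htwo : φ 2 = 2 := map_ofNat φ 2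
    refine ⟨_, ?_, h4⟩
    rw [map_div₀, map_add, map_sub, map_pow, hτ t, h1, h3, htwo]
    push_cast
    ring
  · intro τ φ hτ
    obtain ⟨Xr, Yr, sr, h1, h2, h3, h4, h5⟩ := hconj τ φ hτ
    have htwo : φ 2 = 2 := map_ofNat φ 2
    refine ⟨_, ?_, h5⟩
    rw [map_sub, map_mul, map_sub, map_div₀, map_add, map_sub, map_pow, hτ t, h1, h2, h3, htwo]
    push_cast
    ring

/-- Real points are limits of points whose double is to the right of the largest root. -/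
lemma perturb {a b e x₀ y₀ : ℝ} (hdisc : 4 * a ^ 3 + 27 * b ^ 2 ≠ 0) (he : cub a b e = 0)
    (hy : y₀ ^ 2 = cub a b x₀) {ε : ℝ} (hε : 0 < ε) :
    ∃ x₁ y₁ : ℝ, y₁ ^ 2 = cub a b x₁ ∧ y₁ ≠ 0 ∧ e < dbl a b x₁ ∧ |x₁ - x₀| < ε ∧
      |y₁ - y₀| < ε := by
  obtain ⟨σ, hσ, U, hUo, hUn, hU⟩ : ∃ σ : ℝ, σ ^ 2 = 1 ∧ ∃ U : Set ℝ, IsOpen U ∧ U.Nonempty ∧
      ∀ x ∈ U, |x - x₀| < ε ∧ 0 < cub a b x ∧ |σ * Real.sqrt (cub a b x) - y₀| < ε := by
    by_cases hy0 : y₀ = 0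
    · have hroot : cub a b x₀ = 0 := by rw [← hy, hy0]; norm_num
      have hδ : 0 < min ε (ε ^ 2) := by positivity
      obtain ⟨h1, h2⟩ := exists_open_pos (continuous_cub a b) hroot (hasDerivAt_cub a b x₀)
        (deriv_ne_zero hdisc hroot) hδ
      refine ⟨1, by norm_num, _, h1, h2, ?_⟩
      rintro x ⟨hx1, hx2, hx3⟩
      refine ⟨hx1.trans_le (min_le_left _ _), hx2, ?_⟩
      rw [one_mul, hy0, sub_zero, abs_of_nonneg (Real.sqrt_nonneg _)]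
      rw [Real.sqrt_lt' hε]
      exact hx3.trans_le (min_le_right _ _)
    · have hc : 0 < cub a b x₀ := by rw [← hy]; positivity
      obtain ⟨σ, hσ, hyσ⟩ : ∃ σ : ℝ, σ ^ 2 = 1 ∧ y₀ = σ * Real.sqrt (cub a b x₀) := by
        have h1 : y₀ ^ 2 = (Real.sqrt (cub a b x₀)) ^ 2 := by rw [Real.sq_sqrt hc.le]; exact hy
        rcases sq_eq_sq_iff_eq_or_eq_neg.mp h1 with h | h
        · exact ⟨1, by norm_num, by rw [one_mul]; exact h⟩
        · exact ⟨-1, by norm_num, by rw [neg_one_mul]; exact h⟩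
      have hcont : Continuous (fun x : ℝ => σ * Real.sqrt (cub a b x)) :=
        continuous_const.mul (continuous_cub a b).sqrt
      refine ⟨σ, hσ, {x | |x - x₀| < ε ∧ 0 < cub a b x ∧
        |σ * Real.sqrt (cub a b x) - y₀| < ε}, ?_, ⟨x₀, ?_⟩, fun x hx => hx⟩
      · exact (isOpen_lt (by fun_prop) continuous_const).and
          ((isOpen_lt continuous_const (continuous_cub a b)).and
            (isOpen_lt ((hcont.sub continuous_const).abs) continuous_const))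
      · refine ⟨by simpa using hε, hc, ?_⟩
        show |σ * Real.sqrt (cub a b x₀) - y₀| < ε
        rw [← hyσ, sub_self, abs_zero]
        exact hε
  have hfin : {x : ℝ | x ^ 2 - 2 * e * x - 2 * e ^ 2 - a = 0}.Finite := finite_quad a e
  have hinf : U.Infinite := infinite_of_open hUo hUn
  obtain ⟨x₁, hx₁, hx₁'⟩ := (hinf.sdiff hfin).nonempty
  obtain ⟨h1, h2, h3⟩ := hU x₁ hx₁
  refine ⟨x₁, σ * Real.sqrt (cub a b x₁), ?_, ?_, ?_, h1, h3⟩
  · rw [mul_pow, hσ, Real.sq_sqrt h2.le, one_mul]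
  · intro h0
    have : (σ * Real.sqrt (cub a b x₁)) ^ 2 = 0 := by rw [h0]; norm_num
    rw [mul_pow, hσ, Real.sq_sqrt h2.le, one_mul] at this
    linarith
  · refine lt_of_le_of_ne (root_le_dbl he h2) ?_
    intro heq
    have h5 := dbl_sub_root he h2.ne'
    rw [← heq, sub_self] at h5
    have h7 := h5.symm
    rw [div_eq_zero_iff] at h7
    rcases h7 with h7 | h7
    · exact hx₁' (pow_eq_zero_iff (two_ne_zero) |>.mp h7)
    · linarith

/-- **Simultaneous approximation on elliptic curves.** Every family of real points of the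
conjugates of an elliptic curve over the number field `L` can be approximated by one point over a
field closed under square roots. -/
theorem diag_all [NumberField L] {F : IntermediateField ℚ Qbar}
    (hF : ∀ z : Qbar, z ^ 2 ∈ F → z ∈ F) (hLF : ∀ w : L, ι w ∈ F) {a b : L}
    (hdisc : 4 * a ^ 3 + 27 * b ^ 2 ≠ 0) {x y : (L →+* ℝ) → ℝ}
    (hy : ∀ τ : L →+* ℝ, y τ ^ 2 = cub (τ a) (τ b) (x τ)) : Diag ι F a b x y := by
  choose e he hpos using fun τ : L →+* ℝ => exists_top_root (τ a) (τ b)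
  have hd := fun τ : L →+* ℝ => deriv_ne_zero (disc_map hdisc τ) (he τ)
  -- points of the backward orbit
  have claim1 : ∀ k : ℕ, ∀ x : (L →+* ℝ) → ℝ, (∀ τ : L →+* ℝ, Lev (τ a) (τ b) (e τ) k (x τ)) →
      ∀ y : (L →+* ℝ) → ℝ, (∀ τ : L →+* ℝ, y τ ^ 2 = cub (τ a) (τ b) (x τ)) →
      Diag ι F a b x y := by
    intro k
    induction k with
    | zero =>
      intro x hx y hxy
      have hx' : ∀ τ, x τ = e τ := fun τ => (hx τ).2
      apply diag_base hF hLF hdisc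
      · intro τ
        rw [hx' τ, he τ]
      · intro τ
        have := hxy τ
        rw [hx' τ, he τ] at this
        exact pow_eq_zero_iff (two_ne_zero) |>.mp this
    | succ k ih =>
      intro x hx y hxy
      have hxe : ∀ τ, e τ < x τ := fun τ => (hx τ).1 0 (by omega)
      have hy0 : ∀ τ, y τ ≠ 0 := by
        intro τ h0
        have := hxy τ
        rw [h0] at this
        have := hpos τ _ (hxe τ)
        linarith
      apply diag_halve hF hLF hxy hy0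
      intro Y hY
      apply ih _ _ Y hY
      intro τ
      refine ⟨?_, ?_⟩
      · intro i hi
        have := (hx τ).1 (i + 1) (by omega)
        rwa [Function.iterate_succ_apply] at this
      · have := (hx τ).2
        rwa [Function.iterate_succ_apply] at this
  -- points to the right of the largest root
  have claim2 : ∀ x : (L →+* ℝ) → ℝ, (∀ τ, e τ < x τ) →
      ∀ y : (L →+* ℝ) → ℝ, (∀ τ : L →+* ℝ, y τ ^ 2 = cub (τ a) (τ b) (x τ)) →
      Diag ι F a b x y := by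
    intro x hx y hxy ε hε
    have hloc : ∀ τ : L →+* ℝ, ∃ σ : ℝ, σ ^ 2 = 1 ∧ ∃ u, e τ ≤ u ∧ u < x τ ∧
        ∀ x₁ ∈ Ioo u (x τ), |x₁ - x τ| < ε / 2 ∧
          |σ * Real.sqrt (cub (τ a) (τ b) x₁) - y τ| < ε / 2 := by
      intro τ
      have hc : 0 < cub (τ a) (τ b) (x τ) := hpos τ _ (hx τ)
      obtain ⟨σ, hσ, hyσ⟩ : ∃ σ : ℝ, σ ^ 2 = 1 ∧
          y τ = σ * Real.sqrt (cub (τ a) (τ b) (x τ)) := by
        have h1 : y τ ^ 2 = (Real.sqrt (cub (τ a) (τ b) (x τ))) ^ 2 := by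
          rw [Real.sq_sqrt hc.le]; exact hxy τ
        rcases sq_eq_sq_iff_eq_or_eq_neg.mp h1 with h | h
        · exact ⟨1, by norm_num, by rw [one_mul]; exact h⟩
        · exact ⟨-1, by norm_num, by rw [neg_one_mul]; exact h⟩
      refine ⟨σ, hσ, ?_⟩
      have hcont : Continuous (fun x : ℝ => σ * Real.sqrt (cub (τ a) (τ b) x)) :=
        continuous_const.mul (continuous_cub (τ a) (τ b)).sqrt
      have hev : ∀ᶠ x₁ in 𝓝 (x τ), |σ * Real.sqrt (cub (τ a) (τ b) x₁) - y τ| < ε / 2 := by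
        have hopen : IsOpen {x₁ : ℝ | |σ * Real.sqrt (cub (τ a) (τ b) x₁) - y τ| < ε / 2} :=
          isOpen_lt ((hcont.sub continuous_const).abs) continuous_const
        apply hopen.mem_nhds
        show |σ * Real.sqrt (cub (τ a) (τ b) (x τ)) - y τ| < ε / 2
        rw [← hyσ, sub_self, abs_zero]
        positivity
      rw [Metric.eventually_nhds_iff] at hev
      obtain ⟨η, hη, hev⟩ := hev
      refine ⟨max (e τ) (x τ - min η (ε / 2)), le_max_left _ _, ?_, ?_⟩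
      · have : 0 < min η (ε / 2) := by positivity
        exact max_lt (hx τ) (by linarith)
      · intro x₁ hx₁
        have hx₁x : x τ - min η (ε / 2) < x₁ := lt_of_le_of_lt (le_max_right _ _) hx₁.1
        have habs : |x₁ - x τ| < min η (ε / 2) := by
          rw [abs_lt]; constructor <;> linarith [hx₁.2]
        exact ⟨habs.trans_le (min_le_right _ _),
          hev (y := x₁) (by rw [Real.dist_eq]; exact habs.trans_le (min_le_left _ _))⟩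
    choose σ hσ u hu1 hu2 hu3 using hloc
    choose k₀ hk₀ using fun τ : L →+* ℝ => lev_Ioo (he τ) (hpos τ) (hd τ) (hu1 τ) (hu2 τ)
    obtain ⟨k, hk⟩ := Finite.exists_le k₀
    choose x₁ hx₁ hlev using fun τ : L →+* ℝ => hk₀ τ k (hk τ)
    have hc1 : ∀ τ : L →+* ℝ, 0 ≤ cub (τ a) (τ b) (x₁ τ) := by
      intro τ
      exact (hpos τ _ (lt_of_le_of_lt (hu1 τ) (hx₁ τ).1)).le
    have hD := claim1 k x₁ hlev (fun τ => σ τ * Real.sqrt (cub (τ a) (τ b) (x₁ τ))) (by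
      intro τ
      rw [mul_pow, hσ, Real.sq_sqrt (hc1 τ), one_mul])
    obtain ⟨X, hXF, Y, hYF, hXY, hXn, hYn⟩ := hD (ε / 2) (by positivity)
    refine ⟨X, hXF, Y, hYF, hXY, near_mono hXn ?_, near_mono hYn ?_⟩
    · intro τ
      have := (hu3 τ _ (hx₁ τ)).1
      linarith
    · intro τ
      have := (hu3 τ _ (hx₁ τ)).2
      linarith
  -- all points
  intro ε hε
  have hε2 : 0 < ε / 2 := by positivity
  choose x₁ y₁ hxy₁ hy₁ hdbl hx₁ hyy₁ using fun τ : L →+* ℝ =>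
    perturb (disc_map hdisc τ) (he τ) (hy τ) hε2
  have hD : Diag ι F a b x₁ y₁ := by
    apply diag_halve hF hLF hxy₁ hy₁
    intro Y hY
    exact claim2 _ hdbl Y hY
  obtain ⟨X, hXF, Y, hYF, hXY, hXn, hYn⟩ := hD (ε / 2) hε2
  refine ⟨X, hXF, Y, hYF, hXY, near_mono hXn ?_, near_mono hYn ?_⟩
  · intro τ
    have := hx₁ τ
    linarith
  · intro τ
    have := hyy₁ τ
    linarith

end Pool.Agent.TRS
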