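import Pool.Agent.TRS.Targets

/-!
# TRS, final assembly (helper9)
-/

set_option autoImplicit false

namespace TRS

open MeasureTheory Set Filter
open scoped ENNReal NNReal Topology
open Pool.Agent.Restr (u E E1 QQ)
open TriL (Sq n2 Mo)
open Wey (nq InD gdn)
open Wex (tent pyr ww)

/-- the modulus of continuity of `Results/MP_5ab805_an/TrilinearForm` -/
def Mod (s : ℝ) (M : ℝ≥0) (e : ℝ × ℝ) (K : ℝ × ℝ → ℂ) : Prop :=
  ∀ᵐ t : ℝ, ∀ h : ℝ, ∫⁻ r, ‖K (line e t (r + h)) - K (line e t r)‖ₑ ^ 2 ≤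
    (M : ℝ≥0∞) ^ 2 * ENNReal.ofReal (|h| ^ (2 * s))

/-- the inequality -/
def Tri (q s : ℝ) : Prop := ∃ C : ℝ≥0,
    ∀ (e : ℝ × ℝ) (a b : ℝ → ℂ) (f₁ f₂ K : ℝ × ℝ → ℂ) (M : ℝ≥0), e.1 ^ 2 + e.2 ^ 2 = 1 →
    Measurable a → Measurable b → (∀ r, ‖a r‖ ≤ 1) → (∀ r, ‖b r‖ ≤ 1) →
    InD f₁ → InD f₂ → InD K → (∀ x, ‖K x‖ ≤ 1) → 1 ≤ M → Mod s M e K →
    eLpNorm (fun ξ => E f₁ ξ * E f₂ ξ *
      E (fun x => a (x.1 * e.2 - x.2 * e.1) * b (x.1 * e.1 + x.2 * e.2) * K x) ξ)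
      (ENNReal.ofReal (q / 3)) volume ≤ C * M * eLpNorm f₁ 2 volume * eLpNorm f₂ 2 volume

theorem tri_half {q s : ℝ} (hq : 3 < q) (hq4 : q < 4) (hs : 3 * (4 - q) / (2 * q) < s)
    (hs' : s ≤ 1 / 2) : Tri q s := by
  obtain ⟨C, hC⟩ := TriL.rot q s hq hq4 hs hs'
  refine ⟨C, fun e a b f₁ f₂ K M he ha hb ha1 hb1 hf₁ hf₂ hK hK1 hM hmod => ?_⟩
  exact hC e a b he ⟨ha, ha1⟩ ⟨hb, hb1⟩ f₁ f₂ K M hf₁.1 hf₂.1 hK.1 hf₁.2 hf₂.2 hK.2 hK1 hM hmod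

theorem half_lt {q : ℝ} (hq : 3 < q) : 3 * (4 - q) / (2 * q) < 1 / 2 := by
  rw [div_lt_div_iff₀ (by linarith) (by norm_num)]
  linarith

theorem tri_suf (hSUF : T_SUF) {q s : ℝ} (hq : 3 < q) (hq4 : q < 4)
    (hs : 3 * (4 - q) / (2 * q) < s) : Tri q s := by
  rcases le_or_gt s (1 / 2) with h | h
  · exact tri_half hq hq4 hs h
  obtain ⟨C, hC⟩ := tri_half hq hq4 (half_lt hq) le_rfl
  refine ⟨2 * C, fun e a b f₁ f₂ K M he ha hb ha1 hb1 hf₁ hf₂ hK hK1 hM hmod => ?_⟩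
  have h2 : 1 ≤ 2 * M := by
    calc (1 : ℝ≥0) ≤ M := hM
      _ ≤ 2 * M := by
        rw [two_mul]
        exact le_self_add
  refine (hC e a b f₁ f₂ K (2 * M) he ha hb ha1 hb1 hf₁ hf₂ hK hK1 h2
    (hSUF s M e K h.le hM he hK hK1 hmod)).trans (le_of_eq ?_)
  push_cast
  ring

theorem tri_nec (hNEC : T_NEC) {q s : ℝ} (hq : 3 < q) (hs : 0 ≤ s) (h : Tri q s) :
    (24 - 7 * q) / (2 * q) ≤ s := by
  obtain ⟨C, hC⟩ := h
  have h1 : 4 / (q / 3) - 7 / 2 ≤ s := by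
    refine hNEC (q / 3) s (by linarith) hs ⟨C, fun f₁ f₂ K M hf₁ hf₂ hK hK1 hM hmod => ?_⟩
    have h2 := hC (0, 1) (fun _ => 1) (fun _ => 1) f₁ f₂ K M (by norm_num) measurable_const
      measurable_const (by simp) (by simp) hf₁ hf₂ hK hK1 hM (by
        refine Eventually.of_forall fun t h => ?_
        simpa [line] using hmod t h)
    simpa using h2
  have h2 : 4 / (q / 3) - 7 / 2 = (24 - 7 * q) / (2 * q) := by
    field_simp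
    ring
  linarith

theorem tri_iff (hNEC : T_NEC) (hSUF : T_SUF) {s : ℝ} (hs : 0 ≤ s) :
    (∀ q, 3 < q → q < 4 → Tri q s) ↔ 1 / 2 ≤ s := by
  constructor
  · intro h
    by_contra hlt
    rw [not_le] at hlt
    -- choose `q` close to `3`
    obtain ⟨q, h1, h2, h3⟩ : ∃ q : ℝ, 3 < q ∧ q < 4 ∧ s < (24 - 7 * q) / (2 * q) := by
      refine ⟨3 + (1 / 2 - s) / 10, by linarith, by linarith, ?_⟩
      rw [lt_div_iff₀ (by linarith)]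
      nlinarith
    have h4 := tri_nec hNEC h1 hs (h q h1 h2)
    linarith
  · intro h q h1 h2
    exact tri_suf hSUF h1 h2 ((half_lt h1).trans_le h)

end TRS
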