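import Mathlib

/-!
The doubling map on the `x`-line of a real elliptic curve `y² = x³ + a x + b`: the backward orbit of
the largest real root is dense in the half line on which the cubic is positive.
-/

open Set MeasureTheory
open scoped ENNReal

namespace Pool.Agent.TRS

/-- The cubic. -/
def cub (a b x : ℝ) : ℝ := x ^ 3 + a * x + b

/-- The numerator of the doubling map. -/
def dnum (a b x : ℝ) : ℝ := x ^ 4 - 2 * a * x ^ 2 - 8 * b * x + a ^ 2

/-- The doubling map on the `x`-coordinate. -/
noncomputable def dbl (a b x : ℝ) : ℝ := dnum a b x / (4 * cub a b x)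

/-- The numerator of the derivative of the doubling map. -/
def dder (a b x : ℝ) : ℝ :=
  (4 * x ^ 3 - 4 * a * x - 8 * b) * cub a b x - dnum a b x * (3 * x ^ 2 + a)

lemma continuous_cub (a b : ℝ) : Continuous (cub a b) := by
  unfold cub; fun_prop

lemma continuous_dnum (a b : ℝ) : Continuous (dnum a b) := by
  unfold dnum; fun_prop

lemma hasDerivAt_cub (a b x : ℝ) : HasDerivAt (cub a b) (3 * x ^ 2 + a) x := by
  have h1 : HasDerivAt (fun x : ℝ => x ^ 3) (3 * x ^ 2) x := by
    simpa using hasDerivAt_pow 3 x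
  have h2 : HasDerivAt (fun x : ℝ => a * x) a x := by
    simpa using (hasDerivAt_id x).const_mul a
  exact (h1.add h2).add_const b

lemma hasDerivAt_dnum (a b x : ℝ) :
    HasDerivAt (dnum a b) (4 * x ^ 3 - 4 * a * x - 8 * b) x := by
  have h1 : HasDerivAt (fun x : ℝ => x ^ 4) (4 * x ^ 3) x := by
    simpa using hasDerivAt_pow 4 x
  have h2 : HasDerivAt (fun x : ℝ => 2 * a * x ^ 2) (2 * a * (2 * x)) x := by
    simpa using (hasDerivAt_pow 2 x).const_mul (2 * a)
  have h3 : HasDerivAt (fun x : ℝ => 8 * b * x) (8 * b) x := by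
    simpa using (hasDerivAt_id x).const_mul (8 * b)
  have h : HasDerivAt (dnum a b) (4 * x ^ 3 - 2 * a * (2 * x) - 8 * b) x :=
    ((h1.sub h2).sub h3).add_const (a ^ 2)
  exact h.congr_deriv (by ring)

lemma hasDerivAt_dbl {a b x : ℝ} (hx : cub a b x ≠ 0) :
    HasDerivAt (dbl a b) (dder a b x / (4 * cub a b x ^ 2)) x := by
  have h4 : (4 : ℝ) * cub a b x ≠ 0 := by simpa using hx
  have h : HasDerivAt (dbl a b) (((4 * x ^ 3 - 4 * a * x - 8 * b) * (4 * cub a b x) -
      dnum a b x * (4 * (3 * x ^ 2 + a))) / (4 * cub a b x) ^ 2) x :=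
    (hasDerivAt_dnum a b x).div ((hasDerivAt_cub a b x).const_mul 4) h4
  refine h.congr_deriv ?_
  rw [div_eq_div_iff (by positivity) (by positivity)]
  unfold dder
  ring

/-- The invariance of the differential: `L'(x)² f(x) = 4 f(L(x))`. -/
lemma dder_sq (a b x : ℝ) (hx : cub a b x ≠ 0) :
    (dder a b x / (4 * cub a b x ^ 2)) ^ 2 * cub a b x = 4 * cub a b (dbl a b x) := by
  have key : dder a b x ^ 2 =
      dnum a b x ^ 3 + 16 * a * dnum a b x * cub a b x ^ 2 + 64 * b * cub a b x ^ 3 := by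
    unfold dder dnum cub; ring
  have h2 : cub a b (dbl a b x) =
      (dnum a b x ^ 3 + 16 * a * dnum a b x * cub a b x ^ 2 + 64 * b * cub a b x ^ 3) /
        (64 * cub a b x ^ 3) := by
    rw [show cub a b (dbl a b x) = dbl a b x ^ 3 + a * dbl a b x + b from rfl]
    unfold dbl
    field_simp
    ring
  rw [h2, ← key]
  field_simp
  ring

/-- The value of the doubling map minus a root is a square over `4 f`. -/
lemma dbl_sub_root {a b e x : ℝ} (he : cub a b e = 0) (hx : cub a b x ≠ 0) :
    dbl a b x - e = (x ^ 2 - 2 * e * x - 2 * e ^ 2 - a) ^ 2 / (4 * cub a b x) := by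
  unfold dbl
  rw [eq_div_iff (by simpa using hx), sub_mul, div_mul_cancel₀ _ (by simpa using hx)]
  have hb : b = - e ^ 3 - a * e := by unfold cub at he; linarith
  unfold dnum cub
  subst hb
  ring

lemma root_le_dbl {a b e x : ℝ} (he : cub a b e = 0) (hx : 0 < cub a b x) : e ≤ dbl a b x := by
  have h := dbl_sub_root he hx.ne'
  have : 0 ≤ (x ^ 2 - 2 * e * x - 2 * e ^ 2 - a) ^ 2 / (4 * cub a b x) := by positivity
  linarith

/-- There is a largest real root. -/
lemma exists_top_root (a b : ℝ) : ∃ e, cub a b e = 0 ∧ ∀ x, e < x → 0 < cub a b x := by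
  set S : Set ℝ := {x | cub a b x ≤ 0} with hS
  have hcl : IsClosed S := isClosed_le (continuous_cub a b) continuous_const
  have hne : S.Nonempty := by
    refine ⟨-(1 + |a| + |b|), ?_⟩
    show cub a b _ ≤ 0
    unfold cub
    have h1 := abs_nonneg a
    have h2 := abs_nonneg b
    have h3 := neg_abs_le a
    have h4 := le_abs_self b
    have h5 := le_abs_self a
    set t := 1 + |a| + |b| with ht
    have ht1 : 1 ≤ t := by linarith
    have : -a * t ≤ |a| * t := by
      apply mul_le_mul_of_nonneg_right _ (by linarith)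
      linarith
    have h6 : |b| ≤ |b| * t := by nlinarith
    have h7 : |a| * t + |b| * t + t = t ^ 2 := by rw [ht]; ring
    have h8 : t ^ 2 ≤ t ^ 3 := by nlinarith [sq_nonneg t]
    nlinarith
  have hbdd : ∀ x ∈ S, x ≤ 1 + |a| + |b| := by
    intro x hx
    by_contra hcon
    push Not at hcon
    have hx' : cub a b x ≤ 0 := hx
    unfold cub at hx'
    have h1 := abs_nonneg a
    have h2 := abs_nonneg b
    have h3 := neg_abs_le a
    have h4 := neg_abs_le b
    have hx1 : 1 < x := by linarith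
    have h5 : -(|a| * x) ≤ a * x := by nlinarith
    have h6 : |b| ≤ |b| * x := by nlinarith
    have h7 : (1 + |a| + |b|) * x < x * x := by nlinarith
    have h8 : x * x ≤ x ^ 3 := by nlinarith [sq_nonneg x]
    nlinarith
  have hmem : sSup S ∈ S := hcl.csSup_mem hne ⟨_, hbdd⟩
  have hpos : ∀ x, sSup S < x → 0 < cub a b x := by
    intro x hx
    by_contra hcon
    push Not at hcon
    have : x ≤ sSup S := le_csSup ⟨_, hbdd⟩ hcon
    linarith
  refine ⟨sSup S, le_antisymm hmem ?_, hpos⟩
  -- continuity from the right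
  have htend : Filter.Tendsto (cub a b) (nhdsWithin (sSup S) (Ioi (sSup S)))
      (nhds (cub a b (sSup S))) := (continuous_cub a b).continuousAt.tendsto.mono_left
        nhdsWithin_le_nhds
  refine ge_of_tendsto htend ?_
  filter_upwards [self_mem_nhdsWithin] with x hx
  exact (hpos x hx).le

/-- At a root the derivative does not vanish. -/
lemma deriv_ne_zero {a b e : ℝ} (hdisc : 4 * a ^ 3 + 27 * b ^ 2 ≠ 0) (he : cub a b e = 0) :
    3 * e ^ 2 + a ≠ 0 := by
  intro h
  apply hdisc
  have ha : a = - 3 * e ^ 2 := by linarith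
  have hb : b = - e ^ 3 - a * e := by unfold cub at he; linarith
  rw [hb, ha]
  ring

/-- The density of the invariant differential. -/
noncomputable def wt (a b x : ℝ) : ℝ≥0∞ := ENNReal.ofReal (1 / Real.sqrt (cub a b x))

lemma measurable_wt (a b : ℝ) : Measurable (wt a b) := by
  unfold wt
  exact ENNReal.measurable_ofReal.comp
    ((measurable_const.div ((continuous_cub a b).measurable.sqrt)))

lemma wt_pos {a b x : ℝ} (hx : 0 < cub a b x) : 0 < wt a b x := by
  unfold wt
  rw [ENNReal.ofReal_pos]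
  have := Real.sqrt_pos.mpr hx
  positivity

/-- A lower bound for the cubic on the half line. -/
lemma exists_lower {a b e : ℝ} (he : cub a b e = 0) (hpos : ∀ x, e < x → 0 < cub a b x)
    (hd : 3 * e ^ 2 + a ≠ 0) :
    ∃ c : ℝ, 0 < c ∧ ∀ x, e < x → c * (x - e) ≤ cub a b x ∧ c * (x - e) ^ 3 ≤ cub a b x := by
  -- `f (e + h) = h (h² + 3 e h + (3 e² + a))`
  have hf : ∀ h : ℝ, cub a b (e + h) = h * (h ^ 2 + 3 * e * h + (3 * e ^ 2 + a)) := by
    intro h
    have hb : b = - e ^ 3 - a * e := by unfold cub at he; linarith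
    unfold cub
    subst hb
    ring
  set D := 3 * e ^ 2 + a with hD
  have hq : ∀ h : ℝ, 0 < h → 0 < h ^ 2 + 3 * e * h + D := by
    intro h hh
    have h1 := hpos (e + h) (by linarith)
    rw [hf h] at h1
    exact (mul_pos_iff_of_pos_left hh).mp h1
  have hD0 : 0 ≤ D := by
    have htend : Filter.Tendsto (fun h : ℝ => h ^ 2 + 3 * e * h + D)
        (nhdsWithin 0 (Ioi 0)) (nhds ((0:ℝ) ^ 2 + 3 * e * 0 + D)) := by
      apply ContinuousAt.tendsto (f := fun h : ℝ => h ^ 2 + 3 * e * h + D) (by fun_prop) |>.mono_left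
        nhdsWithin_le_nhds
    have := ge_of_tendsto htend (b := 0) (by
      filter_upwards [self_mem_nhdsWithin] with x hx
      exact (hq x hx).le)
    simpa using this
  have hDpos : 0 < D := lt_of_le_of_ne hD0 (Ne.symm hd)
  -- minimum of `q` on `[0, R]`
  set R : ℝ := 1 + 6 * |e| with hR
  have hR1 : 1 ≤ R := by have := abs_nonneg e; linarith
  obtain ⟨m, hm, hmin⟩ := (isCompact_Icc (a := (0:ℝ)) (b := R)).exists_isMinOn
    ⟨0, by constructor <;> linarith⟩
    (f := fun h : ℝ => h ^ 2 + 3 * e * h + D) (by fun_prop)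
  have hqm : 0 < m ^ 2 + 3 * e * m + D := by
    rcases hm.1.eq_or_lt with h0 | h0
    · rw [← h0]; simpa using hDpos
    · exact hq m h0
  set c0 := m ^ 2 + 3 * e * m + D with hc0
  refine ⟨min (1/2) (c0 / R ^ 2), by positivity, ?_⟩
  intro x hx
  obtain ⟨h, rfl⟩ : ∃ h, x = e + h := ⟨x - e, by ring⟩
  have hh : 0 < h := by linarith
  have hxe : e + h - e = h := by ring
  rw [hxe, hf h]
  set c := min (1/2) (c0 / R ^ 2) with hc
  have hcpos : 0 < c := by rw [hc]; positivity
  have hc1 : c ≤ 1/2 := min_le_left _ _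
  have hc2 : c * R ^ 2 ≤ c0 := by
    have : c ≤ c0 / R ^ 2 := min_le_right _ _
    rwa [le_div_iff₀ (by positivity)] at this
  -- it suffices to bound q below by c * max 1 h^2
  suffices hkey : c ≤ h ^ 2 + 3 * e * h + D ∧ c * h ^ 2 ≤ h ^ 2 + 3 * e * h + D by
    constructor
    · rw [mul_comm c h]; exact mul_le_mul_of_nonneg_left hkey.1 hh.le
    · have : c * h ^ 3 = h * (c * h ^ 2) := by ring
      rw [this]; exact mul_le_mul_of_nonneg_left hkey.2 hh.le
  rcases le_or_gt h R with hle | hgt
  · have h1 : c0 ≤ h ^ 2 + 3 * e * h + D := hmin ⟨hh.le, hle⟩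
    constructor
    · have hR2 : 1 ≤ R ^ 2 := by nlinarith
      have : c ≤ c * R ^ 2 := by nlinarith
      linarith
    · have : c * h ^ 2 ≤ c * R ^ 2 := by
        apply mul_le_mul_of_nonneg_left _ hcpos.le
        exact pow_le_pow_left₀ hh.le hle 2
      linarith
  · have h1 : -(3 * |e| * h) ≤ 3 * e * h := by
      have := neg_abs_le e
      nlinarith
    have h2 : 6 * |e| * h ≤ h ^ 2 := by
      have h3 : 6 * |e| ≤ h := by linarith
      nlinarith
    have h3 : h ^ 2 / 2 ≤ h ^ 2 + 3 * e * h + D := by nlinarith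
    have h4 : 1 ≤ h ^ 2 := by nlinarith
    constructor
    · nlinarith
    · nlinarith

end Pool.Agent.TRS
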