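import Pool.Agent.TRS.Basic

/-!
The algebraic numbers whose minimal polynomial has solvable Galois group form a field which is
closed under radicals (the proofs follow Mathlib's `AbelRuffini`).
-/

open Polynomial IntermediateField

namespace Pool.Agent.TRS

lemma isInt (z : Qbar) : IsIntegral ℚ z := by
  have h := ((AlgebraicClosure.isAlgebraic ℚ).isAlgebraic z).isIntegral
  have e : (DivisionRing.toRatAlgebra : Algebra ℚ Qbar) = AlgebraicClosure.instAlgebra ℚ :=
    Subsingleton.elim _ _
  rw [e]
  exact h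

lemma solv_rad {x : Qbar} {n : ℕ} (hn : n ≠ 0)
    (hα : Group.IsSolvable (minpoly ℚ (x ^ n)).Gal) : Group.IsSolvable (minpoly ℚ x).Gal := by
  let p := minpoly ℚ (x ^ n)
  have hp : p.comp (X ^ n) ≠ 0 := by
    intro h
    rcases comp_eq_zero_iff.mp h with h' | h'
    · exact minpoly.ne_zero (isInt (x ^ n)) h'
    · exact hn (by rw [← @natDegree_C ℚ, ← h'.2, natDegree_X_pow])
  apply gal_isSolvable_of_splits
  · exact ⟨(SplittingField.splits (p.comp (X ^ n))).of_dvd (map_ne_zero hp)
      ((map_dvd_map' _).mpr (minpoly.dvd ℚ x (by rw [aeval_comp, aeval_X_pow, minpoly.aeval])))⟩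
  · refine gal_isSolvable_tower p (p.comp (X ^ n)) ?_ hα ?_
    · exact Gal.splits_in_splittingField_of_comp _ _ (by rwa [natDegree_X_pow])
    · obtain ⟨s, hs⟩ := splits_iff_exists_multiset.1 (SplittingField.splits p)
      rw [map_comp, Polynomial.map_pow, map_X, hs, mul_comp, C_comp]
      apply gal_mul_isSolvable (gal_C_isSolvable _)
      rw [multiset_prod_comp]
      apply gal_prod_isSolvable
      intro q hq
      rw [Multiset.mem_map] at hq
      obtain ⟨q, hq, rfl⟩ := hq
      rw [Multiset.mem_map] at hq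
      obtain ⟨q, _, rfl⟩ := hq
      rw [sub_comp, X_comp, C_comp]
      exact gal_X_pow_sub_C_isSolvable n q

lemma solv_adjoin {x y z : Qbar}
    (hx' : Group.IsSolvable (minpoly ℚ x).Gal) (hy' : Group.IsSolvable (minpoly ℚ y).Gal)
    (hz' : z ∈ ℚ⟮x, y⟯) : Group.IsSolvable (minpoly ℚ z).Gal := by
  let p := minpoly ℚ x
  let q := minpoly ℚ y
  have hpq := SplittingField.splits (p * q)
  rw [Polynomial.map_mul,
    splits_mul (map_ne_zero (minpoly.ne_zero (isInt x)))
      (map_ne_zero (minpoly.ne_zero (isInt y)))] at hpq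
  have f : ↥ℚ⟮x, y⟯ →ₐ[ℚ] (p * q).SplittingField :=
    Classical.choice <| nonempty_algHom_adjoin_of_splits <| by
      rintro a (rfl | rfl)
      · exact ⟨isInt _, hpq.1⟩
      · exact ⟨isInt _, hpq.2⟩
  have key : minpoly ℚ z = minpoly ℚ (f ⟨z, hz'⟩) := by
    refine minpoly.eq_of_irreducible_of_monic
      (minpoly.irreducible (isInt z)) ?_
      (minpoly.monic (isInt z))
    rw [aeval_algHom_apply, map_eq_zero]
    apply (algebraMap (↥ℚ⟮x, y⟯) Qbar).injective
    simp [← aeval_algebraMap_apply]
  rw [key]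
  refine gal_isSolvable_of_splits ⟨Normal.splits ?_ (f ⟨z, hz'⟩)⟩ (gal_mul_isSolvable hx' hy')
  infer_instance

/-- The field of the algebraic numbers with solvable Galois group. -/
noncomputable def solv : IntermediateField ℚ Qbar where
  carrier := {z | Group.IsSolvable (minpoly ℚ z).Gal}
  mul_mem' := by
    intro x y hx hy
    refine solv_adjoin hx hy (mul_mem ?_ ?_) <;> apply subset_adjoin <;> simp
  add_mem' := by
    intro x y hx hy
    refine solv_adjoin hx hy (add_mem ?_ ?_) <;> apply subset_adjoin <;> simp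
  algebraMap_mem' := by
    intro r
    show Group.IsSolvable (minpoly ℚ (algebraMap ℚ Qbar r)).Gal
    rw [minpoly.eq_X_sub_C Qbar]
    infer_instance
  inv_mem' := by
    intro x hx
    refine solv_adjoin hx hx (inv_mem ?_)
    apply subset_adjoin
    simp

lemma mem_solv {z : Qbar} : z ∈ solv ↔ Group.IsSolvable (minpoly ℚ z).Gal := Iff.rfl

lemma solv_two (z : Qbar) (h : z ^ 2 ∈ solv) : z ∈ solv := solv_rad (n := 2) (by norm_num) h

lemma solv_three (z : Qbar) (h : z ^ 3 ∈ solv) : z ∈ solv := solv_rad (n := 3) (by norm_num) h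

end Pool.Agent.TRS
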