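import Pool.Agent.TRS.Roots
import Pool.Agent.TRS.Solv

/-!
Points over the totally real solvable numbers on coverings of products of elliptic curves.
-/

open Set Polynomial

namespace Pool.Agent.TRS

/-- The totally real algebraic numbers with solvable Galois group. -/
def KK : Set Qbar :=
  {z | (∀ φ : Qbar →+* ℂ, (φ z).im = 0) ∧ Group.IsSolvable (minpoly ℚ z).Gal}

/-- The index set of the coordinates: `r` coordinates `x`, `r` coordinates `y` and `n` free
coordinates. -/
abbrev Idx (r n : ℕ) : Type := Fin r ⊕ Fin r ⊕ Fin n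

/-- A product of `r` elliptic curves `y² = x³ + a x + b` over `L` and an affine space of dimension
`n`, and `m` monic polynomials of degree at most four in one variable whose coefficients are
polynomials over `L` in the coordinates of the product. -/
structure Cov (L : Type) [Field L] (r n m : ℕ) where
  /-- the coefficients `a` -/
  a : Fin r → L
  /-- the coefficients `b` -/
  b : Fin r → L
  disc : ∀ i, 4 * a i ^ 3 + 27 * b i ^ 2 ≠ 0
  /-- the polynomials of the covering -/
  G : Fin m → Polynomial (MvPolynomial (Idx r n) L)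
  monic : ∀ j, (G j).Monic
  deg : ∀ j, (G j).natDegree ≤ 4

section

variable {L : Type} [Field L] {r n m : ℕ} {A : Type} [Field A]

/-- The `x` and `y` coordinates of `P` satisfy the equations of the elliptic curves, with the
coefficients mapped by `σ`. -/
def On (D : Cov L r n m) (σ : L →+* A) (P : Idx r n → A) : Prop :=
  ∀ i : Fin r, P (Sum.inr (Sum.inl i)) ^ 2 =
    P (Sum.inl i) ^ 3 + σ (D.a i) * P (Sum.inl i) + σ (D.b i)

/-- The `j`-th covering polynomial at the point `P`, with the scalars mapped by `σ`. -/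
noncomputable def Fib (D : Cov L r n m) (σ : L →+* A) (P : Idx r n → A) (j : Fin m) :
    Polynomial A :=
  (D.G j).map (MvPolynomial.eval₂Hom σ P)

/-- All covering polynomials have as many distinct real roots at `p` as their degree. -/
def RealFib (D : Cov L r n m) (τ : L →+* ℝ) (p : Idx r n → ℝ) : Prop :=
  ∀ j, (Fib D τ p j).roots.toFinset.card = (Fib D τ p j).natDegree

end

/-- The restriction of a complex embedding to a totally real field. -/
lemma exists_restrict {L : Type} [Field L] {ι : L →+* Qbar}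
    (hL : ∀ w : L, ∀ φ : Qbar →+* ℂ, (φ (ι w)).im = 0) (φ : Qbar →+* ℂ) :
    ∃ τ : L →+* ℝ, Ext ι τ φ := by
  refine ⟨{ toFun := fun w => (φ (ι w)).re
            map_one' := by simp
            map_mul' := ?_
            map_zero' := by simp
            map_add' := ?_ }, ?_⟩
  · intro x y
    have hx := hL x φ
    show (φ (ι (x * y))).re = (φ (ι x)).re * (φ (ι y)).re
    rw [map_mul, map_mul, Complex.mul_re, hx]
    ring
  · intro x y
    show (φ (ι (x + y))).re = (φ (ι x)).re + (φ (ι y)).re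
    rw [map_add, map_add, Complex.add_re]
  · intro w
    show φ (ι w) = (((φ (ι w)).re : ℝ) : ℂ)
    apply Complex.ext
    · simp
    · simp [hL w φ]

/-- The main theorem. -/
theorem main (L : Type) [Field L] [NumberField L] (ι : L →+* Qbar) (hL : ∀ w, ι w ∈ KK)
    (r n m : ℕ) (D : Cov L r n m) (p : (L →+* ℝ) → Idx r n → ℝ)
    (hp : ∀ τ, On D τ (p τ)) (hr : ∀ τ, RealFib D τ (p τ)) (ε : ℝ) (hε : 0 < ε) :
    ∃ P : Idx r n → Qbar, On D ι P ∧ (∀ k, P k ∈ KK) ∧
      (∀ j Z, (Fib D ι P j).IsRoot Z → Z ∈ KK) ∧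
      ∀ (τ : L →+* ℝ) (φ : Qbar →+* ℂ), Ext ι τ φ → (∀ k, ‖φ (P k) - p τ k‖ < ε) ∧
        ∀ (j : Fin m) (ρ : ℝ), (Fib D τ (p τ) j).IsRoot ρ →
          ∃ Z, (Fib D ι P j).IsRoot Z ∧ ‖φ Z - ρ‖ < ε := by
  have hLS : ∀ w : L, ι w ∈ solv := fun w => (hL w).2
  have hLr : ∀ w : L, ∀ φ : Qbar →+* ℂ, (φ (ι w)).im = 0 := fun w => (hL w).1
  have hcard : ∀ (j : Fin m) (τ : L →+* ℝ), (spc τ (p τ) (D.G j)).roots.toFinset.card =
      (D.G j).natDegree := by
    intro j τ
    have h := hr τ j
    have hd : (Fib D τ (p τ) j).natDegree = (D.G j).natDegree := (D.monic j).natDegree_map _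
    rw [hd] at h
    exact h
  choose δ hδ hcov using fun j : Fin m => roots_cover hLS solv_two solv_three (D.monic j)
    (D.deg j) p (hcard j) hε
  obtain ⟨δ₀, hδ₀, hδle⟩ := exists_pos_le hδ
  have hη : 0 < min ε δ₀ := by positivity
  -- the points on the elliptic curves
  have hcurve : ∀ i : Fin r, Diag ι solv (D.a i) (D.b i) (fun τ => p τ (Sum.inl i))
      (fun τ => p τ (Sum.inr (Sum.inl i))) :=
    fun i => diag_all solv_two hLS (D.disc i) (fun τ => hp τ i)
  choose X hXF Y hYF hXY hXn hYn using fun i => hcurve i (min ε δ₀) hη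
  -- the free coordinates
  have hfree : ∀ l : Fin n, ∃ t : L, ∀ τ : L →+* ℝ,
      |τ t - p τ (Sum.inr (Sum.inr l))| < min ε δ₀ := by
    intro l
    obtain ⟨t, ht⟩ := exists_mem_open (L := L)
      (fun τ => Metric.ball (p τ (Sum.inr (Sum.inr l))) (min ε δ₀))
      (fun τ => Metric.isOpen_ball)
      (fun τ => ⟨p τ (Sum.inr (Sum.inr l)), Metric.mem_ball_self hη⟩)
    refine ⟨t, fun τ => ?_⟩
    have := ht τ
    rwa [Metric.mem_ball, Real.dist_eq] at this
  choose t ht using hfree
  set P : Idx r n → Qbar := Sum.elim X (Sum.elim Y (fun l => ι (t l))) with hP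
  have hPn : ∀ k, Near ι (P k) (fun τ : L →+* ℝ => p τ k) (min ε δ₀) := by
    rintro (i | i | l)
    · exact hXn i
    · exact hYn i
    · exact near_mem (ht l)
  have hPF : ∀ k, P k ∈ solv := by
    rintro (i | i | l)
    · exact hXF i
    · exact hYF i
    · exact hLS (t l)
  have hPn' : ∀ j k, Near ι (P k) (fun τ : L →+* ℝ => p τ k) (δ j) := by
    intro j k
    refine near_mono (hPn k) (fun τ => ?_)
    rw [sub_self, abs_zero, zero_add]
    exact (min_le_right _ _).trans (hδle j)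
  have hreal : ∀ (z : Qbar), (∀ (τ : L →+* ℝ) (φ : Qbar →+* ℂ), Ext ι τ φ →
      ∃ q : ℝ, φ z = (q : ℂ)) → ∀ φ : Qbar →+* ℂ, (φ z).im = 0 := by
    intro z hz φ
    obtain ⟨τ, hτ⟩ := exists_restrict hLr φ
    obtain ⟨q, hq⟩ := hz τ φ hτ
    rw [hq]
    simp
  refine ⟨P, hXY, ?_, ?_, ?_⟩
  · intro k
    refine ⟨hreal _ fun τ φ hτ => ?_, hPF k⟩
    obtain ⟨q, hq, -⟩ := hPn k τ φ hτ
    exact ⟨q, hq⟩
  · intro j Z hZ
    obtain ⟨h1, h2⟩ := (hcov j P hPF (hPn' j)).1 Z hZ
    refine ⟨hreal _ fun τ φ hτ => ?_, h1⟩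
    obtain ⟨q, hq, -⟩ := h2 τ φ hτ
    exact ⟨q, hq⟩
  · intro τ φ hτ
    refine ⟨?_, ?_⟩
    · intro k
      obtain ⟨q, hq, hq2⟩ := hPn k τ φ hτ
      rw [hq, ← Complex.ofReal_sub, Complex.norm_real]
      exact hq2.trans_le (min_le_left _ _)
    · intro j ρ hρ
      exact (hcov j P hPF (hPn' j)).2 τ φ hτ ρ hρ

end Pool.Agent.TRS
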