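import Pool.Agent.TRS.Basic

/-!
Fields closed under square roots and cube roots (in an algebraically closed field of
characteristic zero) contain the roots of their polynomials of degree at most four.
-/

open Set Polynomial

namespace Pool.Agent.TRS

section

variable {F : IntermediateField ℚ Qbar}

/-- If the sum and the product of two elements lie in `F`, so do the elements. -/
lemma pair_mem (h2 : ∀ z : Qbar, z ^ 2 ∈ F → z ∈ F) {u v : Qbar} (hs : u + v ∈ F)
    (hp : u * v ∈ F) : u ∈ F := by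
  have hd : u - v ∈ F := by
    apply h2
    have : (u - v) ^ 2 = (u + v) ^ 2 - ((4 : ℕ) : Qbar) * (u * v) := by push_cast; ring
    rw [this]
    exact sub_mem (pow_mem hs 2) (mul_mem (ofNat_mem 4) hp)
  have : u = ((u + v) + (u - v)) / ((2 : ℕ) : Qbar) := by push_cast; ring
  rw [this]
  exact div_mem (add_mem hs hd) (ofNat_mem 2)

/-- A primitive cube root of unity in `F`. -/
lemma exists_omega (h2 : ∀ z : Qbar, z ^ 2 ∈ F → z ∈ F) : ∃ w ∈ F, w ^ 2 + w + 1 = 0 := by
  obtain ⟨s, hs⟩ := IsAlgClosed.exists_pow_nat_eq (-3 : Qbar) (n := 2) (by norm_num)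
  have hsF : s ∈ F := by
    apply h2
    rw [hs]
    exact_mod_cast neg_mem (ofNat_mem (F := F) 3)
  refine ⟨(-1 + s) / 2, ?_, ?_⟩
  · have h1 : (1 : Qbar) ∈ F := one_mem F
    have h3 := ofNat_mem (F := F) 2
    push_cast at h3
    exact div_mem (add_mem (neg_mem h1) hsF) h3
  · have : ((-1 + s) / 2) ^ 2 + (-1 + s) / 2 + 1 = (s ^ 2 + 3) / 4 := by ring
    rw [this, hs]
    norm_num

/-- Cubics. -/
lemma cubic_mem (h2 : ∀ z : Qbar, z ^ 2 ∈ F → z ∈ F) (h3 : ∀ z : Qbar, z ^ 3 ∈ F → z ∈ F)
    {x y z : Qbar} (e1 : x + y + z ∈ F) (e2 : x * y + y * z + z * x ∈ F) (e3 : x * y * z ∈ F) :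
    x ∈ F := by
  obtain ⟨w, hw, hw0⟩ := exists_omega h2
  have hw2 : w ^ 2 = -w - 1 := by linear_combination hw0
  have hw3 : w ^ 3 = 1 := by
    have : w ^ 3 = w * w ^ 2 := by ring
    rw [this, hw2]
    linear_combination -hw0
  set s := x + y + z with hs
  set p := x * y + y * z + z * x with hp
  set r := x * y * z with hr
  set u := x + w * y + w ^ 2 * z with hu
  set v := x + w ^ 2 * y + w * z with hv
  have huv : u * v = s ^ 2 - ((3 : ℕ) : Qbar) * p := by
    rw [hu, hv, hs, hp]
    push_cast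
    have h4 : w ^ 4 = w := by
      have : w ^ 4 = w * w ^ 3 := by ring
      rw [this, hw3, mul_one]
    linear_combination (y ^ 2 + z ^ 2 + y * z * w ) * hw3 + (x * y + x * z + y * z) * hw0
  have hsum : u ^ 3 + v ^ 3 = ((2 : ℕ) : Qbar) * s ^ 3 - ((9 : ℕ) : Qbar) * s * p +
      ((27 : ℕ) : Qbar) * r := by
    have hadd : u + v = 3 * x - s := by
      rw [hu, hv, hs]
      linear_combination (y + z) * hw0
    have h : u ^ 3 + v ^ 3 = (u + v) ^ 3 - 3 * (u * v) * (u + v) := by ring
    rw [h, huv, hadd, hs, hp, hr]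
    push_cast
    ring
  have huvF : u * v ∈ F := by
    rw [huv]
    exact sub_mem (pow_mem e1 2) (mul_mem (ofNat_mem 3) e2)
  have hsumF : u ^ 3 + v ^ 3 ∈ F := by
    rw [hsum]
    exact add_mem (sub_mem (mul_mem (ofNat_mem 2) (pow_mem e1 3))
      (mul_mem (mul_mem (ofNat_mem 9) e1) e2)) (mul_mem (ofNat_mem 27) e3)
  have hprodF : u ^ 3 * v ^ 3 ∈ F := by
    rw [← mul_pow]
    exact pow_mem huvF 3
  have huF : u ∈ F := h3 u (pair_mem h2 hsumF hprodF)
  have hvF : v ∈ F := h3 v (pair_mem h2 (by rw [add_comm]; exact hsumF)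
    (by rw [mul_comm]; exact hprodF))
  have hx : x = (s + u + v) / ((3 : ℕ) : Qbar) := by
    rw [eq_div_iff (by norm_num)]
    rw [hs, hu, hv]
    push_cast
    linear_combination (-(y + z)) * hw0
  rw [hx]
  exact div_mem (add_mem (add_mem e1 huF) hvF) (ofNat_mem 3)

/-- Quartics. -/
lemma quartic_mem (h2 : ∀ z : Qbar, z ^ 2 ∈ F → z ∈ F) (h3 : ∀ z : Qbar, z ^ 3 ∈ F → z ∈ F)
    {x y z t : Qbar} (e1 : x + y + z + t ∈ F)
    (e2 : x * y + x * z + x * t + y * z + y * t + z * t ∈ F)
    (e3 : x * y * z + x * y * t + x * z * t + y * z * t ∈ F) (e4 : x * y * z * t ∈ F) :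
    x ∈ F := by
  set s1 := x + y + z + t with hs1
  set s2 := x * y + x * z + x * t + y * z + y * t + z * t with hs2
  set s3 := x * y * z + x * y * t + x * z * t + y * z * t with hs3
  set s4 := x * y * z * t with hs4
  have hth : x * y + z * t ∈ F := by
    apply cubic_mem h2 h3 (x := x * y + z * t) (y := x * z + y * t) (z := x * t + y * z)
    · have : x * y + z * t + (x * z + y * t) + (x * t + y * z) = s2 := by rw [hs2]; ring
      rw [this]; exact e2
    · have : (x * y + z * t) * (x * z + y * t) + (x * z + y * t) * (x * t + y * z) +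
          (x * t + y * z) * (x * y + z * t) = s1 * s3 - ((4 : ℕ) : Qbar) * s4 := by
        rw [hs1, hs3, hs4]; push_cast; ring
      rw [this]
      exact sub_mem (mul_mem e1 e3) (mul_mem (ofNat_mem 4) e4)
    · have : (x * y + z * t) * (x * z + y * t) * (x * t + y * z) =
          s1 ^ 2 * s4 + s3 ^ 2 - ((4 : ℕ) : Qbar) * s2 * s4 := by
        rw [hs1, hs2, hs3, hs4]; push_cast; ring
      rw [this]
      exact sub_mem (add_mem (mul_mem (pow_mem e1 2) e4) (pow_mem e3 2))
        (mul_mem (mul_mem (ofNat_mem 4) e2) e4)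
  have hxy : x + y ∈ F := by
    apply pair_mem h2 (v := z + t)
    · have : x + y + (z + t) = s1 := by rw [hs1]; ring
      rw [this]; exact e1
    · have : (x + y) * (z + t) = s2 - (x * y + z * t) := by rw [hs2]; ring
      rw [this]; exact sub_mem e2 hth
  have hxy' : x * y ∈ F := by
    apply pair_mem h2 (v := z * t) hth
    have : x * y * (z * t) = s4 := by rw [hs4]; ring
    rw [this]; exact e4
  exact pair_mem h2 hxy hxy'

end

end Pool.Agent.TRS
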