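import Pool.Agent.TRS.Quartic
import Pool.Agent.TRS.Diag

/-!
Roots of monic polynomials of degree at most four whose coefficients are polynomials in the
coordinates of a point which approximates a family of real points.
-/

open Set Filter Topology Polynomial

namespace Pool.Agent.TRS

lemma coeff_quartic (a b c d : Qbar) (H : Polynomial Qbar)
    (h : H = X ^ 4 - C a * X ^ 3 + C b * X ^ 2 - C c * X + C d) :
    H.coeff 3 = -a ∧ H.coeff 2 = b ∧ H.coeff 1 = -c ∧ H.coeff 0 = d := by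
  subst h
  refine ⟨?_, ?_, ?_, ?_⟩ <;> simp [coeff_X, coeff_C, coeff_X_pow]

/-- A root of a monic polynomial of degree at most four over `F` lies in `F`. -/
lemma root_mem {F : IntermediateField ℚ Qbar} (h2 : ∀ z : Qbar, z ^ 2 ∈ F → z ∈ F)
    (h3 : ∀ z : Qbar, z ^ 3 ∈ F → z ∈ F) {G : Polynomial Qbar} (hG : G.Monic)
    (hdeg : G.natDegree ≤ 4) (hF : ∀ i, G.coeff i ∈ F) {x : Qbar} (hx : G.IsRoot x) : x ∈ F := by
  set H : Polynomial Qbar := X ^ (4 - G.natDegree) * G with hH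
  have hHm : H.Monic := (monic_X_pow _).mul hG
  have hHd : H.natDegree = 4 := by
    rw [hH, Monic.natDegree_mul (monic_X_pow _) hG, natDegree_X_pow]
    omega
  have hHF : ∀ i, H.coeff i ∈ F := by
    intro i
    rw [hH, coeff_X_pow_mul']
    split_ifs
    · exact hF _
    · exact zero_mem F
  have hH0 : H ≠ 0 := hHm.ne_zero
  have hxr : x ∈ H.roots := by
    rw [mem_roots hH0]
    rw [IsRoot.def, hH, eval_mul, hx.eq_zero, mul_zero]
  have hspl : H.Splits := IsAlgClosed.splits H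
  have hcard : H.roots.card = 4 := by rw [← hspl.natDegree_eq_card_roots, hHd]
  obtain ⟨R, hR⟩ := Multiset.exists_cons_of_mem hxr
  have hRc : R.card = 3 := by
    rw [hR, Multiset.card_cons] at hcard
    omega
  obtain ⟨y, z, t, rfl⟩ := Multiset.card_eq_three.mp hRc
  have hprod : H = (X - C x) * ((X - C y) * ((X - C z) * (X - C t))) := by
    have h := hspl.eq_prod_roots_of_monic hHm
    rw [hR] at h
    simpa using h
  have hexp : H = X ^ 4 - C (x + y + z + t) * X ^ 3 +
      C (x * y + x * z + x * t + y * z + y * t + z * t) * X ^ 2 -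
      C (x * y * z + x * y * t + x * z * t + y * z * t) * X + C (x * y * z * t) := by
    rw [hprod]
    simp only [C_add, C_mul]
    ring
  obtain ⟨c3, c2, c1, c0⟩ := coeff_quartic _ _ _ _ H hexp
  apply quartic_mem h2 h3 (x := x) (y := y) (z := z) (t := t)
  · have := neg_mem (hHF 3)
    rwa [c3, neg_neg] at this
  · have := hHF 2
    rwa [c2] at this
  · have := neg_mem (hHF 1)
    rwa [c1, neg_neg] at this
  · have := hHF 0
    rwa [c0] at this

/-- The polynomial in one variable obtained by applying `σ` to the scalars and substituting the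
point `v` in the coefficients. -/
noncomputable def spc {κ k A : Type*} [CommRing k] [CommRing A] (σ : k →+* A) (v : κ → A)
    (G : Polynomial (MvPolynomial κ k)) : Polynomial A :=
  G.map (MvPolynomial.eval₂Hom σ v)

section

variable {κ : Type*}

lemma spc_monic {k A : Type*} [CommRing k] [CommRing A] (σ : k →+* A) (v : κ → A)
    {G : Polynomial (MvPolynomial κ k)} (hG : G.Monic) : (spc σ v G).Monic := hG.map _

lemma spc_natDegree {k A : Type*} [CommRing k] [CommRing A] [Nontrivial A] (σ : k →+* A)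
    (v : κ → A) {G : Polynomial (MvPolynomial κ k)} (hG : G.Monic) :
    (spc σ v G).natDegree = G.natDegree :=
  hG.natDegree_map _

lemma spc_coeff {k A : Type*} [CommRing k] [CommRing A] (σ : k →+* A) (v : κ → A)
    (G : Polynomial (MvPolynomial κ k)) (i : ℕ) :
    (spc σ v G).coeff i = MvPolynomial.eval₂ σ v (G.coeff i) := by
  unfold spc
  rw [coeff_map]
  rfl

lemma eval₂_mem {L : Type} [Field L] {ι : L →+* Qbar} {F : IntermediateField ℚ Qbar}
    (hLF : ∀ w : L, ι w ∈ F) (P : κ → Qbar)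
    (hP : ∀ k, P k ∈ F) (g : MvPolynomial κ L) :
    MvPolynomial.eval₂ ι P g ∈ F := by
  induction g using MvPolynomial.induction_on with
  | C a =>
    rw [MvPolynomial.eval₂_C]
    exact hLF a
  | add p q hp hq =>
    rw [MvPolynomial.eval₂_add]
    exact add_mem hp hq
  | mul_X p n hp =>
    rw [MvPolynomial.eval₂_mul, MvPolynomial.eval₂_X]
    exact mul_mem hp (hP n)

lemma spc_conj {L : Type} [Field L] {ι : L →+* Qbar} (P : κ → Qbar) (v : κ → ℝ) (τ : L →+* ℝ)
    (φ : Qbar →+* ℂ) (hτ : Ext ι τ φ) (h : ∀ k, φ (P k) = (v k : ℂ))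
    (G : Polynomial (MvPolynomial κ L)) :
    (spc ι P G).map φ = (spc τ v G).map (algebraMap ℝ ℂ) := by
  unfold spc
  rw [Polynomial.map_map, Polynomial.map_map]
  congr 1
  apply MvPolynomial.ringHom_ext
  · intro r
    simp only [RingHom.comp_apply, MvPolynomial.coe_eval₂Hom, MvPolynomial.eval₂_C]
    exact hτ r
  · intro i
    simp only [RingHom.comp_apply, MvPolynomial.coe_eval₂Hom, MvPolynomial.eval₂_X]
    exact h i

lemma continuous_eval₂ {k : Type*} [CommRing k] (σ : k →+* ℝ) (g : MvPolynomial κ k) :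
    Continuous (fun v : κ → ℝ => MvPolynomial.eval₂ σ v g) := by
  have : (fun v : κ → ℝ => MvPolynomial.eval₂ σ v g) =
      fun v => MvPolynomial.eval v (MvPolynomial.map σ g) := by
    funext v
    rw [MvPolynomial.eval₂_eq_eval_map]
  rw [this]
  exact MvPolynomial.continuous_eval _

lemma continuous_spc_eval {k : Type*} [CommRing k] (σ : k →+* ℝ)
    (G : Polynomial (MvPolynomial κ k)) (t : ℝ) :
    Continuous (fun v : κ → ℝ => (spc σ v G).eval t) := by
  have : (fun v : κ → ℝ => (spc σ v G).eval t) =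
      fun v : κ → ℝ => ∑ i ∈ Finset.range (G.natDegree + 1),
        MvPolynomial.eval₂ σ v (G.coeff i) * t ^ i := by
    funext v
    rw [eval_eq_sum_range' (n := G.natDegree + 1)]
    · simp only [spc_coeff]
    · exact Nat.lt_succ_of_le natDegree_map_le
  rw [this]
  exact continuous_finsetSum _ fun i _ => (continuous_eval₂ σ (G.coeff i)).mul continuous_const

/-- Continuity of the roots of totally real polynomials with simple roots. -/
lemma root_near [Fintype κ] {k : Type*} [CommRing k] (σ : k →+* ℝ)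
    {G : Polynomial (MvPolynomial κ k)} (hG : G.Monic) (p : κ → ℝ)
    (hcard : (spc σ p G).roots.toFinset.card = G.natDegree) {ε : ℝ} (hε : 0 < ε) :
    ∃ δ > 0, ∀ v : κ → ℝ, dist v p < δ → ∃ f : ℝ → ℝ,
      (∀ ρ ∈ (spc σ p G).roots, |f ρ - ρ| < ε ∧ (spc σ v G).IsRoot (f ρ)) ∧
      ∀ w : ℂ, ((spc σ v G).map (algebraMap ℝ ℂ)).IsRoot w →
        ∃ ρ ∈ (spc σ p G).roots, w = (f ρ : ℂ) := by
  classical
  set R := (spc σ p G).roots.toFinset with hR
  have hp0 : spc σ p G ≠ 0 := (spc_monic σ p hG).ne_zero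
  -- the separation of the roots
  obtain ⟨η, hη, hηε, hsep⟩ : ∃ η > 0, η ≤ ε ∧ ∀ ρ ∈ R, ∀ ρ' ∈ R, ρ ≠ ρ' →
      2 * η < |ρ - ρ'| := by
    have hev : ∀ᶠ η in 𝓝[>] (0:ℝ), ∀ ρ ∈ R, ∀ ρ' ∈ R, ρ ≠ ρ' → 2 * η < |ρ - ρ'| := by
      rw [Filter.eventually_all_finset]
      intro ρ hρ
      rw [Filter.eventually_all_finset]
      intro ρ' hρ'
      by_cases hne : ρ = ρ'
      · exact Eventually.of_forall fun η h => absurd hne h
      · have hpos : 0 < |ρ - ρ'| := abs_pos.mpr (sub_ne_zero.mpr hne)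
        have : ∀ᶠ η in 𝓝 (0:ℝ), 2 * η < |ρ - ρ'| := by
          apply ContinuousAt.eventually_lt (by fun_prop) continuousAt_const
          simpa using hpos
        filter_upwards [nhdsWithin_le_nhds this] with η h1 _
        exact h1
    have hev2 : ∀ᶠ η in 𝓝[>] (0:ℝ), η ≤ ε := by
      filter_upwards [nhdsWithin_le_nhds (Iio_mem_nhds hε)] with η h
      exact le_of_lt h
    obtain ⟨η, ⟨h1, h2⟩, h3⟩ := ((hev.and hev2).and self_mem_nhdsWithin).exists
    exact ⟨η, h3, h2, h1⟩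
  -- sign changes
  have hnodup : (spc σ p G).roots.Nodup := by
    have h1 : (spc σ p G).roots.card ≤ G.natDegree := by
      rw [← spc_natDegree σ p hG]
      exact card_roots' _
    have h2 : R.card ≤ (spc σ p G).roots.card :=
      Multiset.toFinset_card_le _
    have h3 : (spc σ p G).roots.dedup.card = (spc σ p G).roots.card := by
      have h4 : R.card = (spc σ p G).roots.dedup.card := rfl
      omega
    rw [← Multiset.eq_of_le_of_card_le (Multiset.dedup_le _) h3.ge]
    exact Multiset.nodup_dedup _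
  have hsign : ∀ ρ ∈ R, ∃ t t' : ℝ, |t - ρ| < η ∧ |t' - ρ| < η ∧ 0 < (spc σ p G).eval t ∧
      (spc σ p G).eval t' < 0 := by
    intro ρ hρ
    have hρ' : ρ ∈ (spc σ p G).roots := Multiset.mem_toFinset.mp hρ
    have hroot : (spc σ p G).IsRoot ρ := (mem_roots hp0).mp hρ'
    have hder : (spc σ p G).derivative.eval ρ ≠ 0 := by
      intro h0
      have h1 : 1 < (spc σ p G).rootMultiplicity ρ :=
        (one_lt_rootMultiplicity_iff_isRoot hp0).mpr ⟨hroot, h0⟩
      have h2 := Multiset.nodup_iff_count_le_one.mp hnodup ρ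
      rw [count_roots] at h2
      omega
    obtain ⟨-, t, ht1, ht2, -⟩ := exists_open_pos (f := fun x => (spc σ p G).eval x)
      (spc σ p G).continuous hroot ((spc σ p G).hasDerivAt ρ) hder hη
    obtain ⟨-, t', ht1', ht2', -⟩ := exists_open_pos (f := fun x => -((spc σ p G).eval x))
      (spc σ p G).continuous.neg (by simpa using hroot) ((spc σ p G).hasDerivAt ρ).neg
      (neg_ne_zero.mpr hder) hη
    exact ⟨t, t', ht1, ht1', ht2, by simpa using ht2'⟩
  choose! t t' ht ht' hpos hneg using hsign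
  have hev : ∀ᶠ v in 𝓝 p, ∀ ρ ∈ R, 0 < (spc σ v G).eval (t ρ) ∧
      (spc σ v G).eval (t' ρ) < 0 := by
    rw [Filter.eventually_all_finset]
    intro ρ hρ
    exact (continuousAt_const.eventually_lt (continuous_spc_eval σ G (t ρ)).continuousAt
      (hpos ρ hρ)).and ((continuous_spc_eval σ G (t' ρ)).continuousAt.eventually_lt
        continuousAt_const (hneg ρ hρ))
  rw [Metric.eventually_nhds_iff] at hev
  obtain ⟨δ, hδ, hev⟩ := hev
  refine ⟨δ, hδ, fun v hv => ?_⟩
  have hroots : ∀ ρ ∈ R, ∃ θ, |θ - ρ| < η ∧ (spc σ v G).IsRoot θ := by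
    intro ρ hρ
    have h1 := hev hv ρ hρ
    have hc : ContinuousOn (fun x => (spc σ v G).eval x) (uIcc (t' ρ) (t ρ)) :=
      (spc σ v G).continuous.continuousOn
    have h2 := intermediate_value_uIcc hc
    have h0 : (0:ℝ) ∈ uIcc ((spc σ v G).eval (t' ρ)) ((spc σ v G).eval (t ρ)) := by
      rw [uIcc_of_le (by linarith [h1.1, h1.2])]
      exact ⟨h1.2.le, h1.1.le⟩
    obtain ⟨θ, hθ, hθ0⟩ := h2 h0
    refine ⟨θ, ?_, hθ0⟩
    have hball : uIcc (t' ρ) (t ρ) ⊆ Metric.ball ρ η := by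
      apply (convex_ball ρ η).ordConnected.uIcc_subset
      · rw [Metric.mem_ball, Real.dist_eq]; exact ht' ρ hρ
      · rw [Metric.mem_ball, Real.dist_eq]; exact ht ρ hρ
    have := hball hθ
    rwa [Metric.mem_ball, Real.dist_eq] at this
  choose! f hf hf' using hroots
  refine ⟨f, ?_, ?_⟩
  · intro ρ hρ
    have hρR : ρ ∈ R := Multiset.mem_toFinset.mpr hρ
    exact ⟨(hf ρ hρR).trans_le hηε, hf' ρ hρR⟩
  · intro w hw
    by_contra hcon
    push Not at hcon
    have hinj : InjOn f R := by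
      intro ρ hρ ρ' hρ' heq
      by_contra hne
      have h1 := hsep ρ hρ ρ' hρ' hne
      have h2 := hf ρ hρ
      have h3 := hf ρ' hρ'
      rw [← heq] at h3
      have h4 : |ρ - ρ'| ≤ |f ρ - ρ| + |f ρ - ρ'| := by
        have := abs_sub_le ρ (f ρ) ρ'
        rwa [abs_sub_comm ρ (f ρ)] at this
      linarith
    set Q := (spc σ v G).map (algebraMap ℝ ℂ) with hQ
    have hQ0 : Q ≠ 0 := ((spc_monic σ v hG).map _).ne_zero
    have hQd : Q.natDegree = G.natDegree := by
      rw [hQ, (spc_monic σ v hG).natDegree_map, spc_natDegree σ v hG]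
    have hsub : insert w (R.image (fun ρ => ((f ρ : ℝ) : ℂ))) ⊆ Q.roots.toFinset := by
      intro u hu
      rw [Finset.mem_insert] at hu
      rw [Multiset.mem_toFinset, mem_roots hQ0]
      rcases hu with rfl | hu
      · exact hw
      · rw [Finset.mem_image] at hu
        obtain ⟨ρ, hρ, rfl⟩ := hu
        exact (hf' ρ hρ).map (f := algebraMap ℝ ℂ)
    have hnot : w ∉ R.image (fun ρ => ((f ρ : ℝ) : ℂ)) := by
      intro hmem
      rw [Finset.mem_image] at hmem
      obtain ⟨ρ, hρ, heq⟩ := hmem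
      exact hcon ρ (Multiset.mem_toFinset.mp hρ) heq.symm
    have hc1 := Finset.card_le_card hsub
    rw [Finset.card_insert_of_notMem hnot, Finset.card_image_of_injOn
      (fun a ha b hb hab => hinj ha hb (Complex.ofReal_injective hab)), hcard] at hc1
    have hc2 : Q.roots.toFinset.card ≤ G.natDegree := by
      rw [← hQd]
      exact (Multiset.toFinset_card_le _).trans (card_roots' _)
    omega

/-- Roots at points which approximate a family of real points. -/
lemma roots_cover [Fintype κ] {L : Type} [Field L] [NumberField L] {ι : L →+* Qbar}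
    {F : IntermediateField ℚ Qbar} (hLF : ∀ w : L, ι w ∈ F)
    (h2 : ∀ z : Qbar, z ^ 2 ∈ F → z ∈ F) (h3 : ∀ z : Qbar, z ^ 3 ∈ F → z ∈ F)
    {G : Polynomial (MvPolynomial κ L)} (hG : G.Monic) (hdeg : G.natDegree ≤ 4)
    (p : (L →+* ℝ) → κ → ℝ)
    (hcard : ∀ τ : L →+* ℝ, (spc τ (p τ) G).roots.toFinset.card = G.natDegree)
    {ε : ℝ} (hε : 0 < ε) :
    ∃ δ > 0, ∀ P : κ → Qbar, (∀ k, P k ∈ F) → (∀ k, Near ι (P k) (fun τ : L →+* ℝ => p τ k) δ) →
      (∀ Z : Qbar, (spc ι P G).IsRoot Z → Z ∈ F ∧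
        ∀ (τ : L →+* ℝ) (φ : Qbar →+* ℂ), Ext ι τ φ →
          ∃ q : ℝ, φ Z = (q : ℂ) ∧ ∃ ρ : ℝ, (spc τ (p τ) G).IsRoot ρ ∧ |q - ρ| < ε) ∧
      ∀ (τ : L →+* ℝ) (φ : Qbar →+* ℂ), Ext ι τ φ → ∀ ρ : ℝ, (spc τ (p τ) G).IsRoot ρ →
        ∃ Z : Qbar, (spc ι P G).IsRoot Z ∧ ‖φ Z - ρ‖ < ε := by
  choose δ hδ h using fun τ : L →+* ℝ => root_near τ hG (p τ) (hcard τ) hε
  obtain ⟨δ₀, hδ₀, hδle⟩ := exists_pos_le hδ
  have hp0 : ∀ τ : L →+* ℝ, spc τ (p τ) G ≠ 0 := fun τ => (spc_monic τ (p τ) hG).ne_zero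
  refine ⟨δ₀, hδ₀, fun P hPF hPn => ?_⟩
  have hv : ∀ (τ : L →+* ℝ) (φ : Qbar →+* ℂ), Ext ι τ φ → ∃ v : κ → ℝ, (∀ k, φ (P k) = (v k : ℂ)) ∧
      dist v (p τ) < δ τ := by
    intro τ φ hτ
    choose v hv hv2 using fun k => hPn k τ φ hτ
    refine ⟨v, hv, lt_of_lt_of_le ?_ (hδle τ)⟩
    rw [dist_pi_lt_iff hδ₀]
    intro k
    exact hv2 k
  refine ⟨?_, ?_⟩
  · intro Z hZ
    refine ⟨?_, ?_⟩
    · refine root_mem h2 h3 (spc_monic ι P hG)
        (by rwa [spc_natDegree ι P hG]) ?_ hZ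
      intro i
      rw [spc_coeff]
      exact eval₂_mem hLF P hPF _
    · intro τ φ hτ
      obtain ⟨v, hv, hclose⟩ := hv τ φ hτ
      obtain ⟨f, hf1, hf2⟩ := h τ v hclose
      have hroot : ((spc τ v G).map (algebraMap ℝ ℂ)).IsRoot (φ Z) := by
        rw [← spc_conj P v τ φ hτ hv]
        exact hZ.map
      obtain ⟨ρ, hρ, hw⟩ := hf2 _ hroot
      exact ⟨f ρ, hw, ρ, (mem_roots (hp0 τ)).mp hρ, (hf1 ρ hρ).1⟩
  · intro τ φ hτ ρ hρ
    obtain ⟨v, hv, hclose⟩ := hv τ φ hτ
    obtain ⟨f, hf1, -⟩ := h τ v hclose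
    have hρ' := hf1 ρ ((mem_roots (hp0 τ)).mpr hρ)
    have hroot : ((spc ι P G).map φ).IsRoot (f ρ : ℂ) := by
      rw [spc_conj P v τ φ hτ hv]
      exact hρ'.2.map (f := algebraMap ℝ ℂ)
    -- the polynomial splits in the algebraic closure
    have hspl : (spc ι P G).Splits := IsAlgClosed.splits _
    have hmem : (f ρ : ℂ) ∈ ((spc ι P G).map φ).roots :=
      (mem_roots ((spc_monic _ P hG).map φ).ne_zero).mpr hroot
    rw [hspl.roots_map, Multiset.mem_map] at hmem
    obtain ⟨Z, hZ, hZ2⟩ := hmem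
    refine ⟨Z, (mem_roots (spc_monic _ P hG).ne_zero).mp hZ, ?_⟩
    rw [hZ2, ← Complex.ofReal_sub, Complex.norm_real]
    exact hρ'.1

end

end Pool.Agent.TRS
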