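import Pool.Agent.Wex.All3
import Pool.Agent.TriL.All

/-!
# MP_5ab805_an, TrilinearForm: the exponent `1/2` is sharp, targets (helper9)

THEOREM.  Let `T(q, s)` be the inequality of `Results/MP_5ab805_an/TrilinearForm`:
`‖Ef₁ Ef₂ E(a⊗b K)‖_(q/3) ≤ C M ‖f₁‖₂ ‖f₂‖₂` for all `K` with modulus `M |h|^s` along `e`.
If `T(q, s)` holds (even for `a = b = 1`, `e = (0,1)`), `s ≥ 0`, then `s ≥ (24 - 7q)/(2q)`.  So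
`T(q, s)` holds for all `3 < q < 4` if and only if `s ≥ 1/2`.

EXAMPLE.  `N = 8n` (`n ≥ 1`), `J = A N` (`A ≥ 16` fixed).  `f₁ = f₂ = fk A n`, a Knapp cap of side
`1/J`, modulated so that its tube `|ξ₁| ≤ J/32`, `|ξ₂ + J²/8| ≤ J/32` crosses the `n` strips
`x₂ = -ξ₂/(2ξ₃) ∼ vk n k = 1/8 + k/N`, the strip `k` at the time `tk A n k = J²/(16 vk)`; `K` is
the sum of `n` pieces, the piece `k` lives on the strip `k` and is a chirp in `x₁` which focuses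
at the time `tk`.  The other pieces are removed by averaging over the `n` functions `gm A n m`,
`m < n` (roots of unity).

EVERYTHING of `Pool/Agent/Wex`, `Pool/Agent/Wey`, `Pool/Agent/TriL` is available by the import, in
particular `Wex.p_WLO Wey.p_REP Wex.p_TEN : Wex.T_WLO`, the lemmas `Wex.KNA_.*` (file
`Wex/KNA.lean`: `tent_le`, `tent_zero`, `pyr_zero`, `ind`, `norm_two`, `ph`, `phase`, `sqr`,
`sqr_vol`) and `TriL.FAC_.main` (extension of a sum of tensor products).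
`u a = exp(-i a)`, `E f (ξ₁, ξ₂, ξ₃) = ∫ u(ξ₁ x₁ + (ξ₂ x₂ + ξ₃ (x₁² + x₂²))) f(x) dx`,
`E1 g (ξ, t) = ∫ u(ξ x + t x²) g(x) dx`.

One job = one target `T_X`, proved as `theorem p_X (hypotheses = other targets of THIS file) : T_X`
in the NEW file `Pool/Agent/TRS/X.lean` (import this file), helper lemmas in the namespace `X_`.
-/

set_option autoImplicit false

namespace TRS

open MeasureTheory Set Filter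
open scoped ENNReal NNReal Topology
open Pool.Agent.Restr (u E E1 QQ)
open TriL (Sq n2 Mo)
open Wey (nq InD gdn)
open Wex (tent pyr ww)

/-- the profile `exp(-x²) tent 3 x`; `ww x = w1 x.1 * w1 x.2` -/
noncomputable def w1 (x : ℝ) : ℂ := ((Real.exp (-x ^ 2) * tent 3 x : ℝ) : ℂ)

/-- `J = 8 A n` as a real number -/
noncomputable def JJ (A n : ℕ) : ℝ := 8 * A * n

/-- position of the strip `k` -/
noncomputable def vk (n k : ℕ) : ℝ := 1 / 8 + k / (8 * n)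

/-- time at which the tube crosses the strip `k` -/
noncomputable def tk (A n k : ℕ) : ℝ := JJ A n ^ 2 / (16 * vk n k)

/-- first factor of the piece: a chirp which focuses at the time `tk` -/
noncomputable def ck (A n k : ℕ) (x : ℝ) : ℂ := u (-(tk A n k * x ^ 2)) * w1 x

/-- second factor of the piece: a bump of width `1/(8n)` at `vk` -/
noncomputable def bk (n k : ℕ) (x : ℝ) : ℂ := w1 (8 * n * (x - vk n k))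

/-- the sum of the pieces, with the coefficients `exp(2πi k m / n)` -/
noncomputable def gm (A n m : ℕ) (x : ℝ × ℝ) : ℂ :=
  ∑ k ∈ Finset.range n, u (-(2 * Real.pi * k * m / n)) * (ck A n k x.1 * bk n k x.2)

/-- the modulated Knapp cap `J exp(-i J² x₂ / 8) pyr (2J)` -/
noncomputable def fk (A n : ℕ) (x : ℝ × ℝ) : ℂ :=
  u (JJ A n ^ 2 / 8 * x.2) * ((JJ A n : ℂ) * pyr (2 * JJ A n) x)

/-- the part of the tube at which the piece `k` is large -/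
def PP (A n k : ℕ) : Set (ℝ × ℝ × ℝ) :=
  {ξ | |ξ.1| ≤ JJ A n / 32 ∧ |ξ.2.1 + JJ A n ^ 2 / 8| ≤ JJ A n / 32 ∧
    tk A n k + JJ A n ^ 2 / (512 * n) ≤ ξ.2.2 ∧ ξ.2.2 ≤ tk A n k + JJ A n ^ 2 / (256 * n)}

/-- ONE: lower bound for the one-dimensional profile.

PROOF. `ww x = gdn (pyr 3) x = w1 x.1 * w1 x.2` (`nq x = x.1² + x.2²`, `Real.exp_add`), so by
`TriL.FAC_.main` (with `ι = Unit`, or Fubini `integral_prod_mul` directly)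
`E ww (p, p, s) = E1 w1 (p, s) ^ 2`. `Wex.p_WLO Wey.p_REP Wex.p_TEN`: `c₀ / s ≤ ‖E ww (p, p, s)‖`
for `s ≥ s₀`, `|p| ≤ s/8`. Take `c = √c₀`. -/
def T_ONE : Prop := ∃ c s₀ : ℝ, 0 < c ∧ 1 ≤ s₀ ∧ ∀ p s : ℝ, s₀ ≤ s → |p| ≤ s / 8 →
  c / √s ≤ ‖E1 w1 (p, s)‖

/-- LOW (from ONE): lower bound for the pieces.

PROOF. Let `c₀, s₀` be as in ONE; `A ≥ 16` a natural number with `A² ≥ 8 s₀`. Put `N = 8 n`,
`J = JJ A n = A N`, `v = vk n k ∈ [1/8, 1/4)`, `t_k = J²/(16 v) ∈ [J²/4, J²/2]`, `ξ ∈ PP A n k`,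
`t = ξ.2.2`; so `t - t_k ∈ [J²/(64N), J²/(32N)]`, `J²/4 ≤ t ≤ J²`.
(1) `u (ξ₁ x + t x²) * ck x = u (ξ₁ x + (t - t_k) x²) * w1 x`, so `E1 (ck A n k) (ξ₁, t) =
E1 w1 (ξ₁, t - t_k)`. Here `t - t_k ≥ J²/(64N) = A J/64 ≥ A²/8 ≥ s₀` (`J = A N ≥ 8 A`) and
`|ξ₁| ≤ J/32 ≤ J²/(512N) ≤ (t - t_k)/8` (`J = A N ≥ 16 N`). So the norm is
`≥ c₀/√(t - t_k) ≥ c₀/√(J²/(32N))`.
(2) Substituting `x = v + y/N`: `E1 (bk n k) (ξ₂, t) = (1/N) u(ξ₂ v + t v²) E1 w1 (p, t/N²)`,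
`p = (ξ₂ + 2 t v)/N`. `t/N² ≥ A²/4 ≥ s₀`. `ξ₂ + 2tv = (ξ₂ + J²/8) + 2v(t - t_k)`
(`2 v t_k = J²/8`), of modulus `≤ J/32 + J²/(64N) ≤ 9 J²/(512N) ≤ t/(8N)`, so
`|p| ≤ (t/N²)/8`. The norm is `≥ (1/N) c₀/√(t/N²) = c₀/√t ≥ c₀/J`.
Product: `c₀² √(32N)/J² = c₀² √32 N^(-3/2)/A²`, i.e. `c = c₀² √32 8^(-3/2)/A²`. -/
def T_LOW : Prop := ∃ A : ℕ, 16 ≤ A ∧ ∃ c : ℝ, 0 < c ∧ ∀ n : ℕ, 1 ≤ n → ∀ k < n, ∀ ξ ∈ PP A n k,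
  c * (n : ℝ) ^ (-(3 / 2) : ℝ) ≤ ‖E1 (ck A n k) (ξ.1, ξ.2.2) * E1 (bk n k) (ξ.2.1, ξ.2.2)‖

/-- GMF: the extension of `gm` as a sum.

PROOF. `TriL.FAC_.main` with `ι = Fin n`, `U j x = u(-(2π j m/n)) * ck A n j x`, `V j = bk n j`
(`|w1| ≤ 1`, `w1 x = 0` for `|x| ≥ 1/3`; `bk n j` vanishes unless `|x - vk n j| ≤ 1/(24 n)`, which
is inside `[-1/2, 1/2]`; all are continuous) and `Finset.sum_range`. -/
def T_GMF : Prop := ∀ (A n m : ℕ), 1 ≤ n → ∀ ξ : ℝ × ℝ × ℝ, E (gm A n m) ξ =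
  ∑ k ∈ Finset.range n, u (-(2 * Real.pi * k * m / n)) *
    (E1 (ck A n k) (ξ.1, ξ.2.2) * E1 (bk n k) (ξ.2.1, ξ.2.2))

/-- KNF: the Knapp function.

PROOF. As `Wex/KNA.lean`, with `J = JJ A n = ((8 A n : ℕ) : ℝ) ≥ 8`. `|fk| = |J pyr(2J)|`, so
`InD` and the `L²` norm are `Wex.KNA_.ind`, `Wex.KNA_.norm_two` for the natural number `8 A n`.
`E (fk A n) ξ = ∫ u(ξ₁x₁ + ((ξ₂ + J²/8)x₂ + ξ₃|x|²)) J pyr(2J) x dx`. For `ξ ∈ PP A n k`: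
`|ξ₁|, |ξ₂ + J²/8| ≤ J/32`, `0 ≤ ξ₃ ≤ J²` (`vk ≥ 1/8` gives `tk ≤ J²/2`) and `|x_i| ≤ 1/(2J)` on
the support, so the phase is at most `1/32 + 1/2` in modulus, `cos ≥ 4/5`, and
`|E| ≥ (4/5) J ∫ pyr(2J) = (4/5) J (1/(2J))² = 1/(5J)` (compare the end of `Wex/KNA.lean`, where
the lower bound `c/J` is proved; it needs only `0 ≤ ξ₃ ≤ J²`). -/
def T_KNF : Prop := ∀ A : ℕ, 1 ≤ A → ∃ c : ℝ, 0 < c ∧ ∀ n : ℕ, 1 ≤ n → InD (fk A n) ∧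
  eLpNorm (fk A n) 2 volume ≤ 1 ∧ ∀ k < n, ∀ ξ ∈ PP A n k, c / n ≤ ‖E (fk A n) ξ‖

/-- CLS: `gm` is in the class.

PROOF. `|w1| ≤ 1`, `w1 x = 0` for `|x| ≥ 1/3`, `|w1 x - w1 y| ≤ 4 |x - y|` (`tent 3` is Lipschitz
with constant `3` and `exp(-x²)` with constant `1`). `bk n k` vanishes unless
`|x - vk n k| < 1/(24n)`, and these intervals are disjoint and contained in `[0, 1/4]`
(`vk n k + 1/(24 n) ≤ 1/8 + (n-1)/(8n) + 1/(24n) < 1/4`). So for every `x` at most one term of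
`gm` is not zero: `|gm| ≤ 1`, `gm x = 0` unless `|x.1| ≤ 1/3`, `0 ≤ x.2 ≤ 1/4` (so `InD`:
`1/9 + 1/16 < 1/4`), and for fixed `x₁` the function `y ↦ gm (x₁, y)` is Lipschitz with constant
`L = 64 n` (at most two terms are not zero at `y` or `y'`, each Lipschitz with constant `32 n`).
`∫ |gm(x, y+h) - gm(x, y)|² dy`: the integrand is `≤ min(2, L|h|)² ≤ 4 (L|h|)^(2s)`
(if `L|h| ≤ 1`: `(L|h|)² ≤ (L|h|)^(2s)` as `s ≤ 1`; if `L|h| ≥ 1`: `4 ≤ 4 (L|h|)^(2s)` as `s ≥ 0`)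
and vanishes unless `y ∈ [0,1/4]` or `y + h ∈ [0, 1/4]`, a set of measure `≤ 1/2 ≤ 1`. So
`M² = 4 L^(2s)`, `M = 2 (64 n)^s ≤ 128 n^s`. -/
def T_CLS : Prop := ∀ (A n m : ℕ), 1 ≤ n → InD (gm A n m) ∧ (∀ x, ‖gm A n m x‖ ≤ 1) ∧
  ∀ s : ℝ, 0 ≤ s → s ≤ 1 → Mo (gm A n m) s (128 * (n : ℝ≥0) ^ s)

/-- AVG: averaging over the roots of unity.

PROOF. `n z_k = ∑_(m<n) u(2π k m/n) F_m`, `F_m = ∑_(j<n) u(-(2π j m/n)) z_j` (orthogonality: for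
`j ≠ k`, `∑_(m<n) exp(2πi (j-k) m/n) = 0`, geometric sum). So `‖z_k‖ ≤ (1/n) ∑_m ‖F_m‖` and by
convexity (`ρ ≥ 1`; `Real.rpow_arith_mean_le_arith_mean_rpow` or
`ENNReal.rpow_arith_mean_le_arith_mean_rpow`) `‖z_k‖^ρ ≤ (1/n) ∑_m ‖F_m‖^ρ`. -/
def T_AVG : Prop := ∀ (n : ℕ) (z : ℕ → ℂ) (ρ : ℝ), 1 ≤ n → 1 ≤ ρ → ∀ k < n,
  n * ‖z k‖ₑ ^ ρ ≤ ∑ m ∈ Finset.range n,
    ‖∑ j ∈ Finset.range n, u (-(2 * Real.pi * j * m / n)) * z j‖ₑ ^ ρ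

/-- VOL: the sets `PP`.

PROOF. `PP A n k` is a product of three closed intervals, of lengths `J/16`, `J/16`,
`J²/(256 n) - J²/(512 n) = J²/(512 n)`: the volume is `J⁴/(131072 n) = A⁴ n³ / 32`
(`8⁴/131072 = 1/32`). Disjoint: for `j < k`, `tk A n j - tk A n k = (J²/16) (vk k - vk j)/(vk j vk k)
≥ (J²/16) (1/(8n)) 16 = J²/(8n) > J²/(256 n)` since `vk ≤ 1/4`. -/
def T_VOL : Prop := ∀ (A n : ℕ), 1 ≤ A → 1 ≤ n → (∀ k, MeasurableSet (PP A n k)) ∧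
  (∀ k < n, volume (PP A n k) = ENNReal.ofReal ((A : ℝ) ^ 4 * n ^ 3 / 32)) ∧
  ∀ j < n, ∀ k < n, j ≠ k → Disjoint (PP A n j) (PP A n k)

/-- SUM (from LOW, GMF, KNF, AVG, VOL): lower bound for the trilinear form.

PROOF. `A` from LOW, `c₁` from LOW, `c₂` from KNF for this `A`. Let `z_k(ξ) = E1 (ck) * E1 (bk)`.
GMF and AVG: `n ‖z_k ξ‖^ρ ≤ ∑_(m<n) ‖E (gm A n m) ξ‖^ρ` for all `ξ`, `k < n`. On `PP A n k`: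
`‖E f ξ * E f ξ * z_k ξ‖ₑ^ρ ≥ ofReal((c₂² c₁ n^(-7/2))^ρ)`. Multiply by `n`, integrate over
`PP A n k` and sum over `k < n` (disjoint sets): `n * n * (A⁴ n³/32) * (c₂² c₁)^ρ n^(-7ρ/2) ≤
∑_(m<n) ∫ ‖E f * E f * E (gm A n m)‖^ρ`, so one of the `n` integrals is at least
`(1/n)` of the left side. The constant is `c = (A⁴/32) (c₂² c₁)^ρ`. -/
def T_SUM : Prop := ∃ A : ℕ, 1 ≤ A ∧ ∀ ρ : ℝ, 1 ≤ ρ → ∃ c : ℝ, 0 < c ∧ ∀ n : ℕ, 1 ≤ n →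
  ∃ m : ℕ, ENNReal.ofReal (c * (n : ℝ) ^ (4 - 7 * ρ / 2)) ≤
    ∫⁻ ξ, ‖E (fk A n) ξ * E (fk A n) ξ * E (gm A n m) ξ‖ₑ ^ ρ

/-- NEC (from CLS, KNF, SUM): the necessary condition.

PROOF. If `s > 1`: `4/ρ - 7/2 ≤ 1/2 < s`. Let `s ≤ 1`. Take `f₁ = f₂ = fk A n`, `K = gm A n m` (`m`
from SUM), `M = 128 n^s ≥ 1`: by CLS, KNF and the hypothesis the `L^ρ` norm is `≤ C 128 n^s`, so
(`eLpNorm_eq_lintegral_rpow_enorm_toReal`) `c n^(4 - 7ρ/2) ≤ (128 C)^ρ n^(sρ)` for all `n ≥ 1`;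
letting `n → ∞`, `4 - 7ρ/2 ≤ s ρ` (compare the end of `Wex/NEC.lean`). -/
def T_NEC : Prop := ∀ ρ s : ℝ, 1 ≤ ρ → 0 ≤ s → (∃ C : ℝ≥0, ∀ (f₁ f₂ K : ℝ × ℝ → ℂ) (M : ℝ≥0),
  InD f₁ → InD f₂ → InD K → (∀ x, ‖K x‖ ≤ 1) → 1 ≤ M → Mo K s M →
  eLpNorm (fun ξ => E f₁ ξ * E f₂ ξ * E K ξ) (ENNReal.ofReal ρ) volume ≤
    C * M * eLpNorm f₁ 2 volume * eLpNorm f₂ 2 volume) → 4 / ρ - 7 / 2 ≤ s

/-- the line of `Results/MP_5ab805_an/TrilinearForm` -/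
def line (e : ℝ × ℝ) (t r : ℝ) : ℝ × ℝ := (t * e.2 + r * e.1, -(t * e.1) + r * e.2)

/-- SUF: bigger exponents give smaller classes.

PROOF. `|h| ≤ 1`: `|h|^(2s) ≤ |h|^(2/2)` and `M ≤ 2M`. `|h| > 1`: by `‖x - y‖² ≤ 2‖x‖² + 2‖y‖²` and
translation invariance the integral is `≤ 4 ∫ ‖K(line e t r)‖² dr ≤ 4`, since
`|line e t r|² = t² + r²` (`e` is a unit vector), so `K (line e t r) = 0` for `|r| > 1/2`, and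
`|K| ≤ 1`; and `4 ≤ (2M)² |h|`. -/
def T_SUF : Prop := ∀ (s : ℝ) (M : ℝ≥0) (e : ℝ × ℝ) (K : ℝ × ℝ → ℂ), 1 / 2 ≤ s → 1 ≤ M →
  e.1 ^ 2 + e.2 ^ 2 = 1 → InD K → (∀ x, ‖K x‖ ≤ 1) →
  (∀ᵐ t : ℝ, ∀ h : ℝ, ∫⁻ r, ‖K (line e t (r + h)) - K (line e t r)‖ₑ ^ 2 ≤
    (M : ℝ≥0∞) ^ 2 * ENNReal.ofReal (|h| ^ (2 * s))) →
  ∀ᵐ t : ℝ, ∀ h : ℝ, ∫⁻ r, ‖K (line e t (r + h)) - K (line e t r)‖ₑ ^ 2 ≤
    ((2 * M : ℝ≥0) : ℝ≥0∞) ^ 2 * ENNReal.ofReal (|h| ^ (2 * (1 / 2 : ℝ)))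

end TRS
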